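import Mathlib
import Pool.Agent.H9.Lib.R_seed8.TeamU.GMink

/-!
Representatives of projective points over a number field.
-/

set_option autoImplicit false

open Finset Filter Topology

namespace Pool.Agent.R405

open NumberField IsDedekindDomain Height Module
open scoped NNReal

variable {K : Type} [Field K] [NumberField K]

/-- the height in terms of integral coordinates -/
theorem mulHeight_int {n : ℕ} (u : Fin n → 𝓞 K) (hu : u ≠ 0) :
    mulHeight (fun j => (u j : K)) * Ideal.absNorm (Ideal.span (Set.range u)) =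
      ∏ v : InfinitePlace K, (⨆ i, v (u i : K)) ^ v.mult := by
  have hu' : (fun j => (u j : K)) ≠ 0 := by
    intro h
    apply hu
    funext i
    have := congrFun h i
    simpa using this
  rw [NumberField.mulHeight_eq hu', mul_assoc, mul_comm (∏ᶠ v : FinitePlace K, ⨆ i, v (u i : K)),
    absNorm_mul_finprod_finitePlace_eq_one hu, mul_one]

/-- a representative with integral coordinates, bounded content and moderate conjugates -/
theorem exists_rep (K : Type) [Field K] [NumberField K] : ∃ C : ℝ, 1 ≤ C ∧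
    ∀ (n : ℕ) (x : Fin n → K), x ≠ 0 →
      ∃ (lam : K) (y : Fin n → 𝓞 K), lam ≠ 0 ∧ (∀ j, (y j : K) = lam * x j) ∧
        (∀ (w : InfinitePlace K) (j : Fin n), w (y j : K) ≤ C * mulHeight x ^ 2) ∧
        (Ideal.absNorm (Ideal.span (Set.range y)) : ℝ) ≤ C := by
  classical
  set q : ℝ := √|(discr K : ℝ)| with hq
  have hq0 : 0 ≤ q := Real.sqrt_nonneg _
  refine ⟨q + 1, by linarith, fun n x hx => ?_⟩
  obtain ⟨j0, hj0⟩ := Function.ne_iff.1 hx
  have hj0' : x j0 ≠ 0 := hj0
  set d : ℕ := finrank ℚ K with hd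
  have hd0 : 0 < d := finrank_pos
  obtain ⟨⟨m, hm⟩, hmx⟩ := IsLocalization.exist_integer_multiples_of_finite
    (nonZeroDivisors (𝓞 K)) (fun j => x j / x j0)
  choose u hu using hmx
  have hm0 : m ≠ 0 := nonZeroDivisors.ne_zero hm
  have hmK : (m : K) ≠ 0 := RingOfIntegers.coe_ne_zero_iff.2 hm0
  have hu' : ∀ j, (u j : K) = (m : K) * (x j / x j0) := by
    intro j
    have := hu j
    rw [Algebra.smul_def] at this
    exact this
  have huj : u j0 = m := by
    apply RingOfIntegers.ext
    rw [hu', div_self hj0', mul_one]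
  have hu0 : u ≠ 0 := by
    intro h
    apply hm0
    rw [← huj, h]
    rfl
  set A : Ideal (𝓞 K) := Ideal.span (Set.range u) with hA
  have hmA : Ideal.span {m} ≤ A := by
    rw [Ideal.span_singleton_le_iff_mem, ← huj]
    exact Ideal.subset_span (Set.mem_range_self _)
  obtain ⟨J, hJ⟩ := Ideal.dvd_iff_le.2 hmA
  have hmb : Ideal.span {m} ≠ ⊥ := by rwa [Ne, Ideal.span_singleton_eq_bot]
  have hA0 : A ≠ ⊥ := by
    rintro h
    apply hmb
    rw [hJ, h, Ideal.bot_mul]
  have hJ0 : J ≠ ⊥ := by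
    rintro h
    apply hmb
    rw [hJ, h, Ideal.mul_bot]
  have hNA : (0 : ℝ) < Ideal.absNorm A := by
    have : Ideal.absNorm A ≠ 0 := by rwa [Ne, Ideal.absNorm_eq_zero_iff]
    exact_mod_cast Nat.pos_of_ne_zero this
  have hNJ : (0 : ℝ) < Ideal.absNorm J := by
    have : Ideal.absNorm J ≠ 0 := by rwa [Ne, Ideal.absNorm_eq_zero_iff]
    exact_mod_cast Nat.pos_of_ne_zero this
  have hNJ1 : (1 : ℝ) ≤ Ideal.absNorm J := by
    have : Ideal.absNorm J ≠ 0 := by rwa [Ne, Ideal.absNorm_eq_zero_iff]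
    exact_mod_cast Nat.one_le_iff_ne_zero.2 this
  have hNm : (Ideal.absNorm (Ideal.span {m}) : ℝ) = Ideal.absNorm A * Ideal.absNorm J := by
    rw [hJ, map_mul]
    push_cast
    rfl
  -- the small element
  set c : ℝ := ((Ideal.absNorm J : ℝ) * (q + 1)) ^ (1 / (d : ℝ)) with hc
  have hbase : (1 : ℝ) ≤ (Ideal.absNorm J : ℝ) * (q + 1) := by nlinarith
  have hc0 : 0 ≤ c := Real.rpow_nonneg (by linarith) _
  have hcd : c ^ d = (Ideal.absNorm J : ℝ) * (q + 1) := by
    rw [hc, ← Real.rpow_natCast, ← Real.rpow_mul (by linarith), one_div,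
      inv_mul_cancel₀ (by exact_mod_cast hd0.ne'), Real.rpow_one]
  have hc1 : 1 ≤ c := by
    by_contra h
    push Not at h
    have := pow_lt_one₀ hc0 h hd0.ne'
    linarith
  obtain ⟨l, hlJ, hl0, hlw⟩ := Pool.Agent.TeamU.exists_small_mem_ideal K J hJ0 ⟨c, hc0⟩ (by
    show (Ideal.absNorm J : ℝ) * √|(discr K : ℝ)| < c ^ finrank ℚ K
    rw [← hq, ← hd, hcd]
    nlinarith)
  have hlw' : ∀ w : InfinitePlace K, w (l : K) < c := fun w => hlw w
  -- the coordinates
  have hy : ∀ j, ∃ y : 𝓞 K, l * u j = m * y := by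
    intro j
    have h1 : u j * l ∈ A * J := Ideal.mul_mem_mul (Ideal.subset_span (Set.mem_range_self j)) hlJ
    rw [← hJ, Ideal.mem_span_singleton] at h1
    obtain ⟨y, hy⟩ := h1
    exact ⟨y, by rw [mul_comm, hy]⟩
  choose y hy using hy
  have hyK : ∀ j, (y j : K) = (l : K) * (x j / x j0) := by
    intro j
    have h2 : (l : K) * (u j : K) = (m : K) * (y j : K) := by
      have h1 := congrArg (algebraMap (𝓞 K) K) (hy j)
      rw [map_mul, map_mul] at h1
      exact h1
    rw [hu' j] at h2
    have h3 : (m : K) * ((l : K) * (x j / x j0)) = (m : K) * (y j : K) := by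
      rw [← h2]; ring
    exact (mul_left_cancel₀ hmK h3).symm
  have hlK : (l : K) ≠ 0 := RingOfIntegers.coe_ne_zero_iff.2 hl0
  -- heights
  set z : Fin n → K := fun j => x j / x j0 with hz
  have hzx : mulHeight z = mulHeight x := by
    have : z = (x j0)⁻¹ • x := by
      funext j
      rw [hz]
      simp only [Pi.smul_apply, smul_eq_mul]
      rw [div_eq_inv_mul]
    rw [this, mulHeight_smul_eq_mulHeight _ (inv_ne_zero hj0')]
  have hzu : (fun j => (u j : K)) = (m : K) • z := by
    funext j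
    rw [hu' j]
    rfl
  have hsup : ∀ w : InfinitePlace K, 1 ≤ ⨆ i, w (z i) := by
    intro w
    have h1 : w (z j0) = 1 := by
      rw [hz]
      simp only [div_self hj0', map_one]
    rw [← h1]
    exact le_ciSup (f := fun i => w (z i)) (Set.finite_range _).bddAbove j0
  have hprod : mulHeight x = (Ideal.absNorm J : ℝ) *
      ∏ w : InfinitePlace K, (⨆ i, w (z i)) ^ w.mult := by
    have h1 := mulHeight_int u hu0
    rw [hzu, mulHeight_smul_eq_mulHeight _ hmK, hzx] at h1
    have h2 : ∏ v : InfinitePlace K, (⨆ i, v (u i : K)) ^ v.mult =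
        (∏ v : InfinitePlace K, v (m : K) ^ v.mult) *
          ∏ w : InfinitePlace K, (⨆ i, w (z i)) ^ w.mult := by
      rw [← Finset.prod_mul_distrib]
      refine Finset.prod_congr rfl fun w _ => ?_
      rw [← mul_pow]
      congr 1
      rw [Real.mul_iSup_of_nonneg (apply_nonneg w _)]
      refine iSup_congr fun i => ?_
      rw [hu' i, map_mul]
    have h3 : ∏ v : InfinitePlace K, v (m : K) ^ v.mult = (Ideal.absNorm A : ℝ) *
        Ideal.absNorm J := by
      rw [InfinitePlace.prod_eq_abs_norm, ← hNm, Ideal.absNorm_span_singleton]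
      have : (Algebra.norm ℚ (m : K) : ℚ) = ((Algebra.norm ℤ m : ℤ) : ℚ) :=
        (Algebra.coe_norm_int m).symm
      rw [this, Nat.cast_natAbs]
      push_cast
      rfl
    rw [h2, h3] at h1
    have h4 : (Ideal.absNorm A : ℝ) * mulHeight x = (Ideal.absNorm A : ℝ) *
        ((Ideal.absNorm J : ℝ) * ∏ w : InfinitePlace K, (⨆ i, w (z i)) ^ w.mult) := by
      rw [mul_comm, h1]; ring
    exact mul_left_cancel₀ hNA.ne' h4
  have hp1 : ∀ s : Finset (InfinitePlace K), 1 ≤ ∏ w ∈ s, (⨆ i, w (z i)) ^ w.mult := by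
    intro s
    calc (1 : ℝ) = ∏ _w ∈ s, (1 : ℝ) := by rw [Finset.prod_const_one]
      _ ≤ _ := Finset.prod_le_prod (fun _ _ => zero_le_one) fun w _ => one_le_pow₀ (hsup w)
  have hJx : (Ideal.absNorm J : ℝ) ≤ mulHeight x := by
    rw [hprod]
    exact le_mul_of_one_le_right hNJ.le (hp1 _)
  have hx1 : 1 ≤ mulHeight x := hNJ1.trans hJx
  have hwz : ∀ (w : InfinitePlace K) (j : Fin n), w (z j) ≤ mulHeight x := by
    intro w j
    have h1 : w (z j) ≤ ⨆ i, w (z i) :=
      le_ciSup (f := fun i => w (z i)) (Set.finite_range _).bddAbove j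
    have h2 : (⨆ i, w (z i)) ≤ (⨆ i, w (z i)) ^ w.mult :=
      le_self_pow₀ (hsup w) (InfinitePlace.mult_pos).ne'
    have h3 : (⨆ i, w (z i)) ^ w.mult ≤ ∏ w : InfinitePlace K, (⨆ i, w (z i)) ^ w.mult := by
      rw [← Finset.mul_prod_erase _ _ (Finset.mem_univ w)]
      exact le_mul_of_one_le_right (pow_nonneg (by linarith [hsup w]) _) (hp1 _)
    rw [hprod]
    exact ((h1.trans h2).trans h3).trans (le_mul_of_one_le_left
      (by linarith [hp1 Finset.univ]) hNJ1)
  refine ⟨(l : K) / x j0, y, div_ne_zero hlK hj0', fun j => ?_, fun w j => ?_, ?_⟩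
  · rw [hyK]
    ring
  · rw [hyK, map_mul]
    have h1 : c ≤ mulHeight x * (q + 1) := by
      refine le_trans (le_self_pow₀ hc1 hd0.ne') ?_
      rw [hcd]
      exact mul_le_mul_of_nonneg_right hJx (by linarith)
    calc w (l : K) * w (z j) ≤ (mulHeight x * (q + 1)) * mulHeight x :=
          mul_le_mul ((hlw' w).le.trans h1) (hwz w j) (apply_nonneg w _) (by positivity)
      _ = (q + 1) * mulHeight x ^ 2 := by ring
  · -- the content
    have h1 : Ideal.span {m} * Ideal.span (Set.range y) = Ideal.span {l} * A := by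
      rw [hA, Ideal.span_mul_span', Ideal.span_mul_span', Set.singleton_mul, Set.singleton_mul,
        ← Set.range_comp, ← Set.range_comp]
      congr 1
      congr 1
      funext j
      exact (hy j).symm
    have h2 : (Ideal.absNorm A : ℝ) * Ideal.absNorm J * Ideal.absNorm (Ideal.span (Set.range y)) =
        Ideal.absNorm (Ideal.span {l}) * Ideal.absNorm A := by
      rw [← hNm]
      have := congrArg (fun I : Ideal (𝓞 K) => (Ideal.absNorm I : ℝ)) h1
      simp only [map_mul] at this
      push_cast at this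
      exact this
    have h3 : (Ideal.absNorm (Ideal.span {l}) : ℝ) ≤ c ^ d := by
      rw [Ideal.absNorm_span_singleton, Nat.cast_natAbs]
      have e1 : ((|Algebra.norm ℤ l| : ℤ) : ℝ) = |(Algebra.norm ℚ (l : K) : ℚ)| := by
        have : (Algebra.norm ℚ (l : K) : ℚ) = ((Algebra.norm ℤ l : ℤ) : ℚ) :=
          (Algebra.coe_norm_int l).symm
        rw [this]
        push_cast
        rfl
      rw [e1, ← InfinitePlace.prod_eq_abs_norm]
      calc ∏ w : InfinitePlace K, w (l : K) ^ w.mult ≤ ∏ w : InfinitePlace K, c ^ w.mult :=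
            Finset.prod_le_prod (fun w _ => pow_nonneg (apply_nonneg w _) _)
              fun w _ => pow_le_pow_left₀ (apply_nonneg w _) (hlw' w).le _
        _ = c ^ d := by rw [Finset.prod_pow_eq_pow_sum, InfinitePlace.sum_mult_eq]
    rw [hcd] at h3
    have h4 : (Ideal.absNorm J : ℝ) * Ideal.absNorm (Ideal.span (Set.range y)) =
        Ideal.absNorm (Ideal.span {l}) := by
      apply mul_left_cancel₀ hNA.ne'
      rw [← mul_assoc, h2, mul_comm]
    rw [← h4] at h3
    exact le_of_mul_le_mul_left h3 hNJ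

end Pool.Agent.R405
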