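import Mathlib
import Pool.Agent.H9.Lib.R_seed8.R405.SchK
import Pool.Agent.H9.Lib.R_seed8.Y734.BR.Gal

/-!
Places in Galois extensions of number fields.
-/

set_option autoImplicit false
set_option linter.unusedSectionVars false

open Finset Filter Topology

namespace Pool.Agent.R405

open NumberField IsDedekindDomain Height Module
open Pool.Agent.Y742.SF (fv fv_le_one_iff fv_mul fv_nonneg fv_pos fv_one fv_zero exists_gen gen_ne
  fv_gen fv_gen_ne prod_fv one_lt_gen fv_eq_one_iff fv_int)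
open Pool.Agent.TeamU (Over act exists_act val_over over_of_liesOver)

variable {k K : Type} [Field k] [NumberField k] [Field K] [NumberField K] [Algebra k K]

/-! ### Infinite places -/

/-- the number of embeddings above an infinite place -/
theorem card_inf [IsGalois ℚ K] [DecidableEq (InfinitePlace k)] (ψ : K →+* ℂ)
    (v : InfinitePlace k) :
    ((Finset.univ : Finset (K ≃ₐ[ℚ] K)).filter fun σ =>
      (InfinitePlace.mk (em ψ σ)).comap (algebraMap k K) = v).card =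
      finrank k K * v.mult := by
  classical
  have h1 := Pool.Agent.Helper259.HtExt.prod_inf_ext (K := k) (L := K)
    (fun w : InfinitePlace k => if w = v then (2 : ℝ) else 1)
  rw [← prod_gal ψ (fun w : InfinitePlace K =>
    if w.comap (algebraMap k K) = v then (2 : ℝ) else 1)] at h1
  have h2 : ∏ σ : K ≃ₐ[ℚ] K, (if (InfinitePlace.mk (em ψ σ)).comap (algebraMap k K) = v
      then (2 : ℝ) else 1) = 2 ^ ((Finset.univ : Finset (K ≃ₐ[ℚ] K)).filter fun σ =>
      (InfinitePlace.mk (em ψ σ)).comap (algebraMap k K) = v).card := by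
    rw [Finset.prod_ite, Finset.prod_const, Finset.prod_const_one, mul_one]
  have h3 : ∏ w : InfinitePlace k, (if w = v then (2 : ℝ) else 1) ^ w.mult = 2 ^ v.mult := by
    rw [Finset.prod_eq_single v]
    · rw [if_pos rfl]
    · intro w _ hw
      rw [if_neg hw, one_pow]
    · intro h
      exact absurd (Finset.mem_univ _) h
  rw [h2, h3, ← pow_mul, mul_comm v.mult] at h1
  exact Nat.pow_right_injective le_rfl (by exact_mod_cast h1)

/-! ### Finite places -/

/-- the absolute value of a prime -/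
noncomputable def fa (v : HeightOneSpectrum (𝓞 k)) : AbsoluteValue k ℝ := (FinitePlace.mk v).1

theorem fa_apply (v : HeightOneSpectrum (𝓞 k)) (x : k) : fa v x = fv v x := rfl

theorem fa_nontrivial (v : HeightOneSpectrum (𝓞 k)) : (fa v).IsNontrivial := by
  obtain ⟨U, hU⟩ := exists_gen v
  have hh : 0 < Fintype.card (ClassGroup (𝓞 k)) := Fintype.card_pos
  refine ⟨(U : k), RingOfIntegers.coe_ne_zero_iff.2 (gen_ne v _ hh U hU), ?_⟩
  intro h
  rw [fa_apply, fv_gen v _ hh U hU] at h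
  have h1 := one_lt_gen v _ hh U hU
  have h2 : ((Ideal.absNorm (Ideal.span {U}) : ℕ) : ℝ) = 1 := by
    rw [← inv_inv ((Ideal.absNorm (Ideal.span {U}) : ℕ) : ℝ), h, inv_one]
  have h3 : Ideal.absNorm (Ideal.span {U}) = 1 := by exact_mod_cast h2
  omega

theorem fv_lt_one_iff (v : HeightOneSpectrum (𝓞 k)) (x : k) : fv v x < 1 ↔ v.valuation k x < 1 := by
  rcases eq_or_ne x 0 with rfl | hx
  · rw [fv_zero, map_zero]
    simp
  · have h0 := fv_pos v x hx
    have h1 : fv v x⁻¹ = (fv v x)⁻¹ := map_inv₀ (FinitePlace.mk v) x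
    have h2 := fv_le_one_iff v x⁻¹
    rw [h1, map_inv₀] at h2
    have hv0 : v.valuation k x ≠ 0 := by
      rwa [Ne, map_eq_zero]
    rw [inv_le_one₀ h0, inv_le_one₀ (zero_lt_iff.2 hv0)] at h2
    rw [← not_le, ← not_le, h2]

theorem over_lt_one {Q : HeightOneSpectrum (𝓞 K)} {v : HeightOneSpectrum (𝓞 k)} (h : Over Q v)
    (x : k) (hx : fv v x < 1) : fv Q (algebraMap k K x) < 1 := by
  rw [fv_lt_one_iff] at hx ⊢
  rw [val_over h]
  have := Pool.Agent.TeamU.liesOver_of_over h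
  have he : v.asIdeal.ramificationIdx' Q.asIdeal ≠ 0 := by
    exact Ideal.IsDedekindDomain.ramificationIdx'_ne_zero_of_liesOver Q.asIdeal v.ne_bot
  exact pow_lt_one₀ zero_le' hx he

/-- the exponent of a prime above -/
theorem exists_exp {Q : HeightOneSpectrum (𝓞 K)} {v : HeightOneSpectrum (𝓞 k)} (h : Over Q v) :
    ∃ c : ℝ, 0 < c ∧ ∀ x : k, fv Q (algebraMap k K x) = fv v x ^ c := by
  have h1 := AbsoluteValue.isEquiv_of_lt_one_imp (v := fa v)
    (w := (fa Q).comp (algebraMap k K).injective) (fa_nontrivial v) (fun x hx =>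
      over_lt_one h x hx)
  obtain ⟨c, hc, h2⟩ := AbsoluteValue.isEquiv_iff_exists_rpow_eq.1 h1
  exact ⟨c, hc, fun x => (congrFun h2 x).symm⟩

theorem exists_over (v : HeightOneSpectrum (𝓞 k)) : ∃ Q : HeightOneSpectrum (𝓞 K), Over Q v := by
  obtain ⟨P, hP1, hP2⟩ := Ideal.exists_maximal_ideal_liesOver_of_isIntegral (S := 𝓞 K) v.asIdeal
  have hne : P ≠ ⊥ := by
    intro h
    apply v.ne_bot
    rw [hP2.over, h]
    exact Ideal.comap_bot_of_injective _ (FaithfulSMul.algebraMap_injective _ _)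
  exact ⟨⟨P, hP1.isPrime, hne⟩, over_of_liesOver hP2⟩

theorem fv_act (σ : K ≃ₐ[k] K) (Q : HeightOneSpectrum (𝓞 K)) (y : K) :
    fv (act σ Q) (σ y) = fv Q y :=
  Pool.Agent.Y734.BR.mk_act (σ.restrictScalars ℚ) Q y

/-- conjugate primes -/
theorem exists_conj [IsGalois k K] {Q Q' : HeightOneSpectrum (𝓞 K)} {v : HeightOneSpectrum (𝓞 k)}
    (h : Over Q v) (h' : Over Q' v) : ∃ g : K ≃ₐ[k] K, ∀ y, fv Q' y = fv Q (g y) := by
  obtain ⟨σ, rfl⟩ := exists_act h h'
  refine ⟨σ⁻¹, fun y => ?_⟩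
  have h1 := fv_act σ Q (σ⁻¹ y)
  rw [← AlgEquiv.mul_apply, mul_inv_cancel, AlgEquiv.one_apply] at h1
  exact h1

theorem norm_ext (U : 𝓞 k) : |((Algebra.norm ℤ (algebraMap (𝓞 k) (𝓞 K) U) : ℤ) : ℝ)| =
    |((Algebra.norm ℤ U : ℤ) : ℝ)| ^ finrank k K := by
  have h1 : (Algebra.norm ℚ ((algebraMap (𝓞 k) (𝓞 K) U : 𝓞 K) : K) : ℚ) =
      ((Algebra.norm ℤ (algebraMap (𝓞 k) (𝓞 K) U) : ℤ) : ℚ) := (Algebra.coe_norm_int _).symm
  have h2 : (Algebra.norm ℚ (U : k) : ℚ) = ((Algebra.norm ℤ U : ℤ) : ℚ) :=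
    (Algebra.coe_norm_int _).symm
  have h3 : ((algebraMap (𝓞 k) (𝓞 K) U : 𝓞 K) : K) = algebraMap k K (U : k) := rfl
  have h4 : Algebra.norm ℚ (algebraMap k K (U : k)) = Algebra.norm ℚ (U : k) ^ finrank k K := by
    rw [← Algebra.norm_norm (R := ℚ) (S := k), Algebra.norm_algebraMap, map_pow]
  rw [h3, h4, h2] at h1
  have h5 : ((Algebra.norm ℤ U : ℤ) : ℝ) ^ finrank k K =
      ((Algebra.norm ℤ (algebraMap (𝓞 k) (𝓞 K) U) : ℤ) : ℝ) := by exact_mod_cast h1
  rw [← h5, abs_pow]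

/-- the number of primes above, and the exponent -/
theorem card_fin [IsGalois k K] {v : HeightOneSpectrum (𝓞 k)} (A : Finset (HeightOneSpectrum (𝓞 K)))
    (hA : ∀ Q, Q ∈ A ↔ Over Q v) {Q : HeightOneSpectrum (𝓞 K)} (hQ : Over Q v) {c : ℝ}
    (hc : ∀ x : k, fv Q (algebraMap k K x) = fv v x ^ c) :
    (A.card : ℝ) * c = finrank k K := by
  classical
  obtain ⟨U, hU⟩ := exists_gen v
  have hh : 0 < Fintype.card (ClassGroup (𝓞 k)) := Fintype.card_pos
  have hU0 := gen_ne v _ hh U hU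
  set V : 𝓞 K := algebraMap (𝓞 k) (𝓞 K) U with hV
  have hV0 : V ≠ 0 := by
    rw [hV, Ne, FaithfulSMul.algebraMap_eq_zero_iff]
    exact hU0
  have h1 := prod_fv V hV0 A (fun w hw => by
    rw [fv_eq_one_iff]
    intro hmem
    apply hw
    rw [hA]
    have h2 : v.asIdeal ^ Fintype.card (ClassGroup (𝓞 k)) ≤
        w.asIdeal.comap (algebraMap (𝓞 k) (𝓞 K)) := by
      rw [← hU, Ideal.span_singleton_le_iff_mem]
      exact hmem
    have hp : (w.asIdeal.comap (algebraMap (𝓞 k) (𝓞 K))).IsPrime := w.isPrime.comap _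
    have h3 : v.asIdeal ≤ w.asIdeal.comap (algebraMap (𝓞 k) (𝓞 K)) := hp.le_of_pow_le h2
    exact (v.isMaximal.eq_of_le hp.ne_top h3).symm)
  have hconst : ∀ w ∈ A, fv w (V : K) = fv Q (V : K) := by
    intro w hw
    obtain ⟨g, hg⟩ := exists_conj hQ ((hA w).1 hw)
    rw [hg]
    congr 1
    exact g.commutes (U : k)
  rw [Finset.prod_congr rfl hconst, Finset.prod_const, norm_ext] at h1
  have h2 : fv v (U : k) = (|((Algebra.norm ℤ U : ℤ) : ℝ)|)⁻¹ := by
    rw [fv_gen v _ hh U hU, Ideal.absNorm_span_singleton, Nat.cast_natAbs, Int.cast_abs]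
  rw [← inv_pow, ← h2] at h1
  have hVU : (V : K) = algebraMap k K (U : k) := rfl
  rw [hVU, hc] at h1
  have hUk : (U : k) ≠ 0 := RingOfIntegers.coe_ne_zero_iff.2 hU0
  have hpos := fv_pos v _ hUk
  have h3 := congrArg Real.log h1
  rw [Real.log_pow, Real.log_pow, Real.log_rpow hpos, ← mul_assoc] at h3
  have h4 : Real.log (fv v (U : k)) ≠ 0 := by
    rw [fv_gen v _ hh U hU, Real.log_inv]
    have := Real.log_pos (show (1 : ℝ) < (Ideal.absNorm (Ideal.span {U}) : ℕ) by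
      exact_mod_cast one_lt_gen v _ hh U hU)
    exact neg_ne_zero.2 this.ne'
  exact mul_right_cancel₀ h4 h3

end Pool.Agent.R405
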