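import Mathlib
import Pool.Agent.H9.Lib.R_seed8.R405.SchF

/-!
The subspace theorem over a number field, linear forms with algebraic coefficients.
-/

set_option autoImplicit false
set_option linter.unusedSectionVars false

open Finset Filter Topology

namespace Pool.Agent.R405

open NumberField IsDedekindDomain Height Module MvPolynomial
open Pool.Agent.W180.OP (Pl av wt nrm le_nrm nrm_pos nrm_nonneg exists_nrm lam lam_eq liou wt_nonneg)

variable {k K : Type} [Field k] [NumberField k] [Field K] [NumberField K] [Algebra k K]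

theorem Good.nrm_ext {v : Pl k} {f : AbsoluteValue K ℝ} (h : Good v f) {n : ℕ} (x : Fin n → k) :
    nrm f (fun j => algebraMap k K (x j)) = nrm (av v) x := by
  unfold nrm
  exact iSup_congr fun j => h.ext _

theorem nrm_rpow (f : AbsoluteValue K ℝ) {g : AbsoluteValue K ℝ} {c : ℝ} (hc : 0 < c)
    (hg : ∀ y, g y = f y ^ c) {n : ℕ} (hn : 1 ≤ n) (x : Fin n → K) :
    nrm g x = nrm f x ^ c := by
  have : Nonempty (Fin n) := ⟨⟨0, hn⟩⟩
  apply le_antisymm
  · refine ciSup_le fun j => ?_
    rw [hg]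
    exact Real.rpow_le_rpow (f.nonneg _) (le_nrm _ _ _) hc.le
  · obtain ⟨j, hj⟩ := exists_nrm f hn x
    rw [← hj, ← hg]
    exact le_nrm g x j

/-- the Liouville inequality for one linear form -/
theorem liou1 {v : Pl k} {f : AbsoluteValue K ℝ} (hf : Good v f) {n : ℕ} (hn : 1 ≤ n)
    (e : ℕ) (G : MvPolynomial (Fin n) K) (hG : G.IsHomogeneous e) :
    ∃ C : ℝ, 0 ≤ C ∧ ∀ x : Fin n → k, x ≠ 0 → eval (fun j => algebraMap k K (x j)) G ≠ 0 →
      lam f e G (fun j => algebraMap k K (x j)) ≤ C * logHeight x + C := by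
  obtain ⟨C, hC0, hC⟩ := liou G e hG
  have hx' : ∀ x : Fin n → k, x ≠ 0 → (fun j => algebraMap k K (x j)) ≠ 0 := by
    intro x hx h
    apply hx
    funext j
    have := congrFun h j
    simpa using this
  have hd0 : (0 : ℝ) ≤ finrank k K := Nat.cast_nonneg _
  rcases v with v | v
  · obtain ⟨w, hw, hfw⟩ := hf
    refine ⟨e * finrank k K + C, by positivity, fun x hx hGx => ?_⟩
    have h1 := hC {Sum.inl w} _ (hx' x hx) hGx
    rw [Finset.sum_singleton, Pool.Agent.Helper259.HtExt.logHeight_ext] at h1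
    have hfe : f = av (Sum.inl w) := by
      ext y
      exact hfw y
    rw [hfe]
    have h2 : (1 : ℝ) ≤ wt (Sum.inl w : Pl K) := by
      show (1 : ℝ) ≤ (w.mult : ℝ)
      exact_mod_cast Nat.one_le_iff_ne_zero.2 w.mult_ne_zero
    have h3 := le_max_right 0 (lam (av (Sum.inl w)) e G (fun j => algebraMap k K (x j)))
    have h4 := le_max_left 0 (lam (av (Sum.inl w)) e G (fun j => algebraMap k K (x j)))
    have h5 := logHeight_nonneg x
    nlinarith [mul_le_mul_of_nonneg_right h2 h4, mul_nonneg hC0 h5]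
  · obtain ⟨Q, c, hQ, hc, h0, hfw⟩ := hf
    refine ⟨c⁻¹ * (e * finrank k K + C), by positivity, fun x hx hGx => ?_⟩
    have h1 := hC {Sum.inr Q} _ (hx' x hx) hGx
    rw [Finset.sum_singleton, Pool.Agent.Helper259.HtExt.logHeight_ext] at h1
    have h2 : wt (Sum.inr Q : Pl K) = 1 := rfl
    rw [h2, one_mul] at h1
    have h3 := le_max_right 0 (lam (av (Sum.inr Q)) e G (fun j => algebraMap k K (x j)))
    have h5 := logHeight_nonneg x
    have hpos : 0 < av (Sum.inr Q) (eval (fun j => algebraMap k K (x j)) G) :=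
      AbsoluteValue.pos _ hGx
    have h6 : lam f e G (fun j => algebraMap k K (x j)) =
        c⁻¹ * lam (av (Sum.inr Q)) e G (fun j => algebraMap k K (x j)) := by
      rw [lam_eq _ _ _ (hx' x hx) hGx, lam_eq _ _ _ (hx' x hx) hGx,
        nrm_rpow (av (Sum.inr Q)) (inv_pos.2 hc) hfw hn, hfw,
        Real.log_rpow (nrm_pos _ (hx' x hx))]
      have h7 : Real.log (Pool.Agent.Y742.SF.fv Q (eval (fun j => algebraMap k K (x j)) G) ^ c⁻¹) =
          c⁻¹ * Real.log (av (Sum.inr Q) (eval (fun j => algebraMap k K (x j)) G)) :=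
        Real.log_rpow hpos _
      rw [h7]
      ring
    rw [h6]
    have h8 : lam (av (Sum.inr Q)) e G (fun j => algebraMap k K (x j)) ≤
        (e * finrank k K + C) * logHeight x + (e * finrank k K + C) := by
      have : 0 ≤ C * logHeight x := mul_nonneg hC0 h5
      have : (0 : ℝ) ≤ e * finrank k K := by positivity
      nlinarith
    calc c⁻¹ * lam (av (Sum.inr Q)) e G (fun j => algebraMap k K (x j)) ≤
        c⁻¹ * ((e * finrank k K + C) * logHeight x + (e * finrank k K + C)) :=
          mul_le_mul_of_nonneg_left h8 (inv_pos.2 hc).le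
      _ = _ := by ring

/-- a linear form as a polynomial -/
noncomputable def lf {n : ℕ} (b : Fin n → K) : MvPolynomial (Fin n) K := ∑ j, C (b j) * X j

theorem lf_hom {n : ℕ} (b : Fin n → K) : (lf b).IsHomogeneous 1 := by
  refine IsHomogeneous.sum _ _ _ fun j _ => ?_
  simpa using (isHomogeneous_C (Fin n) (b j)).mul (isHomogeneous_X K j)

theorem eval_lf {n : ℕ} (b x : Fin n → K) : eval x (lf b) = ∑ j, b j * x j := by
  simp [lf]

/-- **The subspace theorem** over a number field. -/
theorem sch [IsGalois ℚ K] (hi : ∃ z : K, z ^ 2 = -1) {n : ℕ}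
    (hn : 1 ≤ n) (S : Finset (Pl k)) (f : Pl k → AbsoluteValue K ℝ) (hf : ∀ v ∈ S, Good v (f v))
    (B : Pl k → Fin n → Fin n → K) (hdet : ∀ v ∈ S, (Matrix.of (B v)).det ≠ 0)
    (ε : ℝ) (hε : 0 < ε) :
    ∃ (Z : Finset (Fin n → K)) (C : ℝ), (∀ d ∈ Z, d ≠ 0) ∧ ∀ x : Fin n → k,
      (∀ d ∈ Z, ∑ j, d j * algebraMap k K (x j) ≠ 0) →
      ∑ v ∈ S, wt v * ∑ a, (Real.log (nrm (av v) x) -
      Real.log (f v (∑ j, B v a j * algebraMap k K (x j)))) ≤ (n + ε) * logHeight x + C := by
  classical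
  by_contra hcon
  push Not at hcon
  -- enumerate
  have hcK : Countable K := (Module.finBasis ℚ K).equivFun.injective.countable
  have hne : Nonempty {d : Fin n → K // d ≠ 0} := ⟨⟨Pi.single ⟨0, hn⟩ 1, by
    intro h
    have := congrFun h ⟨0, hn⟩
    rw [Pi.single_eq_same] at this
    exact one_ne_zero this⟩⟩
  obtain ⟨e, he⟩ := exists_surjective_nat {d : Fin n → K // d ≠ 0}
  have hch := fun m : ℕ => hcon ((Finset.range (m + 1)).image fun i => (e i).1) m (by
    intro d hd
    obtain ⟨i, -, rfl⟩ := Finset.mem_image.1 hd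
    exact (e i).2)
  choose x hx1 hx2 using hch
  have hind : ∀ d : Fin n → K, d ≠ 0 → ∀ᶠ m in atTop, ∑ j, d j * algebraMap k K (x m j) ≠ 0 := by
    intro d hd
    obtain ⟨m0, hm0⟩ := he ⟨d, hd⟩
    filter_upwards [eventually_ge_atTop m0] with m hm
    refine hx1 m d (Finset.mem_image.2 ⟨m0, Finset.mem_range.2 (by omega), ?_⟩)
    rw [hm0]
  have hx0 : ∀ m, x m ≠ 0 := by
    intro m h
    refine hx1 m (e 0).1 (Finset.mem_image.2 ⟨0, Finset.mem_range.2 (by omega), rfl⟩) ?_
    rw [h]
    simp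
  -- Liouville
  have hli : ∀ v : Pl k, ∀ a : Fin n, ∃ C : ℝ, v ∈ S → 0 ≤ C ∧ ∀ x : Fin n → k, x ≠ 0 →
      ∑ j, B v a j * algebraMap k K (x j) ≠ 0 →
      Real.log (nrm (av v) x) - Real.log (f v (∑ j, B v a j * algebraMap k K (x j))) ≤
        C * logHeight x + C := by
    intro v a
    by_cases hv : v ∈ S
    · obtain ⟨C, hC0, hC⟩ := liou1 (hf v hv) hn 1 (lf (B v a)) (lf_hom _)
      refine ⟨C, fun _ => ⟨hC0, fun x hx hB => ?_⟩⟩
      have h1 := hC x hx (by rw [eval_lf]; exact hB)
      have hx' : (fun j => algebraMap k K (x j)) ≠ 0 := by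
        intro h
        apply hx
        funext j
        have := congrFun h j
        simpa using this
      rw [lam_eq _ _ _ hx' (by rw [eval_lf]; exact hB), (hf v hv).nrm_ext, eval_lf,
        Nat.cast_one, one_mul] at h1
      exact h1
    · exact ⟨0, fun h => absurd h hv⟩
  choose Cl hCl using hli
  set A : ℝ := ∑ v ∈ S, wt v * ∑ a, Cl v a with hA
  have hA0 : 0 ≤ A := Finset.sum_nonneg fun v hv => mul_nonneg (wt_nonneg v)
    (Finset.sum_nonneg fun a _ => (hCl v a hv).1)
  have hup : ∀ᶠ m in atTop, ∑ v ∈ S, wt v * ∑ a, (Real.log (nrm (av v) (x m)) -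
      Real.log (f v (∑ j, B v a j * algebraMap k K (x m j)))) ≤
      A * logHeight (x m) + A := by
    have h1 : ∀ᶠ m in atTop, ∀ i ∈ S ×ˢ (Finset.univ : Finset (Fin n)),
        ∑ j, B i.1 i.2 j * algebraMap k K (x m j) ≠ 0 := by
      refine (Filter.eventually_all_finset _).2 fun i hi' => hind _ ?_
      intro h0
      exact hdet i.1 (Finset.mem_product.1 hi').1
        (Matrix.det_eq_zero_of_row_eq_zero i.2 fun j => congrFun h0 j)
    filter_upwards [h1] with m hm
    have h2 : A * logHeight (x m) + A = ∑ v ∈ S, wt v * ∑ a, (Cl v a * logHeight (x m) + Cl v a) := by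
      rw [hA]
      simp only [Finset.sum_add_distrib, mul_add, ← Finset.sum_mul]
      congr 1
      rw [Finset.sum_mul]
      exact Finset.sum_congr rfl fun v _ => by ring
    rw [h2]
    refine Finset.sum_le_sum fun v hv => mul_le_mul_of_nonneg_left
      (Finset.sum_le_sum fun a _ => ?_) (wt_nonneg v)
    exact (hCl v a hv).2 _ (hx0 m) (hm (v, a) (Finset.mem_product.2 ⟨hv, Finset.mem_univ _⟩))
  have hN : Tendsto (fun m => logHeight (x m)) atTop atTop := by
    have h1 : Tendsto (fun m : ℕ => ((m : ℝ) - (A + 1)) / (A + 1)) atTop atTop := by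
      refine Tendsto.atTop_div_const (by linarith) ?_
      exact tendsto_atTop_add_const_right _ _ tendsto_natCast_atTop_atTop
    refine tendsto_atTop_mono' _ ?_ h1
    filter_upwards [hup] with m hm
    have h2 := hx2 m
    have h3 := logHeight_nonneg (x m)
    have h4 : (0 : ℝ) ≤ (n + ε) * logHeight (x m) := by positivity
    rw [div_le_iff₀ (by linarith)]
    nlinarith
  have hfinal := schF hi atTop hn S f hf B hdet x hN hind ε hε
  obtain ⟨m, hm⟩ := hfinal.exists
  have h2 := hx2 m
  have : (0 : ℝ) ≤ m := Nat.cast_nonneg _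
  linarith

end Pool.Agent.R405
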