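import Mathlib
import Pool.Agent.H9.Lib.R_seed8.R405.SchP
import Pool.Agent.H9.Lib.R_seed8.W180.OP.Ext

/-!
The tangent line at a crossing point.
-/

set_option autoImplicit false
set_option linter.unusedSectionVars false

open Finset

namespace Pool.Agent.R405

open MvPolynomial
open Pool.Agent.W180.OP (nrm le_nrm nrm_pos nrm_nonneg exists_nrm lam lam_eq cs taylor nrm_le
  eval_smul_hom lam_smul euler_aeval grad_bound)

variable {K : Type} [Field K]

/-- a linear form as a polynomial -/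
noncomputable def lff {n : ℕ} (b : Fin n → K) : MvPolynomial (Fin n) K := ∑ j, C (b j) * X j

theorem lff_hom {n : ℕ} (b : Fin n → K) : (lff b).IsHomogeneous 1 := by
  refine IsHomogeneous.sum _ _ _ fun j _ => ?_
  simpa using (isHomogeneous_C (Fin n) (b j)).mul (isHomogeneous_X K j)

theorem eval_lff {n : ℕ} (b x : Fin n → K) : eval x (lff b) = ∑ j, b j * x j := by
  simp [lff]

/-- the gradient -/
noncomputable def tg {n : ℕ} (y : Fin n → K) (F : MvPolynomial (Fin n) K) : Fin n → K :=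
  fun b => eval y (pderiv b F)

theorem tg_self {n d : ℕ} {F : MvPolynomial (Fin n) K} (hF : F.IsHomogeneous d) (y : Fin n → K)
    (hFy : eval y F = 0) : ∑ b, tg y F b * y b = 0 := by
  have h := hF.sum_X_mul_pderiv
  have h2 := congrArg (eval y) h
  simp only [map_sum, map_mul, eval_X, map_nsmul, hFy, smul_zero] at h2
  rw [← h2]
  exact Finset.sum_congr rfl fun b _ => mul_comm _ _

theorem tang1 (f : AbsoluteValue K ℝ) {n : ℕ} {F : MvPolynomial (Fin n) K} {d : ℕ}
    (hF : F.IsHomogeneous d) (y : Fin n → K) (hy : y ≠ 0)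
    (hFy : eval y F = 0) (B0 : ℝ) :
    ∃ B : ℝ, 0 ≤ B ∧ ∀ x : Fin n → K, nrm f x = 1 → eval x F ≠ 0 →
      eval x (lff (tg y F)) ≠ 0 → ∀ c : ℝ, B ≤ c →
      (∀ M : MvPolynomial (Fin n) K, M.IsHomogeneous 1 → eval y M = 0 → eval x M ≠ 0 →
        c ≤ lam f 1 M x + B0 + |Real.log (cs f M)|) →
      min (lam f d F x) (2 * c) ≤ lam f 1 (lff (tg y F)) x + B := by
  classical
  obtain ⟨a, ha⟩ := Function.ne_iff.1 hy
  have hn : 0 < n := Fin.pos a
  have hya : y a ≠ 0 := ha
  have hfya : 0 < f (y a) := f.pos_iff.2 hya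
  set Y := nrm f y with hY
  have hY0 : 0 < Y := nrm_pos f hy
  set M : Fin n → MvPolynomial (Fin n) K := fun b => X b * C (y a) - X a * C (y b) with hM
  have hMh : ∀ b, (M b).IsHomogeneous 1 := by
    intro b
    refine IsHomogeneous.sub ?_ ?_
    · simpa using (isHomogeneous_X K b).mul (isHomogeneous_C (Fin n) (y a))
    · simpa using (isHomogeneous_X K a).mul (isHomogeneous_C (Fin n) (y b))
  have hMe : ∀ b (x : Fin n → K), eval x (M b) = x b * y a - x a * y b := by
    intro b x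
    simp [hM]
  set A : ℝ := ∑ b, |Real.log (cs f (M b))| with hA
  have hAb : ∀ b, |Real.log (cs f (M b))| ≤ A := fun b =>
    Finset.single_le_sum (f := fun b => |Real.log (cs f (M b))|) (fun _ _ => abs_nonneg _)
      (Finset.mem_univ b)
  set C1 : ℝ := Real.exp (B0 + A) / f (y a) with hC1
  have hC10 : 0 < C1 := div_pos (Real.exp_pos _) hfya
  obtain ⟨B1, hB10, hB1⟩ := taylor f F 2 (by norm_num)
  set κ : ℝ := 1 / (2 * Y) with hκ
  have hκ0 : 0 < κ := by positivity
  set C2 : ℝ := (κ ^ (d - 1))⁻¹ * (1 + B1 * C1 ^ 2) with hC2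
  have hC20 : 0 < C2 := by positivity
  refine ⟨|Real.log (2 * C1)| + |Real.log C2|, by positivity, fun x hx hFx hTx c hc hlin => ?_⟩
  have hx0 : x ≠ 0 := by
    rintro rfl
    obtain ⟨j, hj⟩ := exists_nrm f hn (0 : Fin n → K)
    rw [hx, Pi.zero_apply, map_zero] at hj
    exact one_ne_zero hj.symm
  set N : K := x a / y a with hN
  set u : Fin n → K := x - N • y with hu
  have hub : ∀ b, y a * u b = eval x (M b) := by
    intro b
    rw [hMe, hu, Pi.sub_apply, Pi.smul_apply, smul_eq_mul, hN]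
    field_simp
  have hce : 2 * C1 * Real.exp (-c) ≤ 1 := by
    have h1 : Real.log (2 * C1) ≤ c := by
      have := le_abs_self (Real.log (2 * C1))
      have := abs_nonneg (Real.log C2)
      linarith
    have h2 : 2 * C1 ≤ Real.exp c := (Real.log_le_iff_le_exp (by positivity)).1 h1
    rw [Real.exp_neg]
    rw [← div_eq_mul_inv, div_le_one (Real.exp_pos _)]
    exact h2
  have hnu : nrm f u ≤ C1 * Real.exp (-c) := by
    refine nrm_le (by positivity) fun b => ?_
    by_cases h0 : eval x (M b) = 0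
    · have : u b = 0 := by
        have h1 := hub b
        rw [h0] at h1
        exact (mul_eq_zero.1 h1).resolve_left hya
      rw [this, map_zero]
      positivity
    · have h1 := hlin (M b) (hMh b) (by rw [hMe]; ring) h0
      rw [lam_eq f _ _ hx0 h0, hx, Real.log_one, mul_zero, zero_sub] at h1
      have h2 : Real.log (f (eval x (M b))) ≤ (B0 + A) + (-c) := by
        have := hAb b
        linarith
      have h3 := (Real.log_le_iff_le_exp (f.pos_iff.2 h0)).1 h2
      rw [← hub, map_mul, Real.exp_add] at h3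
      rw [hC1, div_mul_eq_mul_div, le_div_iff₀ hfya]
      linarith
  have hnu1 : nrm f u ≤ 1 / 2 := by linarith
  have hzx : N • y = x - u := by
    rw [hu]
    abel
  have hz2 : nrm f (N • y) ≤ 2 := by
    rw [hzx]
    refine nrm_le (by norm_num) fun b => ?_
    have h1 := le_nrm f x b
    have h2 := le_nrm f u b
    have h3 : f (x b - u b) ≤ f (x b) + f (u b) := by
      rw [sub_eq_add_neg]
      refine (f.add_le _ _).trans (le_of_eq ?_)
      rw [f.map_neg]
    rw [Pi.sub_apply]
    linarith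
  have hT := hB1 (N • y) u hz2 (by linarith)
  have e1 : N • y + u = x := by
    rw [hu]
    abel
  have e2 : eval (N • y) F = 0 := by
    rw [eval_smul_hom F hF, hFy, mul_zero]
  have e3 : ∀ b, eval (N • y) (pderiv b F) = N ^ (d - 1) * tg y F b := fun b =>
    eval_smul_hom _ hF.pderiv _ _
  have e4 : ∑ b, u b * eval (N • y) (pderiv b F) = N ^ (d - 1) * ∑ j, tg y F j * x j := by
    simp only [e3]
    have e5 : ∀ b, u b * (N ^ (d - 1) * tg y F b) =
        N ^ (d - 1) * (tg y F b * x b) - N ^ (d - 1) * N * (tg y F b * y b) := by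
      intro b
      rw [hu, Pi.sub_apply, Pi.smul_apply, smul_eq_mul]
      ring
    simp only [e5, Finset.sum_sub_distrib, ← Finset.mul_sum]
    rw [tg_self hF y hFy]
    ring
  rw [e1, e2, e4, sub_zero] at hT
  have hTx' : ∑ j, tg y F j * x j ≠ 0 := by rwa [eval_lff] at hTx
  -- lower bound for `N`
  have hNκ : κ ≤ f N := by
    obtain ⟨j, hj⟩ := exists_nrm f hn x
    rw [hx] at hj
    have h1 : x j = N * y j + u j := by
      rw [hu, Pi.sub_apply, Pi.smul_apply, smul_eq_mul]
      ring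
    have h2 : f (x j) ≤ f N * f (y j) + f (u j) := by
      rw [h1]
      refine (f.add_le _ _).trans (le_of_eq ?_)
      rw [map_mul]
    have h3 : f N * f (y j) ≤ f N * Y := mul_le_mul_of_nonneg_left (le_nrm f y j) (f.nonneg _)
    have h4 := le_nrm f u j
    rw [hκ, div_le_iff₀ (by positivity)]
    linarith
  have hmain : κ ^ (d - 1) * f (∑ j, tg y F j * x j) ≤
      f (eval x F) + B1 * (C1 * Real.exp (-c)) ^ 2 := by
    have h1 : f (N ^ (d - 1) * ∑ j, tg y F j * x j) ≤
        f (eval x F) + f (eval x F - N ^ (d - 1) * ∑ j, tg y F j * x j) := by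
      have h2 : N ^ (d - 1) * ∑ j, tg y F j * x j =
        eval x F + -(eval x F - N ^ (d - 1) * ∑ j, tg y F j * x j) := by ring
      conv_lhs => rw [h2]
      refine (f.add_le _ _).trans (le_of_eq ?_)
      rw [f.map_neg]
    have h3 : B1 * nrm f u ^ 2 ≤ B1 * (C1 * Real.exp (-c)) ^ 2 :=
      mul_le_mul_of_nonneg_left (pow_le_pow_left₀ (nrm_nonneg _ _) hnu 2) hB10
    have h4 : κ ^ (d - 1) * f (∑ j, tg y F j * x j) ≤ f (N ^ (d - 1) * ∑ j, tg y F j * x j) := by
      rw [map_mul, map_pow]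
      exact mul_le_mul_of_nonneg_right (pow_le_pow_left₀ hκ0.le hNκ _) (f.nonneg _)
    linarith
  have hexp : Real.exp (-c) ^ 2 = Real.exp (-(2 * c)) := by
    rw [← Real.exp_nat_mul]
    congr 1
    push_cast
    ring
  set E : ℝ := Real.exp (-(min (lam f d F x) (2 * c))) with hE
  have hE1 : f (eval x F) ≤ E := by
    rw [hE, lam_eq f _ _ hx0 hFx, hx, Real.log_one, mul_zero, zero_sub,
      ← Real.log_le_iff_le_exp (f.pos_iff.2 hFx)]
    have := min_le_left (-Real.log (f (eval x F))) (2 * c)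
    linarith
  have hE2 : Real.exp (-(2 * c)) ≤ E := by
    rw [hE]
    apply Real.exp_le_exp.2
    have := min_le_right (lam f d F x) (2 * c)
    linarith
  have hfin : f (∑ j, tg y F j * x j) ≤ C2 * E := by
    rw [mul_pow, hexp] at hmain
    have h1 : κ ^ (d - 1) * f (∑ j, tg y F j * x j) ≤ (1 + B1 * C1 ^ 2) * E := by
      have h2 : B1 * (C1 ^ 2 * Real.exp (-(2 * c))) ≤ B1 * (C1 ^ 2 * E) :=
        mul_le_mul_of_nonneg_left (mul_le_mul_of_nonneg_left hE2 (by positivity)) hB10
      linarith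
    rw [hC2, mul_assoc, inv_mul_eq_div, le_div_iff₀ (pow_pos hκ0 _)]
    linarith
  have hlog := Real.log_le_log (f.pos_iff.2 hTx') hfin
  rw [Real.log_mul hC20.ne' (Real.exp_pos _).ne', Real.log_exp] at hlog
  rw [lam_eq f 1 _ hx0 hTx, hx, Real.log_one, mul_zero, zero_sub, eval_lff]
  have := le_abs_self (Real.log C2)
  have := abs_nonneg (Real.log (2 * C1))
  linarith

/-- the tangent line at a point -/
theorem tang (f : AbsoluteValue K ℝ) {n : ℕ} {F : MvPolynomial (Fin n) K} {d : ℕ}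
    (hF : F.IsHomogeneous d) (y : Fin n → K) (hy : y ≠ 0)
    (hFy : eval y F = 0) (B0 : ℝ) :
    ∃ B : ℝ, 0 ≤ B ∧ ∀ x : Fin n → K, x ≠ 0 → eval x F ≠ 0 →
      eval x (lff (tg y F)) ≠ 0 → ∀ c : ℝ, B ≤ c →
      (∀ M : MvPolynomial (Fin n) K, M.IsHomogeneous 1 → eval y M = 0 → eval x M ≠ 0 →
        c ≤ lam f 1 M x + B0 + |Real.log (cs f M)|) →
      min (lam f d F x) (2 * c) ≤ lam f 1 (lff (tg y F)) x + B := by
  obtain ⟨B, hB0, hB⟩ := tang1 f hF y hy hFy B0
  refine ⟨B, hB0, fun x hx hFx hTx c hc hlin => ?_⟩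
  have hn : 0 < n := by
    obtain ⟨j, _⟩ := Function.ne_iff.1 hx
    exact Fin.pos j
  obtain ⟨m, hm⟩ := exists_nrm f hn x
  have hnx := nrm_pos f hx
  have hxm : x m ≠ 0 := by
    intro h
    rw [h, map_zero] at hm
    exact hnx.ne hm
  have hc0 : (x m)⁻¹ ≠ 0 := inv_ne_zero hxm
  have hnz : nrm f ((x m)⁻¹ • x) = 1 := by
    apply le_antisymm
    · refine nrm_le zero_le_one fun j => ?_
      rw [Pi.smul_apply, smul_eq_mul, map_mul, map_inv₀, hm, inv_mul_le_iff₀ hnx, mul_one]
      exact le_nrm f x j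
    · have := le_nrm f ((x m)⁻¹ • x) m
      rwa [Pi.smul_apply, smul_eq_mul, inv_mul_cancel₀ hxm, map_one] at this
  have hev : ∀ (Q : MvPolynomial (Fin n) K) (r : ℕ), Q.IsHomogeneous r →
      (eval ((x m)⁻¹ • x) Q ≠ 0 ↔ eval x Q ≠ 0) := by
    intro Q r hQ
    rw [eval_smul_hom Q hQ]
    constructor
    · exact fun h => right_ne_zero_of_mul h
    · exact fun h => mul_ne_zero (pow_ne_zero _ hc0) h
  have h1 := hB ((x m)⁻¹ • x) hnz ((hev F d hF).2 hFx) ((hev _ 1 (lff_hom _)).2 hTx) c hc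
    (by
      intro M hM hyM hxM
      have h2 := (hev M 1 hM).1 hxM
      rw [lam_smul f M hM _ hc0 x hx h2]
      exact hlin M hM hyM h2)
  rwa [lam_smul f F hF _ hc0 x hx hFx, lam_smul f _ (lff_hom _) _ hc0 x hx hTx] at h1

theorem det_grad (f : AbsoluteValue K ℝ) (g g' y : Fin 3 → K) (a : Fin 3) (hya : y a ≠ 0)
    (hli : LinearIndependent K ![g, g']) (hg : ∑ b, y b * g b = 0) (hg' : ∑ b, y b * g' b = 0) :
    (Matrix.of ![g, g', Pi.single a 1]).det ≠ 0 := by
  classical
  intro h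
  obtain ⟨w, hw0, hw⟩ := Matrix.exists_mulVec_eq_zero_iff.2 h
  obtain ⟨B, _, hB⟩ := grad_bound f g g' y a hya hli hg hg'
  have h0 := congrFun hw 0
  have h1 := congrFun hw 1
  have h2 := congrFun hw 2
  simp only [Matrix.mulVec, dotProduct, Matrix.of_apply, Pi.zero_apply] at h0 h1 h2
  have e0 : ∑ b, w b * g b = 0 := by
    rw [← h0]
    exact Finset.sum_congr rfl fun b _ => mul_comm _ _
  have e1 : ∑ b, w b * g' b = 0 := by
    rw [← h1]
    exact Finset.sum_congr rfl fun b _ => mul_comm _ _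
  have e2 : w a = 0 := by
    have : ∑ i, (Pi.single a (1 : K) : Fin 3 → K) i * w i = w a := by
      rw [Finset.sum_eq_single a]
      · rw [Pi.single_eq_same, one_mul]
      · intro b _ hb
        rw [Pi.single_eq_of_ne hb, zero_mul]
      · intro h
        exact absurd (Finset.mem_univ _) h
    rw [← this]
    exact h2
  have h3 := hB w e2
  rw [e0, e1, map_zero, max_self, mul_zero] at h3
  exact absurd (nrm_pos f hw0) (not_lt.2 h3)

end Pool.Agent.R405
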