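import Mathlib
import Pool.Agent.H9.Lib.R_seed8.R405.Tang
import Pool.Agent.H9.Lib.R_seed8.W180.OP.Fin1

/-!
Crossing points are algebraic.
-/

set_option autoImplicit false
set_option linter.unusedSectionVars false

open Finset

namespace Pool.Agent.R405

open MvPolynomial
open Pool.Agent.W180.OP (SNC bc bc_hom eval_bc finite_common eval_smul_hom)

theorem deriv_aeval {K E M : Type} [Field K] [Field E] [Algebra K E] [AddCommGroup M] [Module K M]
    [Module E M] [IsScalarTower K E M] (D : Derivation K E M) {n : ℕ}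
    (F : MvPolynomial (Fin n) K) (z : Fin n → E) :
    D (aeval z F) = ∑ b, aeval z (pderiv b F) • D (z b) := by
  induction F using MvPolynomial.induction_on with
  | C a => simp
  | add p q hp hq =>
    simp only [map_add, hp, hq, add_smul, Finset.sum_add_distrib]
  | mul_X p i hp =>
    rw [map_mul, aeval_X, Derivation.leibniz, hp]
    have h : ∀ b, aeval z (pderiv b (p * X i)) • D (z b) =
        z i • (aeval z (pderiv b p) • D (z b)) + (if b = i then aeval z p • D (z b) else 0) := by
      intro b
      rw [Derivation.leibniz, smul_eq_mul, smul_eq_mul, map_add, map_mul, map_mul, aeval_X, add_smul]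
      by_cases hb : b = i
      · subst hb
        rw [pderiv_X_self, if_pos rfl, map_one, mul_one, smul_smul, add_comm]
      · rw [pderiv_X_of_ne (Ne.symm hb), if_neg hb, map_zero, mul_zero, zero_smul, add_zero,
          zero_add, smul_smul]
    simp only [h, Finset.sum_add_distrib, Finset.sum_ite_eq', Finset.mem_univ, if_true,
      ← Finset.smul_sum]
    rw [add_comm]

theorem crossing_alg {K : Type} [Field K] [CharZero K] {q : ℕ}
    {F : Fin q → MvPolynomial (Fin 3) K} {d : Fin q → ℕ} (hF : ∀ i, (F i).IsHomogeneous (d i))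
    (hS : SNC F) {i j : Fin q} (hij : i ≠ j) (L : Type) [Field L] [Algebra K L] (x : Fin 3 → L)
    (hi : aeval x (F i) = 0) (hj : aeval x (F j) = 0) (a : Fin 3) (ha : x a ≠ 0) (b : Fin 3) :
    IsAlgebraic K (x b / x a) := by
  classical
  set z : Fin 3 → L := fun b => x b / x a with hz
  let E : IntermediateField K L := IntermediateField.adjoin K (Set.range z)
  let z' : Fin 3 → E := fun b => ⟨z b, IntermediateField.subset_adjoin K _ ⟨b, rfl⟩⟩
  have hz'a : z' a = 1 := by
    apply Subtype.ext
    show x a / x a = 1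
    exact div_self ha
  have hz0 : z' ≠ 0 := by
    intro h
    have := congrFun h a
    rw [hz'a] at this
    exact one_ne_zero this
  have hev : ∀ l, aeval x (F l) = 0 → aeval z' (F l) = 0 := by
    intro l hl
    have h1 : z = (x a)⁻¹ • x := by
      funext b
      rw [Pi.smul_apply, smul_eq_mul]
      exact div_eq_inv_mul _ _
    have h2 : aeval z (F l) = 0 := by
      rw [h1, Pool.Agent.W180.OP.aeval_smul_hom _ (hF l), hl, mul_zero]
    have h3 : algebraMap E L (aeval z' (F l)) = aeval z (F l) := by
      rw [← aeval_algebraMap_apply]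
      rfl
    rw [h2] at h3
    exact (map_eq_zero _).1 h3
  have hpair := (hS.bc E).pair hij hz0 (by rw [eval_bc]; exact hev i hi)
    (by rw [eval_bc]; exact hev j hj)
  have hdet := det_grad (AbsoluteValue.trivial (R := E) (S := ℝ)) _ _ z' a (by rw [hz'a]; exact one_ne_zero)
    hpair (by
      rw [← tg_self (bc_hom (hF i)) z' (by rw [eval_bc]; exact hev i hi)]
      exact Finset.sum_congr rfl fun b _ => mul_comm _ _) (by
      rw [← tg_self (bc_hom (hF j)) z' (by rw [eval_bc]; exact hev j hj)]
      exact Finset.sum_congr rfl fun b _ => mul_comm _ _)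
  set A : Matrix (Fin 3) (Fin 3) E := Matrix.of ![fun b => eval z' (pderiv b (bc E (F i))),
    fun b => eval z' (pderiv b (bc E (F j))), Pi.single a 1] with hA
  -- the differentials vanish
  have hess : Algebra.EssFiniteType K E := by
    rw [IntermediateField.essFiniteType_iff]
    exact IntermediateField.fg_adjoin_of_finite (Set.finite_range z)
  have hD : ∀ b, KaehlerDifferential.D K E (z' b) = 0 := by
    set w : Fin 3 → Ω[E⁄K] := fun b => KaehlerDifferential.D K E (z' b) with hw
    have hrow : ∀ r, ∑ c, A r c • w c = 0 := by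
      intro r
      fin_cases r
      · have h1 := deriv_aeval (KaehlerDifferential.D K E) (F i) z'
        rw [hev i hi, map_zero] at h1
        rw [h1]
        refine Finset.sum_congr rfl fun b _ => ?_
        show eval z' (pderiv b (bc E (F i))) • _ = _
        rw [bc, pderiv_map, ← bc, eval_bc]
      · have h1 := deriv_aeval (KaehlerDifferential.D K E) (F j) z'
        rw [hev j hj, map_zero] at h1
        rw [h1]
        refine Finset.sum_congr rfl fun b _ => ?_
        show eval z' (pderiv b (bc E (F j))) • _ = _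
        rw [bc, pderiv_map, ← bc, eval_bc]
      · show ∑ c, (Pi.single a (1 : E) : Fin 3 → E) c • w c = 0
        rw [Finset.sum_eq_single a]
        · rw [hw]
          show _ • KaehlerDifferential.D K E (z' a) = 0
          rw [hz'a, Derivation.map_one_eq_zero, smul_zero]
        · intro b _ hb
          rw [Pi.single_eq_of_ne hb, zero_smul]
        · intro h
          exact absurd (Finset.mem_univ _) h
    intro b
    have h1 : A.det • w b = ∑ r, A.adjugate b r • ∑ c, A r c • w c := by
      have h2 : ∀ c, (A.adjugate * A) b c = A.det * (1 : Matrix (Fin 3) (Fin 3) E) b c := by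
        intro c
        rw [Matrix.adjugate_mul]
        rfl
      have h3 : ∑ r, A.adjugate b r • ∑ c, A r c • w c = ∑ c, ((A.adjugate * A) b c) • w c := by
        simp only [Finset.smul_sum, smul_smul, Matrix.mul_apply, Finset.sum_smul]
        rw [Finset.sum_comm]
      rw [h3]
      simp only [h2]
      rw [Finset.sum_eq_single b]
      · rw [Matrix.one_apply_eq, mul_one]
      · intro c _ hc
        rw [Matrix.one_apply_ne (Ne.symm hc), mul_zero, zero_smul]
      · intro h
        exact absurd (Finset.mem_univ _) h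
    simp only [hrow, smul_zero, Finset.sum_const_zero] at h1
    exact (smul_eq_zero.1 h1).resolve_left hdet
  have hD' : ∀ y : E, KaehlerDifferential.D K E y = 0 := by
    intro y
    have h1 : ∀ (t : L) (ht : t ∈ IntermediateField.adjoin K (Set.range z)),
        KaehlerDifferential.D K E ⟨t, ht⟩ = 0 := by
      intro t ht
      induction ht using IntermediateField.adjoin_induction with
      | mem t ht =>
        obtain ⟨b, rfl⟩ := ht
        exact hD b
      | algebraMap t => exact Derivation.map_algebraMap _ t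
      | add s t hs ht h1 h2 =>
        have : (⟨s + t, add_mem hs ht⟩ : E) = ⟨s, hs⟩ + ⟨t, ht⟩ := rfl
        rw [this, map_add, h1, h2, add_zero]
      | inv t ht h1 =>
        have : (⟨t⁻¹, inv_mem ht⟩ : E) = (⟨t, ht⟩ : E)⁻¹ := rfl
        rw [this, Derivation.leibniz_inv, h1, smul_zero]
      | mul s t hs ht h1 h2 =>
        have : (⟨s * t, mul_mem hs ht⟩ : E) = ⟨s, hs⟩ * ⟨t, ht⟩ := rfl
        rw [this, Derivation.leibniz, h1, h2, smul_zero, smul_zero, add_zero]
    exact h1 y.1 y.2
  have hsub : Subsingleton (Ω[E⁄K]) := by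
    have h1 := KaehlerDifferential.span_range_derivation K E
    have h2 : Set.range (KaehlerDifferential.D K E) ⊆ ((⊥ : Submodule E (Ω[E⁄K])) : Set _) := by
      rintro _ ⟨y, rfl⟩
      rw [SetLike.mem_coe, Submodule.mem_bot]
      exact hD' y
    rw [← Submodule.span_le, h1] at h2
    have h3 : ∀ m : Ω[E⁄K], m = 0 := fun m => (Submodule.mem_bot E).1 (h2 Submodule.mem_top)
    exact ⟨fun m m' => (h3 m).trans (h3 m').symm⟩
  have hun : Algebra.FormallyUnramified K E := ⟨hsub⟩
  have hsep := (Algebra.FormallyUnramified.iff_isSeparable K E).1 hun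
  have halg : Algebra.IsAlgebraic K E := inferInstance
  have := halg.isAlgebraic (z' b)
  exact (isAlgebraic_algebraMap_iff (algebraMap E L).injective).2 this

theorem transfer {K1 Ω : Type} [Field K1] [Field Ω] [Algebra K1 Ω] [Algebra.IsAlgebraic K1 Ω]
    (F G : MvPolynomial (Fin 3) K1) (T : Finset (Fin 3 → Ω)) (hT0 : ∀ y ∈ T, y ≠ 0)
    (hT : ∀ (L : Type) [Field L] [Algebra Ω L] (x : Fin 3 → L), x ≠ 0 → aeval x (bc Ω F) = 0 →
        aeval x (bc Ω G) = 0 → ∃ y ∈ T, ∃ c : L, x = c • fun b => algebraMap Ω L (y b))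
    (hmem : ∀ y ∈ T, ∀ b, ∃ z : K1, algebraMap K1 Ω z = y b)
    (L : Type) [Field L] [Algebra K1 L] (x : Fin 3 → L) (hx : x ≠ 0) (hF : aeval x F = 0)
    (hG : aeval x G = 0) :
    ∃ y ∈ T, ∃ z : Fin 3 → K1, (∀ b, algebraMap K1 Ω (z b) = y b) ∧
      ∃ c : L, x = c • fun b => algebraMap K1 L (z b) := by
  classical
  let L' := AlgebraicClosure L
  let σ : Ω →ₐ[K1] L' := IsAlgClosed.lift
  let _ : Algebra Ω L' := σ.toRingHom.toAlgebra
  have hσ : ∀ y : K1, algebraMap Ω L' (algebraMap K1 Ω y) = algebraMap L L' (algebraMap K1 L y) :=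
    fun y => (σ.commutes y).trans (IsScalarTower.algebraMap_apply K1 L L' y)
  have hev : ∀ P : MvPolynomial (Fin 3) K1, aeval x P = 0 →
      aeval (fun b => algebraMap L L' (x b)) (bc Ω P) = 0 := by
    intro P hP
    have h1 : aeval (fun b => algebraMap L L' (x b)) P = 0 := by
      have h2 := aeval_algebraMap_apply L' x P
      rw [hP, map_zero] at h2
      exact h2
    rw [← h1]
    rw [aeval_def, aeval_def, bc, eval₂_map]
    congr 1
    ext t
    exact σ.commutes t
  have hx' : (fun b => algebraMap L L' (x b)) ≠ 0 := by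
    intro h
    apply hx
    funext b
    have := congrFun h b
    simpa using this
  obtain ⟨y, hy, c, hc⟩ := hT L' _ hx' (hev F hF) (hev G hG)
  obtain ⟨a, ha⟩ := Function.ne_iff.1 (hT0 y hy)
  choose z hz using hmem y hy
  have hza : z a ≠ 0 := by
    intro h
    have h1 := hz a
    rw [h, map_zero] at h1
    exact ha h1.symm
  refine ⟨y, hy, z, hz, x a / algebraMap K1 L (z a), ?_⟩
  have hc' : ∀ b, algebraMap L L' (x b) = c * algebraMap L L' (algebraMap K1 L (z b)) := by
    intro b
    have h1 := congrFun hc b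
    rw [Pi.smul_apply, smul_eq_mul] at h1
    rw [h1, ← hσ, hz]
  funext b
  rw [Pi.smul_apply, smul_eq_mul]
  apply (algebraMap L L').injective
  have h0 : algebraMap L L' (algebraMap K1 L (z a)) ≠ 0 := by
    rw [Ne, map_eq_zero, map_eq_zero]
    exact hza
  rw [map_mul, map_div₀, hc' b, hc' a, mul_div_assoc, div_self h0, mul_one]

/-- over a finite extension all crossing points are rational -/
theorem exists_cross {K : Type} [Field K] [CharZero K] {q : ℕ}
    (F : Fin q → MvPolynomial (Fin 3) K) (d : Fin q → ℕ) (hF : ∀ i, (F i).IsHomogeneous (d i))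
    (hS : SNC F) :
    ∃ (K1 : IntermediateField K (AlgebraicClosure K)), FiniteDimensional K K1 ∧
      ∃ P : Finset (Fin 3 → K1), (∀ y ∈ P, y ≠ 0) ∧
      ∀ i j, i ≠ j → ∀ (L : Type) [Field L] [Algebra K1 L] (x : Fin 3 → L), x ≠ 0 →
        aeval x (bc K1 (F i)) = 0 → aeval x (bc K1 (F j)) = 0 →
        ∃ y ∈ P, ∃ c : L, x = c • fun b => algebraMap K1 L (y b) := by
  classical
  let Ω := AlgebraicClosure K
  have hT : ∀ i j : Fin q, ∃ T : Finset (Fin 3 → Ω), i ≠ j → (∀ y ∈ T, y ≠ 0) ∧
      ∀ (L : Type) [Field L] [Algebra Ω L] (x : Fin 3 → L), x ≠ 0 → aeval x (bc Ω (F i)) = 0 →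
        aeval x (bc Ω (F j)) = 0 → ∃ y ∈ T, ∃ c : L, x = c • fun b => algebraMap Ω L (y b) := by
    intro i j
    by_cases hij : i = j
    · exact ⟨∅, fun h => absurd hij h⟩
    · obtain ⟨T, h1, h2⟩ := finite_common (bc Ω (F i)) (bc Ω (F j)) (bc_hom (hF i)) (bc_hom (hF j))
        (by
          intro L _ _ x hx hi hj
          obtain ⟨a, ha⟩ := Function.ne_iff.1 hx
          have ha' : x a ≠ 0 := ha
          have halg := crossing_alg (fun i => bc_hom (L := Ω) (hF i)) (hS.bc Ω) hij L x hi hj a ha'
          have hmem : ∀ b, ∃ y : Ω, algebraMap Ω L y = x b / x a := by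
            intro b
            have hint := (halg b).isIntegral
            exact minpoly.mem_range_of_degree_eq_one Ω _
              (IsAlgClosed.degree_eq_one_of_irreducible Ω (minpoly.irreducible hint))
          choose y hy using hmem
          refine ⟨y, x a, ?_⟩
          funext b
          rw [Pi.smul_apply, smul_eq_mul, hy, mul_div_cancel₀ _ ha'])
      exact ⟨T, fun _ => ⟨fun y hy => (h1 y hy).1, h2⟩⟩
  choose T hT using hT
  set T' : Finset (Fin 3 → Ω) := Finset.univ.biUnion fun t : Fin q × Fin q =>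
    if t.1 = t.2 then ∅ else T t.1 t.2 with hT'
  have hT'0 : ∀ y ∈ T', y ≠ 0 := by
    intro y hy
    obtain ⟨t, -, ht⟩ := Finset.mem_biUnion.1 hy
    by_cases h : t.1 = t.2
    · rw [if_pos h] at ht
      exact absurd ht (Finset.notMem_empty _)
    · rw [if_neg h] at ht
      exact (hT t.1 t.2 h).1 y ht
  set s : Set Ω := ↑(T'.biUnion fun y => Finset.univ.image y) with hs
  have hsfin : s.Finite := Finset.finite_toSet _
  have := hsfin.to_subtype
  set K1 : IntermediateField K Ω := IntermediateField.adjoin K s with hK1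
  have hfd : FiniteDimensional K K1 :=
    IntermediateField.finiteDimensional_adjoin fun t _ => Algebra.IsIntegral.isIntegral t
  have hmem : ∀ y ∈ T', ∀ b, y b ∈ K1 := by
    intro y hy b
    apply IntermediateField.subset_adjoin
    rw [hs, Finset.mem_coe, Finset.mem_biUnion]
    exact ⟨y, hy, Finset.mem_image_of_mem _ (Finset.mem_univ b)⟩
  refine ⟨K1, hfd, T'.attach.image fun y => fun b => (⟨y.1 b, hmem y.1 y.2 b⟩ : K1), ?_, ?_⟩
  · intro y hy h0
    obtain ⟨t, -, rfl⟩ := Finset.mem_image.1 hy
    apply hT'0 t.1 t.2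
    funext b
    exact congrArg Subtype.val (congrFun h0 b)
  · intro i j hij L _ _ x hx hi hj
    have hij2 := (hT i j hij).2
    have halg : Algebra.IsAlgebraic K1 Ω := Algebra.IsAlgebraic.tower_top (K := K) K1
    have hTT : ∀ y ∈ T i j, y ∈ T' := by
      intro y hy
      refine Finset.mem_biUnion.2 ⟨(i, j), Finset.mem_univ _, ?_⟩
      show y ∈ if i = j then ∅ else T i j
      rw [if_neg hij]
      exact hy
    have hbc : ∀ l, bc Ω (bc K1 (F l)) = bc Ω (F l) := by
      intro l
      rw [bc, bc, bc, MvPolynomial.map_map]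
      rfl
    obtain ⟨y, hy, z, hz, c, hc⟩ := transfer (bc K1 (F i)) (bc K1 (F j)) (T i j)
      (hT i j hij).1 (by rw [hbc, hbc]; exact hij2)
      (fun y hy b => ⟨⟨y b, hmem y (hTT y hy) b⟩, rfl⟩) L x hx hi hj
    refine ⟨z, Finset.mem_image.2 ⟨⟨y, hTT y hy⟩, Finset.mem_attach _ _, ?_⟩, c, hc⟩
    funext b
    apply Subtype.ext
    exact (hz b).symm

end Pool.Agent.R405
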