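import Mathlib
import Pool.Agent.H9.Lib.R_seed8.R405.Tor
import Pool.Agent.H9.Lib.R_seed8.R405.Tang

/-!
Log discrepancies of monomial valuations.
-/

set_option autoImplicit false
set_option linter.unusedSectionVars false

open Finset

namespace Pool.Agent.R405

open MvPolynomial

/-- valuations of the function field -/
def IsPlaceV {k : Type} [Field k] {n : ℕ} (w : Valuation (MvPolynomial (Fin n) k) NNReal) : Prop :=
  (∀ c : k, c ≠ 0 → w (C c) = 1) ∧ (∀ i, w (X i) ≤ 1) ∧ (∃ i, w (X i) = 1) ∧
    ∀ P : MvPolynomial (Fin n) k, P ≠ 0 → w P ≠ 0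

/-- bound for the norm of the canonical sheaf -/
def LogB {k : Type} [Field k] {n : ℕ} (w : Valuation (MvPolynomial (Fin n) k) NNReal)
    (r : NNReal) : Prop :=
  ∃ (T e : ℕ) (q : MvPolynomial (Fin n) k) (h : Fin T → MvPolynomial (Fin n) k)
    (p : Fin T → Fin n → MvPolynomial (Fin n) k),
    q.IsHomogeneous e ∧ q ≠ 0 ∧
    (∀ s, (h s).IsHomogeneous (e + n) ∧ w (h s) ≤ r * w q) ∧
    (∀ s j, (∃ d, (p s j).IsHomogeneous d) ∧ p s j ≠ 0) ∧
    (1 : FractionRing (MvPolynomial (Fin n) k)) =
      ∑ s, algebraMap _ (FractionRing (MvPolynomial (Fin n) k)) (h s) / algebraMap _ _ q *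
        (Matrix.of fun i j => algebraMap _ (FractionRing (MvPolynomial (Fin n) k))
          (pderiv i (p s j)) / algebraMap _ _ (p s j)).det

variable {k K : Type} [Field k] [Field K] [Algebra k K] {n : ℕ}

/-- substitution of linear forms -/
noncomputable def sub (k : Type) {K : Type} [Field k] [Field K] [Algebra k K] {n : ℕ}
    (B' : Matrix (Fin n) (Fin n) K) : MvPolynomial (Fin n) k →+* MvPolynomial (Fin n) K :=
  eval₂Hom ((C : K →+* MvPolynomial (Fin n) K).comp (algebraMap k K)) (fun j => lff (B' j))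

theorem sub_C (B' : Matrix (Fin n) (Fin n) K) (c : k) : sub k B' (C c) = C (algebraMap k K c) := by
  simp [sub]

theorem sub_X (B' : Matrix (Fin n) (Fin n) K) (j : Fin n) : sub k B' (X j) = lff (B' j) := by
  simp [sub]

theorem pderiv_lff (b : Fin n → K) (i : Fin n) : pderiv i (lff b) = C (b i) := by
  classical
  unfold lff
  rw [map_sum, Finset.sum_eq_single i]
  · rw [Derivation.leibniz, pderiv_X_self, pderiv_C, smul_zero, add_zero, smul_eq_mul, mul_one]
  · intro j _ hj
    rw [Derivation.leibniz, pderiv_X_of_ne hj, pderiv_C, smul_zero, smul_zero, add_zero]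
  · intro h
    exact absurd (Finset.mem_univ _) h

theorem pderiv_sub (B' : Matrix (Fin n) (Fin n) K) (P : MvPolynomial (Fin n) k) (i : Fin n) :
    pderiv i (sub k B' P) = ∑ j, C (B' j i) * sub k B' (pderiv j P) := by
  classical
  induction P using MvPolynomial.induction_on with
  | C a =>
    rw [sub_C, pderiv_C]
    simp
  | add p q hp hq =>
    simp only [map_add, hp, hq, mul_add, Finset.sum_add_distrib]
  | mul_X p l hp =>
    rw [map_mul, sub_X, Derivation.leibniz, hp, pderiv_lff, smul_eq_mul, smul_eq_mul,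
      Finset.mul_sum]
    have h : ∀ j, C (B' j i) * sub k B' (pderiv j (p * X l)) =
        lff (B' l) * (C (B' j i) * sub k B' (pderiv j p)) +
          (if j = l then sub k B' p * C (B' l i) else 0) := by
      intro j
      rw [Derivation.leibniz, smul_eq_mul, smul_eq_mul, map_add, map_mul, map_mul, sub_X]
      by_cases hj : j = l
      · subst hj
        rw [pderiv_X_self, if_pos rfl, map_one]
        ring
      · rw [pderiv_X_of_ne (Ne.symm hj), if_neg hj, map_zero]
        ring
    simp only [h, Finset.sum_add_distrib, Finset.sum_ite_eq', Finset.mem_univ, if_true]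
    ring

/-- the value of a substituted polynomial -/
theorem eval_sub (B B' : Matrix (Fin n) (Fin n) K) (hB : B' * B = 1) (P : MvPolynomial (Fin n) k)
    (x : Fin n → K) : eval (B.mulVec x) (sub k B' P) = aeval x P := by
  have h1 : (eval (B.mulVec x)).comp (sub k B') = (aeval x : MvPolynomial (Fin n) k →ₐ[k] K) := by
    apply MvPolynomial.ringHom_ext
    · intro c
      simp only [RingHom.comp_apply, RingHom.coe_coe]
      rw [sub_C, eval_C, aeval_C]
    · intro j
      simp only [RingHom.comp_apply, RingHom.coe_coe, aeval_X]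
      rw [sub_X, eval_lff]
      have h2 : B'.mulVec (B.mulVec x) j = x j := by
        rw [Matrix.mulVec_mulVec, hB, Matrix.one_mulVec]
      exact h2
  exact RingHom.congr_fun h1 P

theorem sub_injective (B B' : Matrix (Fin n) (Fin n) K) (hB2 : B' * B = 1) :
    Function.Injective (sub k B') := by
  classical
  -- the inverse substitution
  let back : MvPolynomial (Fin n) K →+* MvPolynomial (Fin n) K := sub K B
  have h1 : back.comp (sub k B') = (MvPolynomial.map (algebraMap k K)) := by
    apply MvPolynomial.ringHom_ext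
    · intro c
      simp only [RingHom.comp_apply, back]
      rw [sub_C, sub_C, map_C]
      rfl
    · intro j
      simp only [RingHom.comp_apply, back]
      rw [sub_X, map_X]
      unfold lff
      rw [map_sum]
      have h2 : ∀ i, sub K B (C (B' j i) * X i) = ∑ l, C (B' j i * B i l) * X l := by
        intro i
        rw [map_mul, sub_C, sub_X, lff, Finset.mul_sum]
        refine Finset.sum_congr rfl fun l _ => ?_
        rw [C_mul, mul_assoc]
        rfl
      simp only [h2]
      rw [Finset.sum_comm]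
      have h3 : ∀ l, ∑ i, C (B' j i * B i l) * (X l : MvPolynomial (Fin n) K) =
          C ((B' * B) j l) * X l := by
        intro l
        rw [Matrix.mul_apply, map_sum, Finset.sum_mul]
      simp only [h3, hB2]
      rw [Finset.sum_eq_single j]
      · rw [Matrix.one_apply_eq, C_1, one_mul]
      · intro l _ hl
        rw [Matrix.one_apply_ne (Ne.symm hl), C_0, zero_mul]
      · intro h
        exact absurd (Finset.mem_univ _) h
  intro P Q h
  apply MvPolynomial.map_injective _ (algebraMap k K).injective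
  rw [← h1]
  simp only [RingHom.comp_apply]
  rw [h]

/-- the norm of the canonical sheaf at a monomial valuation -/
theorem tor_disc {ρ : Fin n → NNReal} (hρ : ∀ i, 0 < ρ i) (B B' : Matrix (Fin n) (Fin n) K)
    (hB : B * B' = 1) (hB2 : B' * B = 1) (r : NNReal)
    (hL : LogB ((mV ρ hρ).comap (sub k B')) r) : ∏ i, ρ i ≤ r := by
  classical
  obtain ⟨T, e, q, h, p, -, hq0, hh, hp, hid⟩ := hL
  set Φ := sub k B' with hΦ
  have hΦinj : Function.Injective Φ := sub_injective B B' hB2
  -- the polynomial identity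
  have hinj : Function.Injective (algebraMap (MvPolynomial (Fin n) k) (FractionRing (MvPolynomial (Fin n) k))) :=
    IsFractionRing.injective _ _
  have hq0' : algebraMap (MvPolynomial (Fin n) k) (FractionRing (MvPolynomial (Fin n) k)) q ≠ 0 := by
    rw [Ne, FaithfulSMul.algebraMap_eq_zero_iff]
    exact hq0
  have hp0' : ∀ s j, algebraMap (MvPolynomial (Fin n) k) (FractionRing (MvPolynomial (Fin n) k)) (p s j) ≠ 0 := by
    intro s j
    rw [Ne, FaithfulSMul.algebraMap_eq_zero_iff]
    exact (hp s j).2
  have hpoly : q * ∏ s, ∏ j, p s j = ∑ s, h s * (Matrix.of fun i j => pderiv i (p s j)).det *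
      ∏ s' ∈ Finset.univ.erase s, ∏ j, p s' j := by
    apply hinj
    have h1 : ∀ s, (Matrix.of fun i j => algebraMap _ (FractionRing (MvPolynomial (Fin n) k)) (pderiv i (p s j)) /
        algebraMap _ (FractionRing (MvPolynomial (Fin n) k)) (p s j)).det = algebraMap _ (FractionRing (MvPolynomial (Fin n) k)) (Matrix.of fun i j => pderiv i (p s j)).det /
          ∏ j, algebraMap _ (FractionRing (MvPolynomial (Fin n) k)) (p s j) := by
      intro s
      have h2 : (Matrix.of fun i j => algebraMap _ (FractionRing (MvPolynomial (Fin n) k)) (pderiv i (p s j)) /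
          algebraMap _ (FractionRing (MvPolynomial (Fin n) k)) (p s j)) = Matrix.of fun i j => (algebraMap _ (FractionRing (MvPolynomial (Fin n) k)) (p s j))⁻¹ *
          ((Matrix.of fun i j => pderiv i (p s j)).map (algebraMap _ (FractionRing (MvPolynomial (Fin n) k)))) i j := by
        ext i j
        simp only [Matrix.of_apply, Matrix.map_apply]
        rw [div_eq_inv_mul]
      rw [h2, Matrix.det_mul_row, Finset.prod_inv_distrib, RingHom.map_det, div_eq_inv_mul]
      rfl
    simp only [h1] at hid
    rw [map_mul, map_sum, map_prod]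
    simp only [map_prod, map_mul]
    have h3 : algebraMap _ (FractionRing (MvPolynomial (Fin n) k)) q * ∏ s, ∏ j, algebraMap _ (FractionRing (MvPolynomial (Fin n) k)) (p s j) =
        (algebraMap _ (FractionRing (MvPolynomial (Fin n) k)) q * ∏ s, ∏ j, algebraMap _ (FractionRing (MvPolynomial (Fin n) k)) (p s j)) * 1 := by rw [mul_one]
    rw [h3, hid, Finset.mul_sum]
    refine Finset.sum_congr rfl fun s _ => ?_
    rw [← Finset.mul_prod_erase Finset.univ _ (Finset.mem_univ s)]
    have h4 : ∏ j, algebraMap _ (FractionRing (MvPolynomial (Fin n) k)) (p s j) ≠ 0 := Finset.prod_ne_zero_iff.2 fun j _ => hp0' s j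
    field_simp
  -- apply the substitution
  have hdet0 : B'.det ≠ 0 := by
    intro h0
    have := congrArg Matrix.det hB
    rw [Matrix.det_mul, h0, mul_zero, Matrix.det_one] at this
    exact zero_ne_one this
  have hder : ∀ s, (Matrix.of fun i j => X i * pderiv i (Φ (p s j))).det =
      (∏ i, X i) * (C B'.det * Φ (Matrix.of fun i j => pderiv i (p s j)).det) := by
    intro s
    have h1 : (Matrix.of fun i j => X i * pderiv i (Φ (p s j))) =
        Matrix.of fun i j => X i * ((B'.transpose.map C :
          Matrix (Fin n) (Fin n) (MvPolynomial (Fin n) K)) *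
          ((Matrix.of fun i j => pderiv i (p s j)).map Φ)) i j := by
      ext1 i j
      simp only [Matrix.of_apply, Matrix.mul_apply, Matrix.map_apply, Matrix.transpose_apply]
      rw [pderiv_sub]
    have h2 := RingHom.map_det (C : K →+* MvPolynomial (Fin n) K) B'.transpose
    rw [Matrix.det_transpose] at h2
    rw [h1, Matrix.det_mul_column, Matrix.det_mul, RingHom.map_det Φ, h2]
    rfl
  have hmain : C B'.det * ((∏ i, X i) * (Φ q * ∏ s, ∏ j, Φ (p s j))) =
      ∑ s, Φ (h s) * (Matrix.of fun i j => X i * pderiv i (Φ (p s j))).det *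
        ∏ s' ∈ Finset.univ.erase s, ∏ j, Φ (p s' j) := by
    have h1 := congrArg Φ hpoly
    rw [map_mul, map_sum, map_prod] at h1
    simp only [map_prod, map_mul] at h1
    rw [h1, Finset.mul_sum, Finset.mul_sum]
    refine Finset.sum_congr rfl fun s _ => ?_
    rw [hder]
    ring
  have hw := congrArg (mV ρ hρ) hmain
  rw [map_mul, map_mul, map_mul, map_prod, map_prod] at hw
  have e1 : mV ρ hρ (C B'.det : MvPolynomial (Fin n) K) = 1 := mW_C ρ hdet0
  have e2 : ∀ i, mV ρ hρ (X i : MvPolynomial (Fin n) K) = ρ i := fun i => mW_X ρ i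
  simp only [e2, map_prod] at hw
  rw [e1, one_mul] at hw
  have hΦp : ∀ s j, Φ (p s j) ≠ 0 := by
    intro s j h0
    apply (hp s j).2
    apply hΦinj
    rw [h0, map_zero]
  have hΦq : Φ q ≠ 0 := by
    intro h0
    apply hq0
    apply hΦinj
    rw [h0, map_zero]
  have hPi : 0 < ∏ s, ∏ j, mV ρ hρ (Φ (p s j)) :=
    Finset.prod_pos fun s _ => Finset.prod_pos fun j _ => mW_pos hρ (hΦp s j)
  have hle : mV ρ hρ (∑ s, Φ (h s) * (Matrix.of fun i j => X i * pderiv i (Φ (p s j))).det *
        ∏ s' ∈ Finset.univ.erase s, ∏ j, Φ (p s' j)) ≤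
      r * (mV ρ hρ (Φ q) * ∏ s, ∏ j, mV ρ hρ (Φ (p s j))) := by
    rw [mV_apply]
    refine mW_sum ρ _ _ fun s _ => ?_
    rw [← mV_apply ρ hρ, map_mul, map_mul, map_prod]
    simp only [map_prod]
    have h1 : mV ρ hρ (Φ (h s)) ≤ r * mV ρ hρ (Φ q) := (hh s).2
    have h2 : mV ρ hρ (Matrix.of fun i j => X i * pderiv i (Φ (p s j))).det ≤
        ∏ j, mV ρ hρ (Φ (p s j)) := mV_det hρ _
    rw [← Finset.mul_prod_erase Finset.univ (fun s => ∏ j, mV ρ hρ (Φ (p s j))) (Finset.mem_univ s)]
    calc _ ≤ (r * mV ρ hρ (Φ q)) * (∏ j, mV ρ hρ (Φ (p s j))) *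
          ∏ s' ∈ Finset.univ.erase s, ∏ j, mV ρ hρ (Φ (p s' j)) :=
        mul_le_mul' (mul_le_mul' h1 h2) le_rfl
      _ = _ := by ring
  rw [← hw] at hle
  have hpos : 0 < mV ρ hρ (Φ q) * ∏ s, ∏ j, mV ρ hρ (Φ (p s j)) :=
    mul_pos (mW_pos hρ hΦq) hPi
  exact le_of_mul_le_mul_right hle hpos

end Pool.Agent.R405
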