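import Mathlib
import Pool.Agent.H9.Lib.R_seed8.R405.Disc
import Pool.Agent.H9.Lib.R_seed8.R405.Core

/-!
Multiplier ideals of arrangements: the local estimate.
-/

set_option autoImplicit false
set_option linter.unusedSectionVars false

open Finset

namespace Pool.Agent.R405

open MvPolynomial
open Pool.Agent.W180.OP (nrm le_nrm nrm_pos nrm_nonneg nrm_le exists_nrm cs cs_nonneg)

/-- the multiplier ideal -/
def InMultV {k : Type} [Field k] {n a : ℕ} (f : Fin a → MvPolynomial (Fin n) k)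
    (u : MvPolynomial (Fin n) k) : Prop :=
  ∀ w : Valuation (MvPolynomial (Fin n) k) NNReal, IsPlaceV w →
    ∃ r : NNReal, (∀ r' : NNReal, r < r' → LogB w r') ∧ w u * r ≤ ⨆ j, w (f j)

variable {k K : Type} [Field k] [Field K] [Algebra k K] {n : ℕ}

theorem coeff_lff (b : Fin n → K) (i : Fin n) : coeff (Finsupp.single i 1) (lff b) = b i := by
  classical
  unfold lff
  rw [coeff_sum, Finset.sum_eq_single i]
  · rw [coeff_C_mul, coeff_X, if_pos rfl, mul_one]
  · intro j _ hj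
    rw [coeff_C_mul, coeff_X, if_neg, mul_zero]
    intro h
    exact hj (Finsupp.single_left_injective one_ne_zero h)
  · intro h
    exact absurd (Finset.mem_univ _) h

theorem mW_lff_le (ρ : Fin n → NNReal) (b : Fin n → K) {r : NNReal}
    (h : ∀ i, b i ≠ 0 → ρ i ≤ r) : mW ρ (lff b) ≤ r := by
  unfold lff
  refine mW_sum ρ _ _ fun i _ => ?_
  refine mW_le ρ fun m hm => ?_
  classical
  rw [coeff_C_mul, coeff_X] at hm
  have h1 := left_ne_zero_of_mul hm
  have h2 : Finsupp.single i 1 = m := by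
    by_contra h'
    rw [if_neg h', mul_zero] at hm
    exact hm rfl
  rw [← h2, mw_single]
  exact h i h1

theorem le_mW_lff (ρ : Fin n → NNReal) (b : Fin n → K) {i : Fin n} (hi : b i ≠ 0) :
    ρ i ≤ mW ρ (lff b) := by
  rw [← mw_single ρ i]
  refine le_mW ρ ?_
  rwa [coeff_lff]

theorem sub_hom (B' : Matrix (Fin n) (Fin n) K) {P : MvPolynomial (Fin n) k} {e : ℕ}
    (hP : P.IsHomogeneous e) : (sub k B' P).IsHomogeneous e := by
  have h := hP.eval₂ ((C : K →+* MvPolynomial (Fin n) K).comp (algebraMap k K))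
    (fun j => lff (B' j)) (n := 1) (fun r => isHomogeneous_C _ _) (fun j => lff_hom _)
  rw [one_mul] at h
  exact h

theorem sub_map (B' : Matrix (Fin n) (Fin n) K) (P : MvPolynomial (Fin n) k) :
    sub k B' P = sub K B' (map (algebraMap k K) P) := by
  have h1 : sub k B' = (sub K B').comp (MvPolynomial.map (algebraMap k K)) := by
    apply MvPolynomial.ringHom_ext
    · intro c
      simp only [RingHom.comp_apply]
      rw [sub_C, map_C, sub_C]
      rfl
    · intro j
      simp only [RingHom.comp_apply]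
      rw [sub_X, map_X, sub_X]
  exact RingHom.congr_fun h1 P

theorem sub_lff (B' : Matrix (Fin n) (Fin n) K) (g : Fin n → K) :
    sub K B' (lff g) = lff (Matrix.vecMul g B') := by
  classical
  conv_lhs => rw [lff]
  rw [map_sum]
  have h1 : ∀ j, sub K B' (C (g j) * X j) = ∑ i, C (g j * B' j i) * X i := by
    intro j
    rw [map_mul, sub_C, sub_X, lff, Finset.mul_sum]
    refine Finset.sum_congr rfl fun i _ => ?_
    rw [C_mul, mul_assoc]
    rfl
  simp only [h1]
  rw [Finset.sum_comm, lff]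
  refine Finset.sum_congr rfl fun i _ => ?_
  rw [Matrix.vecMul, dotProduct, map_sum, Finset.sum_mul]

/-- the absolute value of a form is bounded by the monomial valuation -/
theorem abv_mW (f : AbsoluteValue K ℝ) {P : MvPolynomial (Fin n) K} {e : ℕ}
    (hP : P.IsHomogeneous e) (y : Fin n → K) (hy : y ≠ 0) (ρ : Fin n → NNReal)
    (hρ : ∀ i, (ρ i : ℝ) = f (y i) / nrm f y) :
    f (eval y P) ≤ cs f P * (nrm f y ^ e * mW ρ P) := by
  classical
  rw [MvPolynomial.eval_eq, cs, Finset.sum_mul]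
  refine (f.sum_le _ _).trans (Finset.sum_le_sum fun m hm => ?_)
  rw [map_mul]
  refine mul_le_mul_of_nonneg_left ?_ (f.nonneg _)
  have hN := nrm_pos f hy
  have h1 : m.degree = e := by
    have := hP (MvPolynomial.mem_support_iff.1 hm)
    exact (DFunLike.congr_fun (Finsupp.degree_eq_weight_one (σ := Fin n) (R := ℕ)) m).trans this
  have h2 : ∑ i, m i = e := by
    rw [← h1]
    exact (Finsupp.degree_eq_sum m).symm
  have h3 : f (∏ i ∈ m.support, y i ^ m i) = nrm f y ^ e * (mw ρ m : ℝ) := by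
    have h4 : ∏ i ∈ m.support, y i ^ m i = ∏ i, y i ^ m i := by
      refine Finset.prod_subset (Finset.subset_univ _) fun i _ hi => ?_
      rw [Finsupp.notMem_support_iff.1 hi, pow_zero]
    rw [h4, map_prod, ← h2, ← Finset.prod_pow_eq_pow_sum]
    unfold mw
    push_cast
    rw [← Finset.prod_mul_distrib]
    refine Finset.prod_congr rfl fun i _ => ?_
    rw [map_pow, hρ, ← mul_pow, mul_div_cancel₀ _ hN.ne']
  rw [h3]
  refine mul_le_mul_of_nonneg_left ?_ (pow_nonneg hN.le _)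
  exact_mod_cast le_mW ρ (MvPolynomial.mem_support_iff.1 hm)

theorem mulVec_bound (f : AbsoluteValue K ℝ) (B : Matrix (Fin n) (Fin n) K) :
    ∃ κ : ℝ, 1 ≤ κ ∧ ∀ x : Fin n → K, nrm f (B.mulVec x) ≤ κ * nrm f x := by
  classical
  refine ⟨1 + ∑ i, ∑ j, f (B i j), ?_, fun x => ?_⟩
  · have : 0 ≤ ∑ i, ∑ j, f (B i j) := Finset.sum_nonneg fun _ _ => Finset.sum_nonneg fun _ _ =>
      f.nonneg _
    linarith
  · have hN := nrm_nonneg f x
    have h0 : 0 ≤ ∑ i, ∑ j, f (B i j) := Finset.sum_nonneg fun _ _ => Finset.sum_nonneg fun _ _ =>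
      f.nonneg _
    refine nrm_le (by positivity) fun i => ?_
    have h1 : f (B.mulVec x i) ≤ ∑ j, f (B i j) * nrm f x := by
      rw [Matrix.mulVec, dotProduct]
      refine (f.sum_le _ _).trans (Finset.sum_le_sum fun j _ => ?_)
      rw [map_mul]
      exact mul_le_mul_of_nonneg_left (le_nrm f x j) (f.nonneg _)
    rw [← Finset.sum_mul] at h1
    refine h1.trans (mul_le_mul_of_nonneg_right ?_ hN)
    have h2 : ∑ j, f (B i j) ≤ ∑ i, ∑ j, f (B i j) :=
      Finset.single_le_sum (f := fun i => ∑ j, f (B i j))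
        (fun _ _ => Finset.sum_nonneg fun _ _ => f.nonneg _) (Finset.mem_univ i)
    linarith

/-- the local estimate -/
theorem toricIneq (f : AbsoluteValue K ℝ) (B B' : Matrix (Fin n) (Fin n) K) (hB : B * B' = 1)
    (hB2 : B' * B = 1) {ι : Type} (Lf : ι → Fin n → K) {a : ℕ}
    (Fs : Fin a → MvPolynomial (Fin n) k) (c : Fin a → K) (d : Fin a → ℕ)
    (σ : ∀ j, Fin (d j) → ι)
    (hfac : ∀ j, map (algebraMap k K) (Fs j) = C (c j) * ∏ s, lff (Lf (σ j s)))
    (u : MvPolynomial (Fin n) k) (e : ℕ) (hu : u.IsHomogeneous e) (hm : InMultV Fs u) :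
    ∃ C : ℝ, 0 ≤ C ∧ ∀ x : Fin n → K, x ≠ 0 → (∀ i, B.mulVec x i ≠ 0) →
      (∀ l i, Matrix.vecMul (Lf l) B' i ≠ 0 → f (B.mulVec x i) ≤ f (∑ j, Lf l j * x j)) →
      aeval x u ≠ 0 → 0 < ⨆ j, f (aeval x (Fs j)) / nrm f x ^ d j →
      -Real.log (⨆ j, f (aeval x (Fs j)) / nrm f x ^ d j) ≤
        -Real.log (f (aeval x u) / nrm f x ^ e) +
        ∑ i, (Real.log (nrm f x) - Real.log (f (B.mulVec x i))) + C := by
  classical
  obtain ⟨κ, hκ1, hκ⟩ := mulVec_bound f B
  obtain ⟨κ', hκ'1, hκ'⟩ := mulVec_bound f B'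
  set M : ℝ := 1 + ∑ j, (f (c j))⁻¹ * κ' ^ d j with hM
  have hMj0 : ∀ j, 0 ≤ (f (c j))⁻¹ * κ' ^ d j := fun j =>
    mul_nonneg (inv_nonneg.2 (f.nonneg _)) (pow_nonneg (by linarith) _)
  have hM1 : 1 ≤ M := by
    have : 0 ≤ ∑ j, (f (c j))⁻¹ * κ' ^ d j := Finset.sum_nonneg fun j _ => hMj0 j
    linarith
  set cu : ℝ := cs f (sub k B' u) with hcu
  refine ⟨|Real.log cu| + |Real.log M| + (e + n) * Real.log κ, by
    have := Real.log_nonneg hκ1
    positivity, fun x hx hy0 hgr hux hs => ?_⟩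
  set y := B.mulVec x with hy
  have hyx : B'.mulVec y = x := by
    rw [hy, Matrix.mulVec_mulVec, hB2, Matrix.one_mulVec]
  obtain ⟨i0', _⟩ := Function.ne_iff.1 hx
  have hn : 0 < n := Fin.pos i0'
  have hyne : y ≠ 0 := by
    intro h
    exact hy0 i0' (congrFun h i0')
  have hNy := nrm_pos f hyne
  have hNx := nrm_pos f hx
  set ρ : Fin n → NNReal := fun i => ⟨f (y i) / nrm f y, div_nonneg (f.nonneg _) hNy.le⟩ with hρdef
  have hρv : ∀ i, (ρ i : ℝ) = f (y i) / nrm f y := fun i => rfl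
  have hρ : ∀ i, 0 < ρ i := by
    intro i
    rw [← NNReal.coe_pos, hρv]
    exact div_pos (f.pos_iff.2 (hy0 i)) hNy
  have hρ1 : ∀ i, ρ i ≤ 1 := by
    intro i
    rw [← NNReal.coe_le_coe, hρv, NNReal.coe_one, div_le_one hNy]
    exact le_nrm f y i
  obtain ⟨i0, hi0⟩ := exists_nrm f hn y
  have hρi0 : ρ i0 = 1 := by
    rw [← NNReal.coe_inj, hρv, hi0, NNReal.coe_one, div_self hNy.ne']
  set w := (mV (K := K) ρ hρ).comap (sub k B') with hw
  have hwv : ∀ P, w P = mW ρ (sub k B' P) := fun P => rfl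
  have hplace : IsPlaceV w := by
    refine ⟨fun t ht => ?_, fun i => ?_, ?_, fun P hP => ?_⟩
    · rw [hwv, sub_C]
      exact mW_C ρ (by rwa [Ne, map_eq_zero])
    · rw [hwv, sub_X]
      exact mW_lff_le ρ _ fun i' _ => hρ1 i'
    · obtain ⟨j, hj⟩ : ∃ j, B' j i0 ≠ 0 := by
        by_contra hcon
        push Not at hcon
        have h1 : (B * B') i0 i0 = 0 := by
          rw [Matrix.mul_apply]
          exact Finset.sum_eq_zero fun j _ => by rw [hcon j, mul_zero]
        rw [hB, Matrix.one_apply_eq] at h1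
        exact one_ne_zero h1
      refine ⟨j, ?_⟩
      rw [hwv, sub_X]
      apply le_antisymm
      · exact mW_lff_le ρ _ fun i' _ => hρ1 i'
      · rw [← hρi0]
        exact le_mW_lff ρ _ hj
    · rw [hwv]
      exact (mW_pos hρ (fun h => hP (sub_injective B B' hB2 (by rw [h, map_zero])))).ne'
  obtain ⟨r, hr, hle⟩ := hm w hplace
  have hρr : ∏ i, ρ i ≤ r := le_of_forall_gt_imp_ge_of_dense fun r' hr' =>
    tor_disc hρ B B' hB hB2 r' (hr r' hr')
  set S : ℝ := ⨆ j, f (aeval x (Fs j)) / nrm f x ^ d j with hS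
  -- the values of the generators
  have hval : ∀ j, (w (Fs j) : ℝ) ≤ (f (c j))⁻¹ * κ' ^ d j * (f (aeval x (Fs j)) / nrm f x ^ d j) := by
    intro j
    have h1 : sub k B' (Fs j) = C (c j) * ∏ s, lff (Matrix.vecMul (Lf (σ j s)) B') := by
      rw [sub_map, hfac, map_mul, sub_C, map_prod]
      congr 1
      exact Finset.prod_congr rfl fun s _ => sub_lff B' _
    have h2 : aeval x (Fs j) = c j * ∏ s, ∑ i, Lf (σ j s) i * x i := by
      have h3 : aeval x (Fs j) = eval x (map (algebraMap k K) (Fs j)) := by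
        rw [eval_map, aeval_def]
      rw [h3, hfac, map_mul, eval_C, map_prod]
      congr 1
      exact Finset.prod_congr rfl fun s _ => eval_lff _ _
    by_cases hcj : c j = 0
    · have h3 : w (Fs j) = 0 := by
        rw [hwv, h1, hcj, C_0, zero_mul, mW_zero]
      rw [h3, NNReal.coe_zero]
      have := hMj0 j
      have := div_nonneg (f.nonneg (aeval x (Fs j))) (pow_nonneg hNx.le (d j))
      positivity
    · have h3 : w (Fs j) = ∏ s, mW ρ (lff (Matrix.vecMul (Lf (σ j s)) B')) := by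
        rw [hwv, h1, mW_mul hρ, mW_C ρ hcj, one_mul, ← mV_apply ρ hρ, map_prod]
        rfl
      have h4 : (w (Fs j) : ℝ) ≤ ∏ s, (f (∑ i, Lf (σ j s) i * x i) / nrm f y) := by
        rw [h3]
        push_cast
        refine Finset.prod_le_prod (fun s _ => NNReal.coe_nonneg _) fun s _ => ?_
        obtain ⟨t, ht⟩ : ∃ t : NNReal, (t : ℝ) = f (∑ i, Lf (σ j s) i * x i) / nrm f y :=
          ⟨⟨_, div_nonneg (f.nonneg _) hNy.le⟩, rfl⟩
        rw [← ht, NNReal.coe_le_coe]
        refine mW_lff_le ρ _ fun i hi => ?_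
        rw [← NNReal.coe_le_coe, hρv, ht]
        exact div_le_div_of_nonneg_right (hgr _ i hi) hNy.le
      have hcj' := f.pos_iff.2 hcj
      rw [h2, map_mul, map_prod]
      rw [Finset.prod_div_distrib, Finset.prod_const, Finset.card_univ, Fintype.card_fin] at h4
      have hxy : nrm f x ≤ κ' * nrm f y := by
        rw [← hyx]
        exact hκ' y
      have h6 : nrm f x ^ d j ≤ κ' ^ d j * nrm f y ^ d j := by
        rw [← mul_pow]
        exact pow_le_pow_left₀ hNx.le hxy _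
      have hP0 : 0 ≤ ∏ s, f (∑ i, Lf (σ j s) i * x i) := Finset.prod_nonneg fun _ _ => f.nonneg _
      refine h4.trans ?_
      rw [show (f (c j))⁻¹ * κ' ^ d j * (f (c j) * (∏ s, f (∑ i, Lf (σ j s) i * x i)) /
        nrm f x ^ d j) = (∏ s, f (∑ i, Lf (σ j s) i * x i)) * (κ' ^ d j / nrm f x ^ d j) by
          field_simp]
      rw [div_eq_mul_inv]
      refine mul_le_mul_of_nonneg_left ?_ hP0
      rw [inv_eq_one_div, div_le_div_iff₀ (pow_pos hNy _) (pow_pos hNx _), one_mul]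
      exact h6
  have hbdd : BddAbove (Set.range fun j => f (aeval x (Fs j)) / nrm f x ^ d j) :=
    (Set.finite_range _).bddAbove
  have hsup : ((⨆ j, w (Fs j) : NNReal) : ℝ) ≤ M * S := by
    rw [NNReal.coe_iSup]
    rcases Nat.eq_zero_or_pos a with rfl | ha
    · rw [hS, Real.iSup_of_isEmpty] at hs
      exact absurd hs (lt_irrefl _)
    · have : Nonempty (Fin a) := ⟨⟨0, ha⟩⟩
      refine ciSup_le fun j => ?_
      have h1 : f (aeval x (Fs j)) / nrm f x ^ d j ≤ S := le_ciSup hbdd j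
      have h2 : (f (c j))⁻¹ * κ' ^ d j ≤ M := by
        have := Finset.single_le_sum (f := fun j => (f (c j))⁻¹ * κ' ^ d j) (fun j _ => hMj0 j)
          (Finset.mem_univ j)
        have h3 : (f (c j))⁻¹ * κ' ^ d j ≤ ∑ j, (f (c j))⁻¹ * κ' ^ d j := this
        linarith
      exact (hval j).trans (mul_le_mul h2 h1
        (div_nonneg (f.nonneg _) (pow_nonneg hNx.le _)) (by linarith))
  have hkey : (w u : ℝ) * ∏ i, (f (y i) / nrm f y) ≤ M * S := by
    have h1 : w u * ∏ i, ρ i ≤ ⨆ j, w (Fs j) := (mul_le_mul' le_rfl hρr).trans hle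
    have h2 : ((w u * ∏ i, ρ i : NNReal) : ℝ) ≤ ((⨆ j, w (Fs j) : NNReal) : ℝ) :=
      NNReal.coe_le_coe.2 h1
    have h3 : ((w u * ∏ i, ρ i : NNReal) : ℝ) = (w u : ℝ) * ∏ i, (f (y i) / nrm f y) := by
      rw [NNReal.coe_mul, NNReal.coe_prod]
      rfl
    rw [h3] at h2
    exact h2.trans hsup
  -- the form `u`
  have hue : aeval x u = eval y (sub k B' u) := (eval_sub B B' hB2 u x).symm
  have habs : f (aeval x u) ≤ cu * (nrm f y ^ e * (w u : ℝ)) := by
    rw [hue]
    exact abv_mW f (sub_hom B' hu) y hyne ρ hρv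
  have hfu := f.pos_iff.2 hux
  have hwu0 : 0 ≤ (w u : ℝ) := NNReal.coe_nonneg _
  have hcu0 : 0 < cu := by
    by_contra h
    have h1 : cu * (nrm f y ^ e * (w u : ℝ)) ≤ 0 :=
      mul_nonpos_of_nonpos_of_nonneg (not_lt.1 h) (mul_nonneg (pow_nonneg hNy.le _) hwu0)
    linarith
  have hprodpos : 0 < ∏ i, (f (y i) / nrm f y) :=
    Finset.prod_pos fun i _ => div_pos (f.pos_iff.2 (hy0 i)) hNy
  have hfin : f (aeval x u) * ∏ i, (f (y i) / nrm f y) ≤ cu * nrm f y ^ e * (M * S) := by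
    calc f (aeval x u) * ∏ i, (f (y i) / nrm f y) ≤
        (cu * (nrm f y ^ e * (w u : ℝ))) * ∏ i, (f (y i) / nrm f y) :=
          mul_le_mul_of_nonneg_right habs hprodpos.le
      _ = cu * nrm f y ^ e * ((w u : ℝ) * ∏ i, (f (y i) / nrm f y)) := by ring
      _ ≤ _ := mul_le_mul_of_nonneg_left hkey (mul_nonneg hcu0.le (pow_nonneg hNy.le _))
  have hlog := Real.log_le_log (mul_pos hfu hprodpos) hfin
  have hM0 : 0 < M := by linarith
  rw [Real.log_mul hfu.ne' hprodpos.ne', Real.log_mul (mul_pos hcu0 (pow_pos hNy _)).ne'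
    (mul_pos hM0 hs).ne', Real.log_mul hcu0.ne' (pow_pos hNy _).ne', Real.log_pow,
    Real.log_mul hM0.ne' hs.ne', Real.log_prod (fun i _ =>
      (div_pos (f.pos_iff.2 (hy0 i)) hNy).ne')] at hlog
  have h1 : ∀ i, Real.log (f (y i) / nrm f y) = Real.log (f (y i)) - Real.log (nrm f y) := fun i =>
    Real.log_div (f.pos_iff.2 (hy0 i)).ne' hNy.ne'
  simp only [h1, Finset.sum_sub_distrib, Finset.sum_const, Finset.card_univ, Fintype.card_fin,
    nsmul_eq_mul] at hlog
  rw [Real.log_div hfu.ne' (pow_pos hNx _).ne', Real.log_pow]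
  simp only [Finset.sum_sub_distrib, Finset.sum_const, Finset.card_univ, Fintype.card_fin,
    nsmul_eq_mul]
  have hyxle : Real.log (nrm f y) ≤ Real.log κ + Real.log (nrm f x) := by
    rw [← Real.log_mul (by linarith) hNx.ne']
    exact Real.log_le_log hNy (hκ x)
  have habs1 := le_abs_self (Real.log cu)
  have habs2 := le_abs_self (Real.log M)
  have hen : ((e : ℝ) + n) * Real.log (nrm f y) ≤ (e + n) * (Real.log κ + Real.log (nrm f x)) :=
    mul_le_mul_of_nonneg_left hyxle (by positivity)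
  linarith

end Pool.Agent.R405
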