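import Mathlib
import Pool.Agent.H9.Lib.R_seed8.TH286.GT.GrowD

/-!
Large number fields.
-/

set_option autoImplicit false

namespace Pool.Agent.R405

open NumberField Module

theorem exists_big (K : Type) [Field K] [NumberField K] :
    ∃ M : IntermediateField ℚ ℂ, FiniteDimensional ℚ M ∧ IsGalois ℚ M ∧ (∃ z : M, z ^ 2 = -1) ∧
      Nonempty (K →+* M) := by
  classical
  obtain ⟨ψ⟩ : Nonempty (K →+* ℂ) := inferInstance
  let φ : K →ₐ[ℚ] ℂ := ψ.toRatAlgHom
  let b := Module.finBasis ℚ K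
  have halg : ∀ x : K, IsAlgebraic ℚ (φ x) := fun x =>
    (Algebra.IsAlgebraic.isAlgebraic (R := ℚ) x).algHom φ
  obtain ⟨M, hfd, hnorm, hM⟩ := Pool.Agent.TH286.GT.GrowD.exists_field
    (insert Complex.I (Finset.univ.image fun i => φ (b i))) (by
      intro x hx
      rcases Finset.mem_insert.1 hx with rfl | hx
      · refine ⟨Polynomial.X ^ 2 + 1, ?_, by simp⟩
        intro h
        have := congrArg (Polynomial.eval 1) h
        norm_num at this
      · obtain ⟨i, -, rfl⟩ := Finset.mem_image.1 hx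
        exact halg _)
  have hmem : ∀ x : K, φ x ∈ M := by
    intro x
    rw [← b.sum_repr x, map_sum]
    refine sum_mem fun i _ => ?_
    rw [Algebra.smul_def, map_mul, φ.commutes, ← Algebra.smul_def]
    exact M.smul_mem (hM _ (Finset.mem_insert_of_mem (Finset.mem_image_of_mem _ (Finset.mem_univ i))))
  refine ⟨M, hfd, ⟨⟩, ⟨⟨Complex.I, hM _ (Finset.mem_insert_self _ _)⟩, ?_⟩,
    ⟨(φ : K →+* ℂ).codRestrict M.toSubfield hmem⟩⟩
  apply Subtype.ext
  show Complex.I ^ 2 = -1
  exact Complex.I_sq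

end Pool.Agent.R405
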