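import Mathlib
import Pool.Agent.H9.Lib.R_seed8.R405.Core

/-!
Points on a line.
-/

set_option autoImplicit false
set_option linter.unusedSectionVars false

open Finset

namespace Pool.Agent.R405

open NumberField IsDedekindDomain Height Module MvPolynomial
open Pool.Agent.W180.OP (Pl av wt nrm le_nrm nrm_pos nrm_nonneg nrm_le exists_nrm lam lam_eq liou
  wt_nonneg cs SNC no_triple min_lam pair_point sum_le_of_few grad_bound not_small)

section quad

variable {K : Type} [Field K] [CharZero K]

/-- the Hessian -/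
noncomputable def hess {n : ℕ} (F : MvPolynomial (Fin n) K) (b j : Fin n) : K :=
  coeff 0 (pderiv j (pderiv b F))

theorem pderiv_swap {n : ℕ} (F : MvPolynomial (Fin n) K) (b j : Fin n) :
    pderiv j (pderiv b F) = pderiv b (pderiv j F) := by
  have h : ⁅(pderiv j : Derivation K (MvPolynomial (Fin n) K) (MvPolynomial (Fin n) K)),
      (pderiv b : Derivation K (MvPolynomial (Fin n) K) (MvPolynomial (Fin n) K))⁆ = 0 := by
    apply MvPolynomial.derivation_ext
    intro l
    rw [Derivation.commutator_apply]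
    have h1 : ∀ a : Fin n, ∃ c : K, pderiv a (X l : MvPolynomial (Fin n) K) = C c := by
      intro a
      by_cases hal : a = l
      · exact ⟨1, by rw [hal, pderiv_X_self, map_one]⟩
      · exact ⟨0, by rw [pderiv_X_of_ne (Ne.symm hal), map_zero]⟩
    obtain ⟨c1, hc1⟩ := h1 b
    obtain ⟨c2, hc2⟩ := h1 j
    rw [hc1, hc2, pderiv_C, pderiv_C, sub_zero]
    rfl
  have h2 := congrArg (fun D => D F) h
  simp only [Derivation.commutator_apply] at h2
  exact sub_eq_zero.1 h2

theorem hess_symm {n : ℕ} (F : MvPolynomial (Fin n) K) (b j : Fin n) :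
    hess F b j = hess F j b := by
  unfold hess
  rw [pderiv_swap]

theorem tg_hess {n : ℕ} {F : MvPolynomial (Fin n) K} (hF : F.IsHomogeneous 2) (x : Fin n → K)
    (b : Fin n) : tg x F b = ∑ j, hess F b j * x j := by
  have h1 : (pderiv b F).IsHomogeneous 1 := hF.pderiv
  have h2 := h1.sum_X_mul_pderiv
  rw [one_smul] at h2
  unfold tg
  conv_lhs => rw [← h2]
  rw [map_sum]
  refine Finset.sum_congr rfl fun j _ => ?_
  have h3 : (pderiv j (pderiv b F)).IsHomogeneous 0 := h1.pderiv
  have h4 : pderiv j (pderiv b F) = C (coeff 0 (pderiv j (pderiv b F))) :=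
    totalDegree_eq_zero_iff_eq_C.1 ((totalDegree_zero_iff_isHomogeneous _).2 h3)
  rw [map_mul, eval_X, h4, eval_C, mul_comm]
  rfl

theorem quad_eval {n : ℕ} {F : MvPolynomial (Fin n) K} (hF : F.IsHomogeneous 2) (x : Fin n → K) :
    2 * eval x F = ∑ b, tg x F b * x b := by
  have h := hF.sum_X_mul_pderiv
  have h2 := congrArg (eval x) h
  rw [map_sum, map_nsmul, nsmul_eq_mul] at h2
  push_cast at h2
  rw [← h2]
  refine Finset.sum_congr rfl fun b _ => ?_
  rw [map_mul, eval_X, mul_comm]
  rfl

theorem quad_add {n : ℕ} {F : MvPolynomial (Fin n) K} (hF : F.IsHomogeneous 2) (x y : Fin n → K)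
    (s t : K) :
    eval (fun b => s * x b + t * y b) F =
      s ^ 2 * eval x F + s * t * (∑ b, tg x F b * y b) + t ^ 2 * eval y F := by
  have h2 : (2 : K) ≠ 0 := two_ne_zero
  have hxy : ∑ b, tg x F b * y b = ∑ b, tg y F b * x b := by
    simp only [tg_hess hF, Finset.sum_mul]
    rw [Finset.sum_comm]
    refine Finset.sum_congr rfl fun j _ => Finset.sum_congr rfl fun b _ => ?_
    rw [hess_symm F b j]
    ring
  have h1 : 2 * eval (fun b => s * x b + t * y b) F =
      2 * (s ^ 2 * eval x F + s * t * (∑ b, tg x F b * y b) + t ^ 2 * eval y F) := by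
    rw [quad_eval hF]
    have h3 : ∀ b, tg (fun b => s * x b + t * y b) F b = s * tg x F b + t * tg y F b := by
      intro b
      simp only [tg_hess hF, Finset.mul_sum, ← Finset.sum_add_distrib]
      exact Finset.sum_congr rfl fun j _ => by ring
    simp only [h3]
    have h4 : ∀ b, (s * tg x F b + t * tg y F b) * (s * x b + t * y b) =
        s ^ 2 * (tg x F b * x b) + s * t * (tg x F b * y b) + s * t * (tg y F b * x b) +
          t ^ 2 * (tg y F b * y b) := fun b => by ring
    simp only [h4, Finset.sum_add_distrib, ← Finset.mul_sum]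
    rw [← quad_eval hF x, ← quad_eval hF y, ← hxy]
    ring
  exact mul_left_cancel₀ h2 h1

end quad

/-- coordinates on a line -/
theorem exists_frame {k : Type} [Field k] (m y0 : Fin 3 → k) (hm : m ≠ 0) (hy0 : y0 ≠ 0)
    (h : ∑ j, m j * y0 j = 0) :
    ∃ y1 S N : Fin 3 → k, (∀ c : k, c • y0 ≠ y1) ∧ ∑ j, m j * y1 j = 0 ∧
      (∀ x : Fin 3 → k, ∑ j, m j * x j = 0 →
        x = fun b => (∑ j, S j * x j) * y0 b + (∑ j, N j * x j) * y1 b) := by
  classical
  let φ : (Fin 3 → k) →ₗ[k] k := ∑ l, m l • LinearMap.proj l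
  have hφ : ∀ y, φ y = ∑ l, m l * y l := fun y => by simp [φ, LinearMap.sum_apply]
  obtain ⟨a, ha⟩ := Function.ne_iff.1 hm
  have ha' : m a ≠ 0 := ha
  have hφa : φ (Pi.single a 1) = m a := by
    rw [hφ, Finset.sum_eq_single a]
    · rw [Pi.single_eq_same, mul_one]
    · intro b _ hb
      rw [Pi.single_eq_of_ne hb, mul_zero]
    · intro h
      exact absurd (Finset.mem_univ _) h
  have hsurj : LinearMap.range φ = ⊤ := by
    rw [LinearMap.range_eq_top]
    intro c
    refine ⟨(c / m a) • Pi.single a 1, ?_⟩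
    rw [map_smul, hφa, smul_eq_mul, div_mul_cancel₀ _ ha']
  have hrank := φ.finrank_range_add_finrank_ker
  rw [hsurj, finrank_top, Module.finrank_self, Module.finrank_fin_fun] at hrank
  have hker : finrank k (LinearMap.ker φ) = 2 := by omega
  -- a second vector
  obtain ⟨y1, hy1, hy1'⟩ : ∃ y1 ∈ LinearMap.ker φ, y1 ∉ Submodule.span k {y0} := by
    by_contra hcon
    push Not at hcon
    have h1 : LinearMap.ker φ ≤ Submodule.span k {y0} := hcon
    have h2 := Submodule.finrank_mono h1
    rw [hker, finrank_span_singleton hy0] at h2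
    omega
  have hy1φ : φ y1 = 0 := hy1
  have hy0φ : φ y0 = 0 := by rw [hφ]; exact h
  have hli : LinearIndependent k ![y0, y1, Pi.single a 1] := by
    rw [Fintype.linearIndependent_iff]
    intro c hc
    rw [Fin.sum_univ_three] at hc
    simp only [Matrix.cons_val] at hc
    have h1 := congrArg φ hc
    rw [map_add, map_add, map_smul, map_smul, map_smul, hy0φ, hy1φ, hφa, map_zero, smul_zero,
      smul_zero, zero_add, zero_add, smul_eq_mul] at h1
    have h2 : c 2 = 0 := (mul_eq_zero.1 h1).resolve_right ha'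
    rw [h2, zero_smul, add_zero] at hc
    have h3 : c 1 = 0 := by
      by_contra h3
      apply hy1'
      rw [Submodule.mem_span_singleton]
      refine ⟨-(c 1)⁻¹ * c 0, ?_⟩
      funext i
      have h5 := congrFun hc i
      simp only [Pi.add_apply, Pi.smul_apply, smul_eq_mul, Pi.zero_apply] at h5 ⊢
      field_simp
      linear_combination -h5
    rw [h3, zero_smul, add_zero] at hc
    have h4 : c 0 = 0 := (smul_eq_zero.1 hc).resolve_right hy0
    intro i
    fin_cases i
    · exact h4
    · exact h3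
    · exact h2
  let b := basisOfLinearIndependentOfCardEqFinrank hli (by simp)
  have hb : ∀ i, b i = ![y0, y1, Pi.single a 1] i := fun i => by
    simp [b]
  refine ⟨y1, fun j => b.repr (Pi.single j 1) 0, fun j => b.repr (Pi.single j 1) 1, ?_, ?_, ?_⟩
  · intro c h0
    apply hy1'
    rw [Submodule.mem_span_singleton]
    exact ⟨c, h0⟩
  · rw [← hφ]
    exact hy1φ
  · intro x hx
    have hx' : x = ∑ j, x j • (Pi.single j (1 : k) : Fin 3 → k) := by
      conv_lhs => rw [pi_eq_sum_univ' x]
    have hrep : ∀ r, b.repr x r = ∑ j, b.repr (Pi.single j 1) r * x j := by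
      intro r
      conv_lhs => rw [hx']
      rw [map_sum, Finsupp.finsetSum_apply]
      refine Finset.sum_congr rfl fun j _ => ?_
      rw [map_smul, Finsupp.smul_apply, smul_eq_mul, mul_comm]
    have hsum := b.sum_repr x
    rw [Fin.sum_univ_three, hb, hb, hb] at hsum
    simp only [Matrix.cons_val] at hsum
    have h1 := congrArg φ hsum
    rw [map_add, map_add, map_smul, map_smul, map_smul, hy0φ, hy1φ, hφa, smul_zero,
      smul_zero, zero_add, zero_add, smul_eq_mul, hφ x, hx] at h1
    have h2 : b.repr x 2 = 0 := (mul_eq_zero.1 h1).resolve_right ha'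
    rw [h2, zero_smul, add_zero] at hsum
    rw [← hrep, ← hrep]
    conv_lhs => rw [← hsum]
    rfl

section onk

variable {k : Type} [Field k] [NumberField k]

theorem liouS (v : Pl k) {n : ℕ} (G : MvPolynomial (Fin n) k) (e : ℕ) (hG : G.IsHomogeneous e) :
    ∃ C : ℝ, 0 ≤ C ∧ ∀ x : Fin n → k, x ≠ 0 → eval x G ≠ 0 →
      wt v * lam (av v) e G x ≤ e * logHeight x + C := by
  obtain ⟨C, hC0, hC⟩ := liou G e hG
  refine ⟨C, hC0, fun x hx hGx => ?_⟩
  have h1 := hC {v} x hx hGx
  rw [Finset.sum_singleton] at h1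
  have h3 := mul_le_mul_of_nonneg_left (le_max_right 0 (lam (av v) e G x)) (wt_nonneg v)
  linarith

/-- a conic which is not tangent to the line at its point `y0` -/
theorem conicSplit (v : Pl k) {Q : MvPolynomial (Fin 3) k} (hQ : Q.IsHomogeneous 2)
    (m y0 y1 S N : Fin 3 → k) (hy0 : y0 ≠ 0)
    (hfr : ∀ x : Fin 3 → k, ∑ j, m j * x j = 0 →
        x = fun b => (∑ j, S j * x j) * y0 b + (∑ j, N j * x j) * y1 b)
    (hQy : eval y0 Q = 0) (hB : ∑ b, tg y0 Q b * y1 b ≠ 0) :
    ∃ C : ℝ, 0 ≤ C ∧ ∀ x : Fin 3 → k, x ≠ 0 → ∑ j, m j * x j = 0 → eval x Q ≠ 0 →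
      wt v * lam (av v) 2 Q x ≤ logHeight x + C := by
  classical
  set B : k := ∑ b, tg y0 Q b * y1 b with hBdef
  set g := av v with hg
  set N' : Fin 3 → k := fun j => S j * B + N j * eval y1 Q with hN'
  obtain ⟨C1, hC10, hC1⟩ := liouS v (lff N) 1 (lff_hom N)
  obtain ⟨C2, hC20, hC2⟩ := liouS v (lff N') 1 (lff_hom N')
  have hgB : 0 < g B := g.pos_iff.2 hB
  set C' : ℝ := nrm g y0 * ((1 + g (eval y1 Q)) / g B) + nrm g y1 with hC'
  have hC'0 : 0 < C' := by
    have h1 := nrm_pos g hy0
    have h2 := nrm_nonneg g y1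
    have h3 := g.nonneg (eval y1 Q)
    positivity
  have hw := wt_nonneg v
  refine ⟨C1 + C2 + wt v * |Real.log C'|, by positivity, fun x hx hmx hQx => ?_⟩
  set s : k := ∑ j, S j * x j with hs
  set t : k := ∑ j, N j * x j with ht
  set n' : k := ∑ j, N' j * x j with hn'
  have hfx := hfr x hmx
  have hn'2 : n' = s * B + t * eval y1 Q := by
    rw [hn', hN', hs, ht]
    simp only [add_mul, Finset.sum_add_distrib, Finset.sum_mul]
    congr 1
    · exact Finset.sum_congr rfl fun j _ => by ring
    · exact Finset.sum_congr rfl fun j _ => by ring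
  have hQ2 : eval x Q = t * n' := by
    have h1 := quad_add hQ y0 y1 s t
    rw [← hfx, hQy, ← hBdef] at h1
    rw [h1, hn'2]
    ring
  have ht0 : t ≠ 0 := by
    intro h
    rw [hQ2, h, zero_mul] at hQx
    exact hQx rfl
  have hn0 : n' ≠ 0 := by
    intro h
    rw [hQ2, h, mul_zero] at hQx
    exact hQx rfl
  have hgt := g.pos_iff.2 ht0
  have hgn := g.pos_iff.2 hn0
  have hnx := nrm_pos g hx
  have hbound : nrm g x ≤ C' * max (g t) (g n') := by
    have hm0 : 0 ≤ max (g t) (g n') := (g.nonneg _).trans (le_max_left _ _)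
    refine nrm_le (by positivity) fun b => ?_
    have e1 : x b = s * y0 b + t * y1 b := congrFun hfx b
    have e2 : s = (n' - t * eval y1 Q) / B := by
      rw [hn'2]
      field_simp
      ring
    have e3 : g s ≤ (1 + g (eval y1 Q)) / g B * max (g t) (g n') := by
      rw [e2, map_div₀, div_mul_eq_mul_div]
      refine div_le_div_of_nonneg_right ?_ hgB.le
      have h1 : g (n' - t * eval y1 Q) ≤ g n' + g t * g (eval y1 Q) := by
        rw [sub_eq_add_neg]
        refine (g.add_le _ _).trans (le_of_eq ?_)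
        rw [g.map_neg, map_mul]
      have h2 := le_max_left (g t) (g n')
      have h3 := le_max_right (g t) (g n')
      have h4 : g t * g (eval y1 Q) ≤ max (g t) (g n') * g (eval y1 Q) :=
        mul_le_mul_of_nonneg_right h2 (g.nonneg _)
      linarith
    have e4 : g (x b) ≤ g s * g (y0 b) + g t * g (y1 b) := by
      rw [e1]
      refine (g.add_le _ _).trans (le_of_eq ?_)
      rw [map_mul, map_mul]
    have e5 : g s * g (y0 b) ≤ (1 + g (eval y1 Q)) / g B * max (g t) (g n') * nrm g y0 :=
      mul_le_mul e3 (le_nrm g y0 b) (g.nonneg _) ((g.nonneg s).trans e3)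
    have e6 : g t * g (y1 b) ≤ max (g t) (g n') * nrm g y1 :=
      mul_le_mul (le_max_left _ _) (le_nrm g y1 b) (g.nonneg _) hm0
    calc g (x b) ≤ _ := e4
      _ ≤ (1 + g (eval y1 Q)) / g B * max (g t) (g n') * nrm g y0 + max (g t) (g n') * nrm g y1 :=
        add_le_add e5 e6
      _ = C' * max (g t) (g n') := by rw [hC']; ring
  have hlog : Real.log (nrm g x) ≤ Real.log C' + Real.log (max (g t) (g n')) := by
    rw [← Real.log_mul hC'0.ne' (lt_max_of_lt_left hgt).ne']
    exact Real.log_le_log hnx hbound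
  have hNt : eval x (lff N) ≠ 0 := by
    rw [eval_lff]
    exact ht0
  have hNn : eval x (lff N') ≠ 0 := by
    rw [eval_lff]
    exact hn0
  have h1 := hC1 x hx hNt
  have h2 := hC2 x hx hNn
  rw [lam_eq g _ _ hx hNt, eval_lff, ← ht] at h1
  rw [lam_eq g _ _ hx hNn, eval_lff, ← hn'] at h2
  rw [lam_eq g _ _ hx hQx, hQ2, map_mul, Real.log_mul hgt.ne' hgn.ne']
  push_cast at h1 h2 ⊢
  rw [one_mul] at h1 h2
  have habs := le_abs_self (Real.log C')
  rcases le_total (g t) (g n') with h | h
  · rw [max_eq_right h] at hlog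
    have h3 : wt v * (2 * Real.log (nrm g x) - (Real.log (g t) + Real.log (g n'))) ≤
        wt v * (Real.log (nrm g x) - Real.log (g t) + |Real.log C'|) :=
      mul_le_mul_of_nonneg_left (by linarith) hw
    rw [mul_add] at h3
    linarith
  · rw [max_eq_left h] at hlog
    have h3 : wt v * (2 * Real.log (nrm g x) - (Real.log (g t) + Real.log (g n'))) ≤
        wt v * (Real.log (nrm g x) - Real.log (g n') + |Real.log C'|) :=
      mul_le_mul_of_nonneg_left (by linarith) hw
    rw [mul_add] at h3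
    linarith

end onk

section big

variable {k K : Type} [Field k] [NumberField k] [Field K] [NumberField K] [Algebra k K]

theorem nrm_up {v : Pl k} {f : AbsoluteValue K ℝ} (hf : Good v f) {n : ℕ} (x : Fin n → k) :
    nrm f (up K x) = nrm (av v) x := hf.nrm_ext x

theorem eval_up {n : ℕ} (Q : MvPolynomial (Fin n) k) (x : Fin n → k) :
    eval (up K x) (map (algebraMap k K) Q) = algebraMap k K (eval x Q) := by
  have h := eval₂_comp_left (algebraMap k K) (RingHom.id k) x Q
  rw [eval_map]
  exact h.symm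

theorem lam_up {v : Pl k} {f : AbsoluteValue K ℝ} (hf : Good v f) {n : ℕ} (e : ℕ)
    (Q : MvPolynomial (Fin n) k) {x : Fin n → k} (hx : x ≠ 0) (hQx : eval x Q ≠ 0) :
    lam f e (map (algebraMap k K) Q) (up K x) = lam (av v) e Q x := by
  have h1 : eval (up K x) (map (algebraMap k K) Q) ≠ 0 := by
    rw [eval_up, Ne, map_eq_zero]
    exact hQx
  rw [lam_eq f _ _ (up_ne hx) h1, lam_eq _ _ _ hx hQx, eval_up, hf.ext, nrm_up hf]

/-- a linear form vanishing at a rational point of the line -/
theorem lineAt (v : Pl k) (f : AbsoluteValue K ℝ) (hf : Good v f) {F : MvPolynomial (Fin 3) K}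
    (hF : F.IsHomogeneous 1) (m y0 y1 S N : Fin 3 → k)
    (hfr : ∀ x : Fin 3 → k, ∑ j, m j * x j = 0 →
        x = fun b => (∑ j, S j * x j) * y0 b + (∑ j, N j * x j) * y1 b)
    (hFy : eval (up K y0) F = 0) :
    ∃ C : ℝ, 0 ≤ C ∧ ∀ x : Fin 3 → k, x ≠ 0 → ∑ j, m j * x j = 0 → eval (up K x) F ≠ 0 →
      wt v * lam f 1 F (up K x) ≤ logHeight x + C := by
  classical
  obtain ⟨C1, hC10, hC1⟩ := liouS v (lff N) 1 (lff_hom N)
  have hw := wt_nonneg v
  refine ⟨C1 + wt v * |Real.log (f (eval (up K y1) F))|, by positivity,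
    fun x hx hmx hFx => ?_⟩
  set t : k := ∑ j, N j * x j with ht
  have hfx := hfr x hmx
  have hev : eval (up K x) F = algebraMap k K t * eval (up K y1) F := by
    have hlin : ∀ z : Fin 3 → K, eval z F = ∑ j, tg 0 F j * z j := by
      intro z
      rw [← eval_lff, lff_tg hF]
    have h1 : ∀ j, up K x j = algebraMap k K (∑ j, S j * x j) * up K y0 j +
        algebraMap k K t * up K y1 j := by
      intro j
      have := congrFun hfx j
      show algebraMap k K (x j) = _
      rw [this, map_add, map_mul, map_mul]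
      rfl
    rw [hlin] at hFy
    rw [hlin (up K x), hlin (up K y1)]
    simp only [h1, mul_add, Finset.sum_add_distrib]
    have h2 : ∑ j, tg 0 F j * (algebraMap k K (∑ j, S j * x j) * up K y0 j) =
        algebraMap k K (∑ j, S j * x j) * ∑ j, tg 0 F j * up K y0 j := by
      rw [Finset.mul_sum]
      exact Finset.sum_congr rfl fun j _ => by ring
    rw [h2, hFy, mul_zero, zero_add, Finset.mul_sum]
    exact Finset.sum_congr rfl fun j _ => by ring
  have ht0 : t ≠ 0 := by
    intro h
    rw [hev, h, map_zero, zero_mul] at hFx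
    exact hFx rfl
  have hy1 : eval (up K y1) F ≠ 0 := by
    intro h
    rw [hev, h, mul_zero] at hFx
    exact hFx rfl
  have hNt : eval x (lff N) ≠ 0 := by
    rw [eval_lff]
    exact ht0
  have h1 := hC1 x hx hNt
  rw [lam_eq _ _ _ hx hNt, eval_lff, ← ht] at h1
  rw [lam_eq f _ _ (up_ne hx) hFx, hev, map_mul, hf.ext, nrm_up hf,
    Real.log_mul ((av v).pos_iff.2 ht0).ne' (f.pos_iff.2 hy1).ne']
  push_cast at h1 ⊢
  rw [one_mul] at h1 ⊢
  rw [one_mul] at h1
  have h3 : wt v * (Real.log (nrm (av v) x) - (Real.log (av v t) +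
      Real.log (f (eval (up K y1) F)))) ≤
      wt v * (Real.log (nrm (av v) x) - Real.log (av v t) +
        |Real.log (f (eval (up K y1) F))|) := by
    refine mul_le_mul_of_nonneg_left ?_ hw
    have := neg_abs_le (Real.log (f (eval (up K y1) F)))
    linarith
  rw [mul_add] at h3
  linarith

/-- Roth's theorem on a line -/
theorem rothLine [IsGalois ℚ K] (hi : ∃ z : K, z ^ 2 = -1) (v : Pl k)
    (f : AbsoluteValue K ℝ) (hf : Good v f) (m : Fin 3 → k) (a : Fin 3) (ha : m a ≠ 0)
    {F : MvPolynomial (Fin 3) K} (hF : F.IsHomogeneous 1) (ε : ℝ) (hε : 0 < ε) :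
    ∃ (Z : Finset (Fin 2 → K)) (C : ℝ), 0 ≤ C ∧ (∀ d ∈ Z, d ≠ 0) ∧ ∀ x : Fin 3 → k, x ≠ 0 →
      ∑ j, m j * x j = 0 → (∀ d ∈ Z, ∑ i, d i * algebraMap k K (x (a.succAbove i)) ≠ 0) →
      eval (up K x) F ≠ 0 → wt v * lam f 1 F (up K x) ≤ (2 + ε) * logHeight x + C := by
  classical
  have hw := wt_nonneg v
  set g := tg 0 F with hg
  have hlin : ∀ z : Fin 3 → K, eval z F = ∑ j, g j * z j := by
    intro z
    rw [← eval_lff, lff_tg hF]
  set g' : Fin 2 → K := fun i => g (a.succAbove i) -
    g a * algebraMap k K (m (a.succAbove i) / m a) with hg'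
  have hxa : ∀ x : Fin 3 → k, ∑ j, m j * x j = 0 →
      x a = -∑ i, m (a.succAbove i) / m a * x (a.succAbove i) := by
    intro x hmx
    rw [Fin.sum_univ_succAbove _ a] at hmx
    have h1 : ∑ i, m (a.succAbove i) / m a * x (a.succAbove i) =
        (∑ i, m (a.succAbove i) * x (a.succAbove i)) / m a := by
      rw [Finset.sum_div]
      exact Finset.sum_congr rfl fun i _ => by ring
    rw [h1]
    field_simp
    linear_combination hmx
  have hev : ∀ x : Fin 3 → k, ∑ j, m j * x j = 0 →
      eval (up K x) F = ∑ i, g' i * algebraMap k K (x (a.succAbove i)) := by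
    intro x hmx
    rw [hlin, Fin.sum_univ_succAbove _ a]
    show g a * algebraMap k K (x a) + _ = _
    rw [hxa x hmx, map_neg, map_sum, hg']
    simp only [sub_mul, Finset.sum_sub_distrib]
    have h1 : g a * -∑ i, algebraMap k K (m (a.succAbove i) / m a * x (a.succAbove i)) =
        -∑ i, g a * algebraMap k K (m (a.succAbove i) / m a) *
          algebraMap k K (x (a.succAbove i)) := by
      rw [mul_neg, Finset.mul_sum]
      congr 1
      exact Finset.sum_congr rfl fun i _ => by rw [map_mul]; ring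
    rw [h1]
    show _ + ∑ i, g (a.succAbove i) * algebraMap k K (x (a.succAbove i)) = _
    ring
  by_cases hg0 : g' = 0
  · refine ⟨∅, 0, le_rfl, fun d hd => absurd hd (Finset.notMem_empty _),
      fun x hx hmx _ hFx => ?_⟩
    exfalso
    apply hFx
    rw [hev x hmx, hg0]
    simp
  · obtain ⟨Z, C, hZ, hC⟩ := schLine hi v f hf g' hg0 ε hε
    set C0 : ℝ := 1 + ∑ i : Fin 2, av v (m (a.succAbove i) / m a) with hC0
    have hC01 : 1 ≤ C0 := by
      have : 0 ≤ ∑ i : Fin 2, av v (m (a.succAbove i) / m a) :=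
        Finset.sum_nonneg fun _ _ => (av v).nonneg _
      linarith
    refine ⟨Z, |C| + wt v * Real.log C0, add_nonneg (abs_nonneg _)
      (mul_nonneg hw (Real.log_nonneg hC01)), hZ, fun x hx hmx hZx hFx => ?_⟩
    set w : Fin 2 → k := fun i => x (a.succAbove i) with hwdef
    have hw0 : w ≠ 0 := by
      intro h
      apply hx
      funext j
      by_cases hj : j = a
      · rw [hj, hxa x hmx]
        have h1 : ∀ i, x (a.succAbove i) = 0 := fun i => congrFun h i
        simp [h1]
      · obtain ⟨i, rfl⟩ := Fin.exists_succAbove_eq hj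
        exact congrFun h i
    have h1 := hC w hw0 hZx
    have hnx := nrm_pos (av v) hx
    have hnw := nrm_pos (av v) hw0
    have hle : nrm (av v) x ≤ C0 * nrm (av v) w := by
      refine nrm_le (by positivity) fun j => ?_
      by_cases hj : j = a
      · rw [hj, hxa x hmx, (av v).map_neg]
        have h2 : av v (∑ i, m (a.succAbove i) / m a * x (a.succAbove i)) ≤
            ∑ i : Fin 2, av v (m (a.succAbove i) / m a) * nrm (av v) w := by
          refine ((av v).sum_le _ _).trans (Finset.sum_le_sum fun i _ => ?_)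
          rw [map_mul]
          exact mul_le_mul_of_nonneg_left (le_nrm (av v) w i) ((av v).nonneg _)
        rw [← Finset.sum_mul] at h2
        refine h2.trans (mul_le_mul_of_nonneg_right ?_ hnw.le)
        linarith
      · obtain ⟨i, rfl⟩ := Fin.exists_succAbove_eq hj
        have h2 := le_nrm (av v) w i
        have h3 : nrm (av v) w ≤ C0 * nrm (av v) w := le_mul_of_one_le_left hnw.le hC01
        exact h2.trans h3
    have hlog : Real.log (nrm (av v) x) ≤ Real.log C0 + Real.log (nrm (av v) w) := by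
      rw [← Real.log_mul (by positivity) hnw.ne']
      exact Real.log_le_log hnx hle
    have hgw : ∑ i, g' i * algebraMap k K (w i) ≠ 0 := by
      rw [hev x hmx] at hFx
      exact hFx
    rw [lam_lff hf _ hw0 hgw] at h1
    rw [lam_eq f _ _ (up_ne hx) hFx, hev x hmx, nrm_up hf, Nat.cast_one, one_mul]
    have hhle : logHeight w ≤ logHeight x := logHeight_comp_le a.succAbove x
    have h3 : wt v * (Real.log (nrm (av v) x) -
        Real.log (f (∑ i, g' i * algebraMap k K (x (a.succAbove i))))) ≤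
        wt v * (Real.log (nrm (av v) w) -
        Real.log (f (∑ i, g' i * algebraMap k K (w i))) + Real.log C0) :=
      mul_le_mul_of_nonneg_left (by
        have : ∑ i, g' i * algebraMap k K (x (a.succAbove i)) =
          ∑ i, g' i * algebraMap k K (w i) := rfl
        rw [this]
        linarith) hw
    rw [mul_add] at h3
    have h4 : (2 + ε) * logHeight w ≤ (2 + ε) * logHeight x :=
      mul_le_mul_of_nonneg_left hhle (by linarith)
    have := le_abs_self C
    push_cast at h1
    linarith

theorem combine (f : AbsoluteValue K ℝ) (w : ℝ) (hw : 0 ≤ w) {q : ℕ}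
    (F : Fin q → MvPolynomial (Fin 3) K)
    (d : Fin q → ℕ) (hF : ∀ i, (F i).IsHomogeneous (d i)) (hS : SNC F) :
    ∃ B' : ℝ, 0 ≤ B' ∧ ∀ x : Fin 3 → K, x ≠ 0 → (∀ i, eval x (F i) ≠ 0) → ∀ R : ℝ, 0 ≤ R →
      (∀ i, w * lam f (d i) (F i) x ≤ R) →
      (∀ i j, i ≠ j → w * (lam f (d i) (F i) x + lam f (d j) (F j) x) ≤ R) →
      w * ∑ i, lam f (d i) (F i) x ≤ R + B' := by
  classical
  have htrip : ∀ i j l, ∃ B : ℝ, i ≠ j → i ≠ l → j ≠ l → ∀ x : Fin 3 → K, x ≠ 0 →
      (∀ i, eval x (F i) ≠ 0) → min (lam f (d i) (F i) x) (min (lam f (d j) (F j) x)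
        (lam f (d l) (F l) x)) ≤ B := by
    intro i j l
    by_cases hd3 : i ≠ j ∧ i ≠ l ∧ j ≠ l
    · obtain ⟨B, hB⟩ := min_lam (by norm_num : 0 < 3)
        (![F i, F j, F l] : Fin 3 → MvPolynomial (Fin 3) K) ![d i, d j, d l] (by
          intro l'
          fin_cases l'
          · exact hF i
          · exact hF j
          · exact hF l) (by
          intro L _ _ x hx
          exact no_triple hF hS hd3.1 hd3.2.1 hd3.2.2 L x (hx 0) (hx 1) (hx 2)) f
      refine ⟨B, fun _ _ _ x hx hFx => ?_⟩
      obtain ⟨l', hl⟩ := hB x hx (by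
        intro l'
        fin_cases l'
        · exact hFx i
        · exact hFx j
        · exact hFx l)
      fin_cases l'
      · exact (min_le_left _ _).trans hl
      · exact ((min_le_right _ _).trans (min_le_left _ _)).trans hl
      · exact ((min_le_right _ _).trans (min_le_right _ _)).trans hl
    · exact ⟨0, fun h1 h2 h3 => absurd ⟨h1, h2, h3⟩ hd3⟩
  choose B3 hB3 using htrip
  set B' : ℝ := ∑ i, ∑ j, ∑ l, |B3 i j l| with hB'def
  have hB'n : 0 ≤ B' := Finset.sum_nonneg fun _ _ => Finset.sum_nonneg fun _ _ =>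
    Finset.sum_nonneg fun _ _ => abs_nonneg _
  refine ⟨q * (w * B'), by positivity, fun x hx hFx R hR h1 h2 => ?_⟩
  rw [Finset.mul_sum]
  refine sum_le_of_few (fun i => w * lam f (d i) (F i) x) (w * B') R (by positivity) hR ?_ h1 ?_
  · intro i j l hij hik hjk
    have h5 := hB3 i j l hij hik hjk x hx hFx
    have h6 : B3 i j l ≤ B' := by
      refine (le_abs_self _).trans ?_
      refine (Finset.single_le_sum (f := fun l => |B3 i j l|) (fun _ _ => abs_nonneg _)
        (Finset.mem_univ l)).trans ?_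
      refine (Finset.single_le_sum (f := fun j => ∑ l, |B3 i j l|)
        (fun _ _ => Finset.sum_nonneg fun _ _ => abs_nonneg _) (Finset.mem_univ j)).trans ?_
      exact Finset.single_le_sum (f := fun i => ∑ j, ∑ l, |B3 i j l|)
        (fun _ _ => Finset.sum_nonneg fun _ _ => Finset.sum_nonneg fun _ _ => abs_nonneg _)
        (Finset.mem_univ i)
    rw [← mul_min_of_nonneg _ _ hw, ← mul_min_of_nonneg _ _ hw]
    exact mul_le_mul_of_nonneg_left (h5.trans h6) hw
  · intro i j hij
    have := h2 i j hij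
    rw [mul_add] at this
    exact this

theorem hom_of_map {Q : MvPolynomial (Fin 3) k} {e : ℕ}
    (h : (map (algebraMap k K) Q).IsHomogeneous e) : Q.IsHomogeneous e := by
  intro m hm
  apply h
  rw [coeff_map, Ne, map_eq_zero]
  exact hm

/-- a component at a rational point of the line -/
theorem compAt (v : Pl k) (f : AbsoluteValue K ℝ) (hf : Good v f) {F : MvPolynomial (Fin 3) K}
    {d : ℕ} (hF : F.IsHomogeneous d)
    (hd : d = 1 ∨ (d = 2 ∧ ∃ Q : MvPolynomial (Fin 3) k, F = map (algebraMap k K) Q))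
    (m y0 y1 S N : Fin 3 → k) (hy0 : y0 ≠ 0)
    (hfr : ∀ x : Fin 3 → k, ∑ j, m j * x j = 0 →
        x = fun b => (∑ j, S j * x j) * y0 b + (∑ j, N j * x j) * y1 b)
    (hFy : eval (up K y0) F = 0) :
    (∃ C : ℝ, 0 ≤ C ∧ ∀ x : Fin 3 → k, x ≠ 0 → ∑ j, m j * x j = 0 → eval (up K x) F ≠ 0 →
      wt v * lam f d F (up K x) ≤ logHeight x + C) ∨
    (d = 2 ∧ ∑ b, tg (up K y0) F b * up K y1 b = 0) := by
  classical
  rcases hd with rfl | ⟨rfl, Q, rfl⟩
  · exact Or.inl (lineAt v f hf hF m y0 y1 S N hfr hFy)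
  · have hQ : Q.IsHomogeneous 2 := hom_of_map hF
    rw [eval_up, map_eq_zero] at hFy
    by_cases hB : ∑ b, tg y0 Q b * y1 b = 0
    · right
      refine ⟨rfl, ?_⟩
      have h1 : ∀ b, tg (up K y0) (map (algebraMap k K) Q) b = algebraMap k K (tg y0 Q b) := by
        intro b
        unfold tg
        rw [pderiv_map, eval_up]
      simp only [h1]
      have h2 : ∑ b, algebraMap k K (tg y0 Q b) * up K y1 b =
          algebraMap k K (∑ b, tg y0 Q b * y1 b) := by
        rw [map_sum]
        exact Finset.sum_congr rfl fun b _ => by rw [map_mul]; rfl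
      rw [h2, hB, map_zero]
    · left
      obtain ⟨C, hC0, hC⟩ := conicSplit v hQ m y0 y1 S N hy0 hfr hFy hB
      refine ⟨C, hC0, fun x hx hmx hFx => ?_⟩
      have hQx : eval x Q ≠ 0 := by
        intro h
        apply hFx
        rw [eval_up, h, map_zero]
      rw [lam_up hf 2 Q hx hQx]
      exact hC x hx hmx hQx

/-- the main inequality on a line without irrational nodes -/
theorem onLine [IsGalois ℚ K] (hi : ∃ z : K, z ^ 2 = -1) (v : Pl k)
    (f : AbsoluteValue K ℝ) (hf : Good v f) {q : ℕ} (F : Fin q → MvPolynomial (Fin 3) K)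
    (d : Fin q → ℕ) (hF : ∀ i, (F i).IsHomogeneous (d i)) (hS : SNC F)
    (hd : ∀ i, d i = 1 ∨ (d i = 2 ∧ ∃ Q : MvPolynomial (Fin 3) k, F i = map (algebraMap k K) Q))
    (P : Finset (Fin 3 → K)) (hP : ∀ y ∈ P, y ≠ 0)
    (hcr : ∀ i j, i ≠ j → ∀ (L : Type) [Field L] [Algebra K L] (x : Fin 3 → L), x ≠ 0 →
      aeval x (F i) = 0 → aeval x (F j) = 0 → ∃ y ∈ P, ∃ c : L, x = c • fun b => algebraMap K L (y b))
    (m : Fin 3 → k) (a : Fin 3) (ha : m a ≠ 0)
    (hnode : ∀ y ∈ P, ∀ i j, i ≠ j → eval y (F i) = 0 → eval y (F j) = 0 →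
      ∑ b, algebraMap k K (m b) * y b = 0 → ∃ (y0 : Fin 3 → k) (c : K), y = c • up K y0)
    (ε : ℝ) (hε : 0 < ε) :
    ∃ (Z : Finset (Fin 2 → K)) (C : ℝ), (∀ d ∈ Z, d ≠ 0) ∧ ∀ x : Fin 3 → k, x ≠ 0 →
      ∑ j, m j * x j = 0 → (∀ d ∈ Z, ∑ i, d i * algebraMap k K (x (a.succAbove i)) ≠ 0) →
      (∀ i, eval (up K x) (F i) ≠ 0) →
      wt v * ∑ i, lam f (d i) (F i) (up K x) ≤ (3 + ε) * logHeight x + C := by
  classical
  have hw := wt_nonneg v
  have hm0 : m ≠ 0 := fun h => ha (congrFun h a)
  -- one component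
  have hsing : ∀ i, ∃ (Z : Finset (Fin 2 → K)) (C : ℝ), 0 ≤ C ∧ (∀ d ∈ Z, d ≠ 0) ∧
      ∀ x : Fin 3 → k, x ≠ 0 → ∑ j, m j * x j = 0 →
      (∀ d ∈ Z, ∑ i, d i * algebraMap k K (x (a.succAbove i)) ≠ 0) →
      eval (up K x) (F i) ≠ 0 →
      (d i = 2 → wt v * lam f (d i) (F i) (up K x) ≤ 2 * logHeight x + C) ∧
      wt v * lam f (d i) (F i) (up K x) ≤ (3 + ε) * logHeight x + C := by
    intro i
    rcases hd i with h | ⟨h, Q, hQ⟩
    · have hF1 : (F i).IsHomogeneous 1 := h ▸ hF i
      obtain ⟨Z, C, hC0, hZ, hC⟩ := rothLine hi v f hf m a ha hF1 ε hε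
      refine ⟨Z, C, hC0, hZ, fun x hx hmx hZx hFx => ⟨fun h' => by omega, ?_⟩⟩
      have h1 := hC x hx hmx hZx hFx
      have := logHeight_nonneg x
      rw [h]
      linarith
    · have hQhom : Q.IsHomogeneous 2 := hom_of_map (K := K) (by rw [← hQ, ← h]; exact hF i)
      obtain ⟨C, hC0, hC⟩ := liouS v Q 2 hQhom
      refine ⟨∅, C, hC0, fun d hd => absurd hd (Finset.notMem_empty _),
        fun x hx _ _ hFx => ?_⟩
      rw [hQ] at hFx ⊢
      have hQx : eval x Q ≠ 0 := by
        intro h0
        apply hFx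
        rw [eval_up, h0, map_zero]
      rw [h, lam_up hf 2 Q hx hQx]
      have h1 := hC x hx hQx
      have h4 := logHeight_nonneg x
      have h5 : 0 ≤ ε * logHeight x := mul_nonneg hε.le h4
      push_cast at h1
      exact ⟨fun _ => h1, by linarith⟩
  choose Z1 C1 hC10 hZ1 hC1 using hsing
  set CC : ℝ := ∑ i, C1 i with hCC
  have hCC0 : 0 ≤ CC := Finset.sum_nonneg fun i _ => hC10 i
  have hCCle : ∀ i, C1 i ≤ CC := fun i =>
    Finset.single_le_sum (f := C1) (fun i _ => hC10 i) (Finset.mem_univ i)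
  -- pairs
  have hpair : ∀ i j, ∃ C : ℝ, 0 ≤ C ∧ (i ≠ j →
      ∀ x : Fin 3 → k, x ≠ 0 → ∑ j, m j * x j = 0 →
      eval (up K x) (F i) ≠ 0 → eval (up K x) (F j) ≠ 0 →
      (d i = 2 → wt v * lam f (d i) (F i) (up K x) ≤ 2 * logHeight x + CC) →
      (d j = 2 → wt v * lam f (d j) (F j) (up K x) ≤ 2 * logHeight x + CC) →
      (wt v * lam f (d i) (F i) (up K x) ≤ (3 + ε) * logHeight x + CC) →
      (wt v * lam f (d j) (F j) (up K x) ≤ (3 + ε) * logHeight x + CC) →
      wt v * (lam f (d i) (F i) (up K x) + lam f (d j) (F j) (up K x)) ≤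
        (3 + ε) * logHeight x + C) := by
    intro i j
    by_cases hij : i = j
    · exact ⟨0, le_rfl, fun h => absurd hij h⟩
    by_cases hy : ∃ y ∈ P, eval y (F i) = 0 ∧ eval y (F j) = 0 ∧
        ∑ b, algebraMap k K (m b) * y b = 0
    · -- a common rational zero on the line
      obtain ⟨y, hyP, hyi, hyj, hym⟩ := hy
      obtain ⟨y0, c, hyc⟩ := hnode y hyP i j hij hyi hyj hym
      have hc0 : c ≠ 0 := by
        rintro rfl
        apply hP y hyP
        rw [hyc, zero_smul]
      have hy00 : y0 ≠ 0 := by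
        rintro rfl
        apply hP y hyP
        rw [hyc]
        funext b
        simp [up]
      have hev : ∀ l, eval y (F l) = 0 → eval (up K y0) (F l) = 0 := by
        intro l hl
        rw [hyc, Pool.Agent.W180.OP.eval_smul_hom _ (hF l)] at hl
        exact (mul_eq_zero.1 hl).resolve_left (pow_ne_zero _ hc0)
      have hmy0 : ∑ j, m j * y0 j = 0 := by
        have h1 : c * algebraMap k K (∑ j, m j * y0 j) = 0 := by
          rw [← hym, hyc, map_sum, Finset.mul_sum]
          refine Finset.sum_congr rfl fun b _ => ?_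
          rw [map_mul, Pi.smul_apply, smul_eq_mul]
          show _ = _ * (c * algebraMap k K (y0 b))
          ring
        have h2 := (mul_eq_zero.1 h1).resolve_left hc0
        rwa [map_eq_zero] at h2
      obtain ⟨y1, S, N, hy1, hmy1, hfr⟩ := exists_frame m y0 hm0 hy00 hmy0
      have hcase : (∃ C : ℝ, 0 ≤ C ∧ ∀ x : Fin 3 → k, x ≠ 0 → ∑ j, m j * x j = 0 →
          eval (up K x) (F i) ≠ 0 → wt v * lam f (d i) (F i) (up K x) ≤ logHeight x + C) ∨
          (∃ C : ℝ, 0 ≤ C ∧ ∀ x : Fin 3 → k, x ≠ 0 → ∑ j, m j * x j = 0 →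
          eval (up K x) (F j) ≠ 0 → wt v * lam f (d j) (F j) (up K x) ≤ logHeight x + C) := by
        rcases compAt v f hf (hF i) (hd i) m y0 y1 S N hy00 hfr (hev i hyi) with h | ⟨_, hti⟩
        · exact Or.inl h
        rcases compAt v f hf (hF j) (hd j) m y0 y1 S N hy00 hfr (hev j hyj) with h | ⟨_, htj⟩
        · exact Or.inr h
        exfalso
        have hup0 : up K y0 ≠ 0 := up_ne hy00
        obtain ⟨b0, hb0⟩ := Function.ne_iff.1 hy00
        have hb0' : y0 b0 ≠ 0 := hb0
        have hub0 : up K y0 b0 ≠ 0 := by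
          show algebraMap k K (y0 b0) ≠ 0
          rwa [Ne, map_eq_zero]
        have hli := hS.pair hij hup0 (hev i hyi) (hev j hyj)
        have hti0 := tg_self (hF i) (up K y0) (hev i hyi)
        have htj0 := tg_self (hF j) (up K y0) (hev j hyj)
        obtain ⟨B, _, hB⟩ := grad_bound f _ _ (up K y0) b0 hub0 hli (by
          rw [← hti0]
          exact Finset.sum_congr rfl fun b _ => mul_comm _ _) (by
          rw [← htj0]
          exact Finset.sum_congr rfl fun b _ => mul_comm _ _)
        set u : Fin 3 → K := fun b => up K y1 b - algebraMap k K (y1 b0 / y0 b0) * up K y0 b with hu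
        have hu0 : u b0 = 0 := by
          show algebraMap k K (y1 b0) - algebraMap k K (y1 b0 / y0 b0) * algebraMap k K (y0 b0) = 0
          rw [← map_mul, div_mul_cancel₀ _ hb0', sub_self]
        have hug : ∀ l, (∑ b, tg (up K y0) (F l) b * up K y0 b = 0) →
            (∑ b, tg (up K y0) (F l) b * up K y1 b = 0) →
            ∑ b, u b * eval (up K y0) (pderiv b (F l)) = 0 := by
          intro l h1 h2
          have h3 : ∑ b, u b * eval (up K y0) (pderiv b (F l)) =
              ∑ b, tg (up K y0) (F l) b * up K y1 b -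
              algebraMap k K (y1 b0 / y0 b0) * ∑ b, tg (up K y0) (F l) b * up K y0 b := by
            rw [Finset.mul_sum, ← Finset.sum_sub_distrib]
            refine Finset.sum_congr rfl fun b _ => ?_
            rw [hu]
            show _ * tg (up K y0) (F l) b = _
            ring
          rw [h3, h1, h2, mul_zero, sub_zero]
        have h4 := hB u hu0
        rw [hug i hti0 hti, hug j htj0 htj, map_zero, max_self, mul_zero] at h4
        have hune : u ≠ 0 := by
          intro h
          apply hy1 (y1 b0 / y0 b0)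
          funext b
          have h5 : algebraMap k K (y1 b) -
            algebraMap k K (y1 b0 / y0 b0) * algebraMap k K (y0 b) = 0 := congrFun h b
          rw [← map_mul, ← map_sub, map_eq_zero] at h5
          rw [Pi.smul_apply, smul_eq_mul]
          exact (sub_eq_zero.1 h5).symm
        exact absurd (nrm_pos f hune) (not_lt.2 h4)
      have htwo : ∀ l, ∃ C : ℝ, 0 ≤ C ∧ ∀ x : Fin 3 → k, x ≠ 0 → ∑ j, m j * x j = 0 →
          eval (up K x) (F l) ≠ 0 →
          (d l = 2 → wt v * lam f (d l) (F l) (up K x) ≤ 2 * logHeight x + CC) →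
          eval (up K y0) (F l) = 0 →
          wt v * lam f (d l) (F l) (up K x) ≤ 2 * logHeight x + C := by
        intro l
        by_cases hl0 : eval (up K y0) (F l) = 0
        · rcases compAt v f hf (hF l) (hd l) m y0 y1 S N hy00 hfr hl0 with
            ⟨C, hC0, hC⟩ | ⟨h2, _⟩
          · refine ⟨C, hC0, fun x hx hmx hFx _ _ => ?_⟩
            have := hC x hx hmx hFx
            have := logHeight_nonneg x
            linarith
          · exact ⟨CC, hCC0, fun x hx hmx hFx h _ => h h2⟩
        · exact ⟨0, le_rfl, fun x _ _ _ _ h => absurd h hl0⟩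
      obtain ⟨Ci, hCi0, hCi⟩ := htwo i
      obtain ⟨Cj, hCj0, hCj⟩ := htwo j
      rcases hcase with ⟨C, hC0, hC⟩ | ⟨C, hC0, hC⟩
      · refine ⟨C + Cj, by positivity, fun _ x hx hmx hFi hFj _ hj2 _ _ => ?_⟩
        have h1 := hC x hx hmx hFi
        have h2 := hCj x hx hmx hFj hj2 (hev j hyj)
        have h4 : 0 ≤ ε * logHeight x := mul_nonneg hε.le (logHeight_nonneg x)
        rw [mul_add]
        linarith
      · refine ⟨C + Ci, by positivity, fun _ x hx hmx hFi hFj hi2 _ _ _ => ?_⟩
        have h1 := hC x hx hmx hFj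
        have h2 := hCi x hx hmx hFi hi2 (hev i hyi)
        have h4 : 0 ≤ ε * logHeight x := mul_nonneg hε.le (logHeight_nonneg x)
        rw [mul_add]
        linarith
    · -- no common zero on the line
      push Not at hy
      obtain ⟨c, hc0, hc⟩ := not_small (by norm_num : 0 < 3)
        (![lff (up K m), F i, F j] : Fin 3 → MvPolynomial (Fin 3) K) ![1, d i, d j] (by
          intro l
          fin_cases l
          · exact lff_hom _
          · exact hF i
          · exact hF j) (by
          intro L _ _ x hx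
          by_contra hx0
          have h0 := hx 0
          have h1 := hx 1
          have h2 := hx 2
          simp only [Matrix.cons_val] at h0 h1 h2
          obtain ⟨y, hyP, c, hyc⟩ := hcr i j hij L x hx0 h1 h2
          have hc0 : c ≠ 0 := by
            rintro rfl
            apply hx0
            rw [hyc, zero_smul]
          have hz : ∀ {e : ℕ} (Q : MvPolynomial (Fin 3) K), Q.IsHomogeneous e →
              aeval x Q = 0 → eval y Q = 0 := by
            intro e Q hQ hQx
            rw [hyc, Pool.Agent.W180.OP.aeval_smul_hom _ hQ,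
              Pool.Agent.W180.OP.aeval_map_K] at hQx
            have := (mul_eq_zero.1 hQx).resolve_left (pow_ne_zero _ hc0)
            rwa [map_eq_zero] at this
          refine hy y hyP (hz _ (hF i) h1) (hz _ (hF j) h2) ?_
          have := hz _ (lff_hom _) h0
          rw [eval_lff] at this
          exact this) f
      refine ⟨CC + wt v * |Real.log c|, by positivity,
        fun _ x hx hmx hFi hFj _ _ hi3 hj3 => ?_⟩
      have hux := up_ne (K := K) hx
      have hnx := nrm_pos f hux
      have hkey : ∀ l, eval (up K x) (F l) ≠ 0 →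
          c * nrm f (up K x) ^ d l ≤ f (eval (up K x) (F l)) →
          lam f (d l) (F l) (up K x) ≤ |Real.log c| := by
        intro l hFl h
        have h1 := Real.log_le_log (by positivity) h
        rw [Real.log_mul hc0.ne' (pow_pos hnx _).ne', Real.log_pow] at h1
        rw [lam_eq f _ _ hux hFl]
        have := neg_abs_le (Real.log c)
        linarith
      obtain ⟨l, hl⟩ := hc (up K x) hux
      fin_cases l
      · exfalso
        have h1 : c * nrm f (up K x) ^ 1 ≤ f (eval (up K x) (lff (up K m))) := hl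
        have h2 : eval (up K x) (lff (up K m)) = 0 := by
          rw [eval_lff]
          have h3 : ∑ j, up K m j * up K x j = algebraMap k K (∑ j, m j * x j) := by
            rw [map_sum]
            exact Finset.sum_congr rfl fun j _ => by rw [map_mul]; rfl
          rw [h3, hmx, map_zero]
        rw [h2, map_zero, pow_one] at h1
        exact absurd (mul_pos hc0 hnx) (not_lt.2 h1)
      · have h1 := mul_le_mul_of_nonneg_left (hkey i hFi hl) hw
        rw [mul_add]
        linarith
      · have h1 := mul_le_mul_of_nonneg_left (hkey j hFj hl) hw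
        rw [mul_add]
        linarith
  choose C2 hC20 hC2 using hpair
  obtain ⟨B', hB'0, hB'⟩ := combine f (wt v) hw F d hF hS
  set D : ℝ := CC + ∑ i, ∑ j, C2 i j with hD
  have hD0 : 0 ≤ D := add_nonneg hCC0
    (Finset.sum_nonneg fun _ _ => Finset.sum_nonneg fun _ _ => hC20 _ _)
  refine ⟨Finset.univ.biUnion Z1, D + B', ?_, fun x hx hmx hZx hFx => ?_⟩
  · intro d hd
    obtain ⟨i, -, h⟩ := Finset.mem_biUnion.1 hd
    exact hZ1 i d h
  have hx0 := logHeight_nonneg x
  have hs : ∀ i, (d i = 2 → wt v * lam f (d i) (F i) (up K x) ≤ 2 * logHeight x + CC) ∧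
      wt v * lam f (d i) (F i) (up K x) ≤ (3 + ε) * logHeight x + CC := by
    intro i
    obtain ⟨h1, h2⟩ := hC1 i x hx hmx (fun d hd => hZx d
      (Finset.mem_biUnion.2 ⟨i, Finset.mem_univ _, hd⟩)) (hFx i)
    have := hCCle i
    exact ⟨fun h => by have := h1 h; linarith, by linarith⟩
  refine (hB' (up K x) (up_ne hx) hFx ((3 + ε) * logHeight x + D) (by positivity) ?_ ?_).trans
    (le_of_eq (by ring))
  · intro i
    have h5 := (hs i).2
    have g2 : 0 ≤ ∑ i, ∑ j, C2 i j :=
      Finset.sum_nonneg fun _ _ => Finset.sum_nonneg fun _ _ => hC20 _ _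
    linarith
  · intro i j hij
    have h5 := hC2 i j hij x hx hmx (hFx i) (hFx j) (hs i).1 (hs j).1 (hs i).2 (hs j).2
    have h6 : C2 i j ≤ ∑ i, ∑ j, C2 i j := by
      refine (Finset.single_le_sum (f := fun j => C2 i j) (fun _ _ => hC20 _ _)
        (Finset.mem_univ j)).trans ?_
      exact Finset.single_le_sum (f := fun i => ∑ j, C2 i j)
        (fun _ _ => Finset.sum_nonneg fun _ _ => hC20 _ _) (Finset.mem_univ i)
    linarith

end big

end Pool.Agent.R405
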