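import Mathlib
import Pool.Agent.H9.Lib.R_seed8.R405.HN

/-!
Bases adapted to a flag.
-/

set_option autoImplicit false
set_option linter.unusedSectionVars false

open Finset Module

namespace Pool.Agent.R405

variable {K : Type} [Field K]

theorem adapted0 {E : Type} [AddCommGroup E] [Module K E] [FiniteDimensional K E]
    (G : ℕ → Submodule K E) (hG : Monotone G) (N : ℕ) :
    ∃ (B : Set E) (t : E → ℕ), LinearIndepOn K id B ∧ (∀ b ∈ B, t b ≤ N) ∧
      ∀ s ≤ N, Submodule.span K {b | b ∈ B ∧ t b ≤ s} = G s := by
  classical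
  induction N with
  | zero =>
    obtain ⟨B, hB, -, hs, hi⟩ := exists_linearIndepOn_id_extension (K := K)
      (s := (∅ : Set E)) (t := (G 0 : Set E)) (linearIndepOn_empty K _) (Set.empty_subset _)
    refine ⟨B, fun _ => 0, hi, fun _ _ => le_rfl, fun s hs' => ?_⟩
    obtain rfl : s = 0 := by omega
    have h1 : {b | b ∈ B ∧ (0 : ℕ) ≤ 0} = B := by
      ext b; simp
    rw [h1]
    exact le_antisymm (Submodule.span_le.2 hB) hs
  | succ N ih =>
    obtain ⟨B, t, hi, ht, hs⟩ := ih
    have hBN : B ⊆ (G (N + 1) : Set E) := by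
      intro b hb
      have h1 : b ∈ G N := by
        rw [← hs N le_rfl]
        exact Submodule.subset_span ⟨hb, ht b hb⟩
      exact hG (Nat.le_succ N) h1
    obtain ⟨B', hB', hBB', hs', hi'⟩ := exists_linearIndepOn_id_extension (K := K) hi hBN
    refine ⟨B', fun b => if b ∈ B then t b else N + 1, hi', fun b _ => ?_, fun s hsN => ?_⟩
    · by_cases h : b ∈ B
      · simp only [h, if_true]; exact (ht b h).trans (Nat.le_succ N)
      · simp only [h, if_false]; exact le_rfl
    · rcases Nat.lt_or_ge N s with h | h
      · obtain rfl : s = N + 1 := by omega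
        have h1 : {b | b ∈ B' ∧ (if b ∈ B then t b else N + 1) ≤ N + 1} = B' := by
          ext b
          simp only [Set.mem_ofPred_eq, and_iff_left_iff_imp]
          intro _
          by_cases h : b ∈ B
          · simp only [h, if_true]; exact (ht b h).trans (Nat.le_succ N)
          · simp only [h, if_false]; exact le_rfl
        rw [h1]
        exact le_antisymm (Submodule.span_le.2 hB') hs'
      · rw [← hs s h]
        congr 1
        ext b
        simp only [Set.mem_ofPred_eq]
        constructor
        · rintro ⟨h1, h2⟩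
          by_cases hb : b ∈ B
          · rw [if_pos hb] at h2
            exact ⟨hb, h2⟩
          · rw [if_neg hb] at h2
            omega
        · rintro ⟨h1, h2⟩
          refine ⟨hBB' h1, ?_⟩
          rw [if_pos h1]
          exact h2

theorem adapted {E : Type} [AddCommGroup E] [Module K E] [FiniteDimensional K E]
    (G : ℕ → Submodule K E) (hG : Monotone G) (N : ℕ) (hN : G N = ⊤) (m : ℕ)
    (hm : finrank K E = m) :
    ∃ (b : Fin m → E) (t : Fin m → ℕ), LinearIndependent K b ∧ (∀ i, t i ≤ N) ∧
      (∀ i, b i ∈ G (t i)) ∧ ∀ s ≤ N, (univ.filter fun i => t i ≤ s).card = finrank K (G s) := by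
  classical
  obtain ⟨B, t, hi, ht, hs⟩ := adapted0 G hG N
  have hfin : B.Finite := LinearIndependent.setFinite (R := K) hi
  have hBspan : Submodule.span K B = ⊤ := by
    rw [← hN, ← hs N le_rfl]
    congr 1
    ext b
    simp only [Set.mem_ofPred_eq, iff_self_and]
    exact fun h => ht b h
  let bb : Basis B K E := Basis.mk hi (by
    have h1 : (Set.range fun x : B => (id (x : E))) = B := Subtype.range_coe
    rw [h1]
    exact hBspan.ge)
  have : Fintype B := hfin.fintype
  have hcard : Fintype.card B = m := by
    rw [← hm, finrank_eq_card_basis bb]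
  let e : Fin m ≃ B := (Fintype.equivFinOfCardEq hcard).symm
  refine ⟨fun i => (e i : E), fun i => t (e i), ?_, fun i => ht _ (e i).2, fun i => ?_,
    fun s hsN => ?_⟩
  · exact LinearIndependent.comp hi e e.injective
  · have h1 := ht _ (e i).2
    rw [← hs _ h1]
    exact Submodule.subset_span ⟨(e i).2, le_rfl⟩
  · rw [← hs s hsN]
    have h1 : LinearIndependent K (fun i : {i : Fin m // t (e i) ≤ s} => (e i.1 : E)) :=
      (LinearIndependent.comp hi e e.injective).comp _ Subtype.val_injective
    have h2 : Submodule.span K {b | b ∈ B ∧ t b ≤ s} =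
        Submodule.span K (Set.range fun i : {i : Fin m // t (e i) ≤ s} => (e i.1 : E)) := by
      congr 1
      ext b
      constructor
      · rintro ⟨hb, hb'⟩
        refine ⟨⟨e.symm ⟨b, hb⟩, ?_⟩, ?_⟩
        · rw [Equiv.apply_symm_apply]; exact hb'
        · simp
      · rintro ⟨i, rfl⟩
        exact ⟨(e i.1).2, i.2⟩
    rw [h2, finrank_span_eq_card h1, Fintype.card_subtype]

/-- summation by parts -/
theorem abel {m : ℕ} (t : Fin m → ℕ) (N : ℕ) (ht : ∀ i, t i ≤ N) (l : ℕ → ℝ)
    (hl : l (N + 1) = 0) :
    ∑ i, l (t i) = ∑ s ∈ Finset.range (N + 1),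
      (l s - l (s + 1)) * ((univ.filter fun i => t i ≤ s).card : ℝ) := by
  classical
  have h1 : ∀ i, l (t i) = ∑ s ∈ Finset.range (N + 1), if t i ≤ s then l s - l (s + 1) else 0 := by
    intro i
    rw [← Finset.sum_filter]
    have h2 : (Finset.range (N + 1)).filter (fun s => t i ≤ s) = Finset.Ico (t i) (N + 1) := by
      ext s
      simp only [Finset.mem_filter, Finset.mem_range, Finset.mem_Ico]
      omega
    rw [h2, Finset.sum_Ico_eq_sum_range]
    have h3 := Finset.sum_range_sub' (fun a => l (t i + a)) (N + 1 - t i)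
    have h4 : t i + (N + 1 - t i) = N + 1 := by have := ht i; omega
    simp only [add_zero, h4, hl, sub_zero] at h3
    rw [← h3]
    exact Finset.sum_congr rfl fun a _ => by rw [add_assoc]
  simp only [h1]
  rw [Finset.sum_comm]
  refine Finset.sum_congr rfl fun s _ => ?_
  rw [Finset.sum_ite, Finset.sum_const_zero, add_zero, Finset.sum_const, nsmul_eq_mul, mul_comm]

end Pool.Agent.R405
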