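import Mathlib
import Pool.Agent.H9.Lib.R_seed8.R405.Flag
import Pool.Agent.H9.Lib.R_seed8.R405.ProjH
import Pool.Agent.H9.Lib.R_seed8.R405.Fin1

/-!
The subspace theorem on subquotients.
-/

set_option autoImplicit false
set_option linter.unusedSectionVars false

open Finset

namespace Pool.Agent.R405

open NumberField IsDedekindDomain Height Module
open Pool.Agent.W180.OP (Pl av wt nrm le_nrm nrm_pos nrm_nonneg exists_nrm lam lam_eq liou wt_nonneg)

section frame

variable {k K : Type} [Field k] [Field K] [Algebra k K] {n : ℕ}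

/-- the map given by vectors over the base -/
noncomputable def ph (K : Type) [Field K] [Algebra k K] {m : ℕ} (e : Fin m → Fin n → k) :
    (Fin m → K) →ₗ[K] (Fin n → K) := Fintype.linearCombination K (fun i => exv K (e i))

theorem ph_apply {m : ℕ} (e : Fin m → Fin n → k) (c : Fin m → K) :
    ph K e c = ∑ i, c i • exv K (e i) := Fintype.linearCombination_apply K _ _

theorem ph_range {m : ℕ} (e : Fin m → Fin n → k) :
    LinearMap.range (ph K e) = exs K (Submodule.span k (Set.range e)) := by
  rw [ph, Fintype.range_linearCombination]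
  apply le_antisymm
  · refine Submodule.span_le.2 ?_
    rintro _ ⟨i, rfl⟩
    exact Submodule.subset_span ⟨e i, Submodule.subset_span ⟨i, rfl⟩, rfl⟩
  · refine Submodule.span_le.2 ?_
    rintro _ ⟨u, hu, rfl⟩
    obtain ⟨c, rfl⟩ := (Submodule.mem_span_range_iff_exists_fun k).1 hu
    rw [exv_sum]
    refine Submodule.sum_mem _ fun i _ => ?_
    rw [exv_smul]
    exact Submodule.smul_mem _ _ (Submodule.subset_span ⟨i, rfl⟩)

/-- coordinates of a subquotient -/
theorem exists_frame' {U' U : Submodule k (Fin n → k)} (h : U' ≤ U) {m : ℕ}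
    (hm : finrank k U' + m = finrank k U) :
    ∃ e : Fin m → Fin n → k, LinearIndependent k e ∧ Submodule.span k (Set.range e) ⊔ U' = U ∧
      Submodule.span k (Set.range e) ⊓ U' = ⊥ := by
  classical
  obtain ⟨Q, hQ⟩ := Submodule.exists_isCompl (U'.comap U.subtype)
  set E : Submodule k (Fin n → k) := Q.map U.subtype with hE
  have hmap : (U'.comap U.subtype).map U.subtype = U' := by
    rw [Submodule.map_comap_subtype]
    exact inf_eq_right.2 h
  have h1 : E ⊔ U' = U := by
    rw [hE]
    conv_lhs => rw [← hmap]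
    rw [← Submodule.map_sup, sup_comm, hQ.sup_eq_top, Submodule.map_top, Submodule.range_subtype]
  have h2 : E ⊓ U' = ⊥ := by
    rw [hE]
    conv_lhs => rw [← hmap]
    rw [← Submodule.map_inf _ (Submodule.injective_subtype U), inf_comm, hQ.inf_eq_bot,
      Submodule.map_bot]
  have h3 : finrank k E = m := by
    have := Submodule.finrank_sup_add_finrank_inf_eq E U'
    rw [h1, h2, finrank_bot] at this
    omega
  let b := Module.finBasisOfFinrankEq k E h3
  refine ⟨fun i => b i, b.linearIndependent.map' E.subtype (Submodule.ker_subtype E), ?_⟩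
  have h4 : Submodule.span k (Set.range fun i => ((b i : E) : Fin n → k)) = E := by
    have h5 : (Set.range fun i => ((b i : E) : Fin n → k)) = E.subtype '' (Set.range b) := by
      rw [← Set.range_comp]; rfl
    rw [h5, Submodule.span_image, b.span_eq, Submodule.map_top, Submodule.range_subtype]
  rw [h4]
  exact ⟨h1, h2⟩

variable {U' U : Submodule k (Fin n → k)}

/-- the trace of a subspace on a subquotient -/
noncomputable def tr (U' U : Submodule k (Fin n → k)) {m : ℕ} (e : Fin m → Fin n → k)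
    (G : Submodule K (Fin n → K)) : Submodule K (Fin m → K) :=
  Submodule.comap (ph K e) ((G ⊓ exs K U) ⊔ exs K U')

theorem tr_mono {m : ℕ} (e : Fin m → Fin n → k) {G G' : Submodule K (Fin n → K)} (h : G ≤ G') :
    tr U' U e G ≤ tr U' U e G' :=
  Submodule.comap_mono (sup_le_sup_right (inf_le_inf_right _ h) _)

theorem tr_top {m : ℕ} (e : Fin m → Fin n → k) (he : Submodule.span k (Set.range e) ⊔ U' = U) :
    tr U' U e (⊤ : Submodule K (Fin n → K)) = ⊤ := by
  rw [eq_top_iff]
  intro c _
  show ph K e c ∈ ((⊤ : Submodule K (Fin n → K)) ⊓ exs K U) ⊔ exs K U'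
  rw [top_inf_eq]
  refine Submodule.mem_sup_left ?_
  have h1 : ph K e c ∈ LinearMap.range (ph K e) := ⟨c, rfl⟩
  rw [ph_range] at h1
  refine exs_mono ?_ h1
  rw [← he]
  exact le_sup_left

theorem tr_finrank (h : U' ≤ U) {m : ℕ} (e : Fin m → Fin n → k) (hli : LinearIndependent k e)
    (he : Submodule.span k (Set.range e) ⊔ U' = U)
    (he' : Submodule.span k (Set.range e) ⊓ U' = ⊥) (G : Submodule K (Fin n → K)) :
    finrank K (tr U' U e G) + finrank K (G ⊓ exs K U' : Submodule K (Fin n → K)) =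
      finrank K (G ⊓ exs K U : Submodule K (Fin n → K)) := by
  have hinj : Function.Injective (ph K e) := by
    have := exv_li (K := K) hli
    rw [Fintype.linearIndependent_iff] at this
    rw [← LinearMap.ker_eq_bot, eq_bot_iff]
    intro c hc
    have h1 : ph K e c = 0 := hc
    rw [ph_apply] at h1
    exact (Submodule.mem_bot K).2 (funext fun i => this c h1 i)
  set X : Submodule K (Fin n → K) := (G ⊓ exs K U) ⊔ exs K U' with hX
  set R : Submodule K (Fin n → K) := LinearMap.range (ph K e) with hR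
  have hR' : R = exs K (Submodule.span k (Set.range e)) := ph_range e
  have hRU' : R ⊓ exs K U' = ⊥ := by rw [hR', ← exs_inf, he', exs_bot]
  have hRs : R ⊔ exs K U' = exs K U := by rw [hR', ← exs_sup, he]
  have h1 : finrank K (tr U' U e G) = finrank K (R ⊓ X : Submodule K (Fin n → K)) := by
    have h2 : (tr U' U e G).map (ph K e) = R ⊓ X := by
      rw [tr, Submodule.map_comap_eq]
    rw [← h2]
    exact (LinearEquiv.finrank_eq (Submodule.equivMapOfInjective (ph K e) hinj (tr U' U e G)))
  have hXU : X ≤ exs K U := sup_le inf_le_right (exs_mono h)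
  have h3 : (R ⊓ X) ⊔ exs K U' = X := by
    have h4 : exs K U' ⊔ R ⊓ X = (exs K U' ⊔ R) ⊓ X := sup_inf_assoc_of_le R (le_sup_right : exs K U' ≤ X)  |>.symm
    rw [sup_comm, h4, sup_comm, hRs]
    exact inf_eq_right.2 hXU
  have h5 : (R ⊓ X) ⊓ exs K U' = ⊥ := by
    rw [eq_bot_iff, ← hRU']
    exact inf_le_inf_right _ inf_le_left
  have h6 := Submodule.finrank_sup_add_finrank_inf_eq (R ⊓ X) (exs K U')
  rw [h3, h5, finrank_bot] at h6
  have h7 := Submodule.finrank_sup_add_finrank_inf_eq (G ⊓ exs K U) (exs K U')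
  have h8 : (G ⊓ exs K U) ⊓ exs K U' = G ⊓ exs K U' := by
    rw [inf_assoc, inf_eq_right.2 (exs_mono h)]
  rw [h8, ← hX] at h7
  rw [h1]
  omega

/-- the linear form with coefficients `g` at `x` -/
def dot (g x : Fin n → K) : K := ∑ j, g j * x j

theorem dot_add (g g' x : Fin n → K) : dot (g + g') x = dot g x + dot g' x := by
  unfold dot
  rw [← Finset.sum_add_distrib]
  exact Finset.sum_congr rfl fun j _ => by rw [Pi.add_apply, add_mul]

theorem dot_smul (c : K) (g x : Fin n → K) : dot (c • g) x = c * dot g x := by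
  unfold dot
  rw [Finset.mul_sum]
  exact Finset.sum_congr rfl fun j _ => by rw [Pi.smul_apply, smul_eq_mul, mul_assoc]

theorem dot_sum {α : Type} (s : Finset α) (g : α → Fin n → K) (x : Fin n → K) :
    dot (∑ a ∈ s, g a) x = ∑ a ∈ s, dot (g a) x := by
  unfold dot
  rw [Finset.sum_comm]
  refine Finset.sum_congr rfl fun j _ => ?_
  rw [Finset.sum_apply, Finset.sum_mul]

theorem dot_exs {x : Fin n → K} (hx : ∀ u ∈ U', dot (exv K u) x = 0) {g : Fin n → K}
    (hg : g ∈ exs K U') : dot g x = 0 := by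
  unfold exs at hg
  induction hg using Submodule.span_induction with
  | mem y hy =>
    obtain ⟨u, hu, rfl⟩ := hy
    exact hx u hu
  | zero => simp [dot]
  | add a b _ _ ha hb => rw [dot_add, ha, hb, add_zero]
  | smul c a _ ha => rw [dot_smul, ha, mul_zero]

theorem abs_dot (f : AbsoluteValue K ℝ) (g x : Fin n → K) :
    f (dot g x) ≤ (1 + ∑ j, f (g j)) * nrm f x := by
  have h1 : f (dot g x) ≤ ∑ j, f (g j) * nrm f x := by
    refine (f.sum_le _ _).trans (Finset.sum_le_sum fun j _ => ?_)
    rw [map_mul]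
    exact mul_le_mul_of_nonneg_left (le_nrm f x j) (f.nonneg _)
  rw [← Finset.sum_mul] at h1
  refine h1.trans (mul_le_mul_of_nonneg_right (by linarith) (nrm_nonneg f x))

variable {ι : Type} [Fintype ι] [DecidableEq ι]

/-- the first elements of a basis -/
def pre (β : Fin n → ι) (s : ℕ) : Finset ι := (univ.filter fun a : Fin n => a.val ≤ s).image β

/-- the heights of the forms of a basis -/
noncomputable def hl (f : AbsoluteValue K ℝ) (L : ι → Fin n → K) (β : Fin n → ι) (x : Fin n → K)
    (s : ℕ) : ℝ :=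
  if h : s < n then max 0 (Real.log (nrm f x) - Real.log (f (dot (L (β ⟨s, h⟩)) x))) else 0

theorem mem_flat_pre (L : ι → Fin n → K) (β : Fin n → ι) (s : ℕ) {g : Fin n → K}
    (hg : g ∈ flat L (pre β s)) :
    ∃ d : Fin n → K, (∀ a : Fin n, s < a.val → d a = 0) ∧ g = ∑ a, d a • L (β a) := by
  classical
  unfold flat at hg
  induction hg using Submodule.span_induction with
  | mem y hy =>
    obtain ⟨l, hl, rfl⟩ := hy
    obtain ⟨a, ha, rfl⟩ := Finset.mem_image.1 (Finset.mem_coe.1 hl)
    have ha' := (Finset.mem_filter.1 ha).2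
    refine ⟨Pi.single a 1, fun b hb => ?_, ?_⟩
    · rw [Pi.single_eq_of_ne]
      rintro rfl
      omega
    · rw [Finset.sum_eq_single a]
      · rw [Pi.single_eq_same, one_smul]
      · intro b _ hb
        rw [Pi.single_eq_of_ne hb, zero_smul]
      · intro h
        exact absurd (Finset.mem_univ _) h
  | zero => exact ⟨0, fun _ _ => rfl, by simp⟩
  | add y z _ _ hy hz =>
    obtain ⟨d, hd, rfl⟩ := hy
    obtain ⟨d', hd', rfl⟩ := hz
    refine ⟨d + d', fun a ha => by rw [Pi.add_apply, hd a ha, hd' a ha, add_zero], ?_⟩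
    rw [← Finset.sum_add_distrib]
    exact Finset.sum_congr rfl fun a _ => by rw [Pi.add_apply, add_smul]
  | smul c y _ hy =>
    obtain ⟨d, hd, rfl⟩ := hy
    refine ⟨c • d, fun a ha => by rw [Pi.smul_apply, hd a ha, smul_zero], ?_⟩
    rw [Finset.smul_sum]
    exact Finset.sum_congr rfl fun a _ => by rw [Pi.smul_apply, smul_eq_mul, mul_smul]

/-- a form in the flat of the first elements of a basis is small -/
theorem hl_le (f : AbsoluteValue K ℝ) (L : ι → Fin n → K) (β : Fin n → ι) {s : ℕ} (hs : s < n)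
    {g g' : Fin n → K} (hg : g ∈ flat L (pre β s)) :
    ∃ C : ℝ, ∀ x : Fin n → K, x ≠ 0 → dot g' x = dot g x → dot g' x ≠ 0 →
      (∀ a, dot (L (β a)) x ≠ 0) →
      (∀ a b : Fin n, a ≤ b → f (dot (L (β a)) x) ≤ f (dot (L (β b)) x)) →
      hl f L β x s ≤ Real.log (nrm f x) - Real.log (f (dot g' x)) + C := by
  classical
  obtain ⟨d, hd, rfl⟩ := mem_flat_pre L β s hg
  set D : ℝ := 1 + ∑ a, f (d a) with hD
  have hD1 : 1 ≤ D := by
    have : 0 ≤ ∑ a, f (d a) := Finset.sum_nonneg fun _ _ => f.nonneg _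
    linarith
  set D' : ℝ := 1 + ∑ j, f (g' j) with hD'
  have hD'1 : 1 ≤ D' := by
    have : 0 ≤ ∑ j, f (g' j) := Finset.sum_nonneg fun _ _ => f.nonneg _
    linarith
  refine ⟨Real.log D + Real.log D', fun x hx hgx hne hL hmono => ?_⟩
  have hN := nrm_pos f hx
  have hfg := f.pos_iff.2 hne
  have h1 : f (dot g' x) ≤ D * f (dot (L (β ⟨s, hs⟩)) x) := by
    rw [hgx, dot_sum]
    have h2 : ∀ a, f (dot (d a • L (β a)) x) ≤ f (d a) * f (dot (L (β ⟨s, hs⟩)) x) := by
      intro a
      rw [dot_smul, map_mul]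
      rcases Nat.lt_or_ge s a.val with h | h
      · rw [hd a h, map_zero, zero_mul, zero_mul]
      · exact mul_le_mul_of_nonneg_left (hmono a ⟨s, hs⟩ h) (f.nonneg _)
    refine ((f.sum_le _ _).trans (Finset.sum_le_sum fun a _ => h2 a)).trans ?_
    rw [← Finset.sum_mul]
    exact mul_le_mul_of_nonneg_right (by linarith) (f.nonneg _)
  have h2 := abs_dot f g' x
  have hfs := f.pos_iff.2 (hL ⟨s, hs⟩)
  have h3 := Real.log_le_log hfg h1
  have h4 := Real.log_le_log hfg h2
  rw [Real.log_mul (by linarith) hfs.ne'] at h3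
  rw [Real.log_mul (by linarith) hN.ne'] at h4
  have h5 := Real.log_nonneg hD1
  have h6 := Real.log_nonneg hD'1
  unfold hl
  rw [dif_pos hs]
  refine max_le ?_ ?_ <;> linarith

theorem flat_mono (L : ι → Fin n → K) {A B : Finset ι} (h : A ⊆ B) : flat L A ≤ flat L B :=
  Submodule.span_mono (Set.image_mono (Finset.coe_subset.2 h))

theorem pre_mono (β : Fin n → ι) {s s' : ℕ} (h : s ≤ s') : pre β s ⊆ pre β s' := by
  intro l hl
  obtain ⟨a, ha, rfl⟩ := Finset.mem_image.1 hl
  exact Finset.mem_image.2 ⟨a, Finset.mem_filter.2 ⟨Finset.mem_univ _,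
    (Finset.mem_filter.1 ha).2.trans h⟩, rfl⟩

/-- the flat of all elements of a basis -/
theorem flat_pre_top (L : ι → Fin n → K) (β : Fin n → ι)
    (hβ : (Matrix.of fun a => L (β a)).det ≠ 0) (N : ℕ) (hN : n ≤ N + 1) :
    flat L (pre β N) = ⊤ := by
  have h1 : LinearIndependent K (fun a => L (β a)) :=
    Matrix.linearIndependent_rows_of_det_ne_zero hβ
  have h2 := h1.span_eq_top_of_card_eq_finrank' (by simp)
  rw [eq_top_iff, ← h2]
  refine Submodule.span_mono ?_
  rintro _ ⟨a, rfl⟩
  exact ⟨β a, Finset.mem_coe.2 (Finset.mem_image.2 ⟨a, Finset.mem_filter.2 ⟨Finset.mem_univ _,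
    by omega⟩, rfl⟩), rfl⟩

/-- adapted bases of subquotients -/
theorem locBasis (h : U' ≤ U) {m : ℕ} (e : Fin m → Fin n → k) (hli : LinearIndependent k e)
    (he : Submodule.span k (Set.range e) ⊔ U' = U)
    (he' : Submodule.span k (Set.range e) ⊓ U' = ⊥) (N : ℕ) (hN : n = N + 1)
    (L : ι → Fin n → K) (β : Fin n → ι) (hβ : (Matrix.of fun a => L (β a)).det ≠ 0)
    (f : AbsoluteValue K ℝ) :
    ∃ (b : Fin m → Fin m → K) (C : ℝ), 0 ≤ C ∧ (Matrix.of b).det ≠ 0 ∧
      ∀ x : Fin n → K, x ≠ 0 → (∀ u ∈ U', dot (exv K u) x = 0) →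
        (∀ a, dot (L (β a)) x ≠ 0) →
        (∀ a b : Fin n, a ≤ b → f (dot (L (β a)) x) ≤ f (dot (L (β b)) x)) →
        (∀ i, dot (b i) (fun l => dot (exv K (e l)) x) ≠ 0) →
        ∑ s ∈ Finset.range n, (hl f L β x s - hl f L β x (s + 1)) *
          ((dm L (pre β s) U : ℝ) - dm L (pre β s) U') ≤
        ∑ i, (Real.log (nrm f x) - Real.log (f (dot (b i) (fun l => dot (exv K (e l)) x)))) + C := by
  classical
  obtain ⟨b, t, hb, ht, hbt, hcard⟩ := adapted (fun s => tr U' U e (flat L (pre β s)))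
    (fun s s' hss => tr_mono e (flat_mono L (pre_mono β hss))) N (by
      show tr U' U e (flat L (pre β N)) = ⊤
      rw [flat_pre_top L β hβ N (by omega), tr_top e he]) m (finrank_fin_fun K)
  have hex : ∀ i, ∃ C : ℝ, ∀ x : Fin n → K, x ≠ 0 → (∀ u ∈ U', dot (exv K u) x = 0) →
      (∀ a, dot (L (β a)) x ≠ 0) →
      (∀ a b : Fin n, a ≤ b → f (dot (L (β a)) x) ≤ f (dot (L (β b)) x)) →
      dot (b i) (fun l => dot (exv K (e l)) x) ≠ 0 → hl f L β x (t i) ≤ Real.log (nrm f x) -
        Real.log (f (dot (b i) (fun l => dot (exv K (e l)) x))) + C := by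
    intro i
    have h1 : ph K e (b i) ∈ (flat L (pre β (t i)) ⊓ exs K U) ⊔ exs K U' := hbt i
    obtain ⟨g, hg, u', hu', hgu⟩ := Submodule.mem_sup.1 h1
    obtain ⟨C, hC⟩ := hl_le f L β (s := t i) (by have := ht i; omega) (g' := ph K e (b i)) hg.1
    refine ⟨C, fun x hx hU' hL hmono hne => ?_⟩
    have h2 : dot (ph K e (b i)) x = dot (b i) (fun l => dot (exv K (e l)) x) := by
      rw [ph_apply, dot_sum]
      exact Finset.sum_congr rfl fun l _ => dot_smul _ _ _
    have h3 : dot (ph K e (b i)) x = dot g x := by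
      rw [← hgu, dot_add, dot_exs hU' hu', add_zero]
    have h4 := hC x hx h3 (by rw [h2]; exact hne) hL hmono
    rw [h2] at h4
    exact h4
  choose C hC using hex
  refine ⟨b, ∑ i, |C i|, Finset.sum_nonneg fun _ _ => abs_nonneg _, ?_,
    fun x hx hU' hL hmono hne => ?_⟩
  · intro h0
    obtain ⟨v, hv, hv0⟩ := Matrix.exists_vecMul_eq_zero_iff.2 h0
    apply hv
    have h1 : ∑ i, v i • b i = 0 := by
      funext j
      have := congrFun hv0 j
      rw [Matrix.vecMul, dotProduct] at this
      rw [Finset.sum_apply]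
      exact this
    exact funext fun i => Fintype.linearIndependent_iff.1 hb v h1 i
  · have h1 := abel t N ht (hl f L β x) (by
      unfold hl
      rw [dif_neg (by omega)])
    rw [← hN] at h1
    have h2 : ∑ s ∈ Finset.range n, (hl f L β x s - hl f L β x (s + 1)) *
        ((dm L (pre β s) U : ℝ) - dm L (pre β s) U') = ∑ i, hl f L β x (t i) := by
      rw [h1]
      refine Finset.sum_congr rfl fun s hs => ?_
      have hs' : s ≤ N := by
        have := Finset.mem_range.1 hs
        omega
      congr 1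
      have h3 := tr_finrank h e hli he he' (flat L (pre β s))
      rw [hcard s hs']
      have h4 : (finrank K (tr U' U e (flat L (pre β s))) : ℝ) + dm L (pre β s) U' =
          dm L (pre β s) U := by
        exact_mod_cast h3
      linarith
    rw [h2, ← Finset.sum_add_distrib]
    exact Finset.sum_le_sum fun i _ => (hC i x hx hU' hL hmono (hne i)).trans
      (by linarith [le_abs_self (C i)])

end frame

end Pool.Agent.R405
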