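import Mathlib
import Pool.Agent.H9.Lib.R_seed8.R405.SubQ

/-!
Vojta's refinement of the subspace theorem.
-/

set_option autoImplicit false
set_option linter.unusedSectionVars false

open Finset

namespace Pool.Agent.R405

open NumberField IsDedekindDomain Height Module
open Pool.Agent.W180.OP (Pl av wt nrm le_nrm nrm_pos nrm_nonneg exists_nrm lam lam_eq liou wt_nonneg)

variable {k K : Type} [Field k] [NumberField k] [Field K] [NumberField K] [Algebra k K] {n : ℕ}
  {ι : Type} [Fintype ι] [DecidableEq ι]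

theorem exv_ne {x : Fin n → k} (hx : x ≠ 0) : exv K x ≠ 0 := by
  intro h
  apply hx
  funext j
  have := congrFun h j
  simpa [exv] using this

theorem dot_exv (u x : Fin n → k) : dot (exv K u) (exv K x) = algebraMap k K (∑ j, u j * x j) := by
  simp [dot, exv]

/-- the contribution of a subspace -/
noncomputable def deg (S : Finset (Pl k)) (f : Pl k → AbsoluteValue K ℝ) (L : ι → Fin n → K)
    (β : Pl k → Fin n → ι) (x : Fin n → k) (U : Submodule k (Fin n → k)) : ℝ :=
  ∑ v ∈ S, wt v * ∑ s ∈ Finset.range n, (hl (f v) L (β v) (exv K x) s -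
    hl (f v) L (β v) (exv K x) (s + 1)) * (dm L (pre (β v) s) U : ℝ)

/-- the points where the bases are sorted -/
def Srt (S : Finset (Pl k)) (f : Pl k → AbsoluteValue K ℝ) (L : ι → Fin n → K)
    (β : Pl k → Fin n → ι) (x : Fin n → k) : Prop :=
  x ≠ 0 ∧ (∀ v ∈ S, ∀ a, dot (L (β v a)) (exv K x) ≠ 0) ∧
    ∀ v ∈ S, ∀ a b : Fin n, a ≤ b → f v (dot (L (β v a)) (exv K x)) ≤ f v (dot (L (β v b)) (exv K x))

theorem subq [IsGalois ℚ K] (hi : ∃ z : K, z ^ 2 = -1) (hn : 1 ≤ n) (S : Finset (Pl k))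
    (f : Pl k → AbsoluteValue K ℝ) (hf : ∀ v ∈ S, Good v (f v)) (L : ι → Fin n → K)
    (β : Pl k → Fin n → ι) (hβ : ∀ v ∈ S, (Matrix.of fun a => L (β v a)).det ≠ 0)
    {U' U : Submodule k (Fin n → k)} (h : U' < U) (ε : ℝ) (hε : 0 < ε) :
    ∃ (Z : Finset (Fin n → k)) (C : ℝ), 0 ≤ C ∧ (∀ z ∈ Z, z ∈ U ∧ z ∉ U') ∧
      ∀ x : Fin n → k, Srt S f L β x → (∀ u ∈ U', ∑ j, u j * x j = 0) →
        (∀ z ∈ Z, ∑ j, z j * x j ≠ 0) →
        deg S f L β x U - deg S f L β x U' ≤
          ((finrank k U : ℝ) - finrank k U' + ε) * logHeight x + C := by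
  classical
  obtain ⟨N, hN⟩ : ∃ N, n = N + 1 := ⟨n - 1, by omega⟩
  obtain ⟨m, hm⟩ : ∃ m, finrank k U' + m = finrank k U :=
    ⟨finrank k U - finrank k U', by have := Submodule.finrank_mono h.le; omega⟩
  have hm1 : 1 ≤ m := by
    have := Submodule.finrank_lt_finrank_of_lt h
    omega
  obtain ⟨e, hli, he, he'⟩ := exists_frame' h.le hm
  have heU : ∀ c : Fin m → k, ∑ i, c i • e i ∈ U := fun c => by
    rw [← he]
    exact Submodule.mem_sup_left (Submodule.sum_mem _ fun i _ => Submodule.smul_mem _ _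
      (Submodule.subset_span ⟨i, rfl⟩))
  have heU' : ∀ c : Fin m → k, c ≠ 0 → ∑ i, c i • e i ∉ U' := fun c hc h0 => by
    apply hc
    have h1 : ∑ i, c i • e i ∈ Submodule.span k (Set.range e) ⊓ U' :=
      ⟨Submodule.sum_mem _ fun i _ => Submodule.smul_mem _ _ (Submodule.subset_span ⟨i, rfl⟩), h0⟩
    rw [he', Submodule.mem_bot] at h1
    exact funext fun i => Fintype.linearIndependent_iff.1 hli c h1 i
  -- local bases
  have hloc : ∀ v : Pl k, ∃ (b : Fin m → Fin m → K) (C : ℝ), v ∈ S → 0 ≤ C ∧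
      (Matrix.of b).det ≠ 0 ∧
      ∀ x : Fin n → K, x ≠ 0 → (∀ u ∈ U', dot (exv K u) x = 0) →
        (∀ a, dot (L (β v a)) x ≠ 0) →
        (∀ a b : Fin n, a ≤ b → f v (dot (L (β v a)) x) ≤ f v (dot (L (β v b)) x)) →
        (∀ i, dot (b i) (fun l => dot (exv K (e l)) x) ≠ 0) →
        ∑ s ∈ Finset.range n, (hl (f v) L (β v) x s - hl (f v) L (β v) x (s + 1)) *
          ((dm L (pre (β v) s) U : ℝ) - dm L (pre (β v) s) U') ≤
        ∑ i, (Real.log (nrm (f v) x) - Real.log (f v (dot (b i)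
          (fun l => dot (exv K (e l)) x)))) + C := by
    intro v
    by_cases hv : v ∈ S
    · obtain ⟨b, C, h1, h2, h3⟩ := locBasis h.le e hli he he' N hN L (β v) (hβ v hv) (f v)
      exact ⟨b, C, fun _ => ⟨h1, h2, h3⟩⟩
    · exact ⟨0, 0, fun h => absurd h hv⟩
  choose b Cl hCl using hloc
  obtain ⟨Z, C1, hZ, hmain⟩ := sch hi hm1 S f hf b (fun v hv => (hCl v hv).2.1) ε hε
  obtain ⟨C2, hC2, hP⟩ := projH e S
  obtain ⟨C3, hC3, hP'⟩ := projH e (∅ : Finset (Pl k))
  -- the exceptional forms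
  set Z' : Finset (Fin m → K) := Z ∪ S.biUnion fun v => Finset.univ.image (b v) with hZ'
  have hZ'0 : ∀ d ∈ Z', d ≠ 0 := by
    intro d hd
    rcases Finset.mem_union.1 hd with hd | hd
    · exact hZ d hd
    · obtain ⟨v, hv, hd⟩ := Finset.mem_biUnion.1 hd
      obtain ⟨i, -, rfl⟩ := Finset.mem_image.1 hd
      intro h0
      exact (hCl v hv).2.1 (Matrix.det_eq_zero_of_row_eq_zero i fun j => congrFun h0 j)
  have hdes : ∀ d : Fin m → K, ∃ g : Fin m → k, d ∈ Z' → g ≠ 0 ∧ ∀ x : Fin m → k,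
      ∑ j, g j * x j ≠ 0 → ∑ j, d j * algebraMap k K (x j) ≠ 0 := by
    intro d
    by_cases hd : d ∈ Z'
    · obtain ⟨g, h1, h2⟩ := descend (k := k) d (hZ'0 d hd)
      exact ⟨g, fun _ => ⟨h1, h2⟩⟩
    · exact ⟨0, fun h => absurd h hd⟩
  choose g hg using hdes
  set W : ℝ := ∑ v ∈ S, wt v * Cl v with hW
  have hW0 : 0 ≤ W := Finset.sum_nonneg fun v hv => mul_nonneg (wt_nonneg v) (hCl v hv).1
  refine ⟨Z'.image fun d => ∑ i, g d i • e i, |C1| + m * C2 + ε * C3 + W, by positivity, ?_,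
    fun x hx hU' hZx => ?_⟩
  · intro z hz
    obtain ⟨d, hd, rfl⟩ := Finset.mem_image.1 hz
    exact ⟨heU _, heU' _ (hg d hd).1⟩
  · obtain ⟨hx0, hLx, hmono⟩ := hx
    set y : Fin m → k := fun i => ∑ j, e i j * x j with hy
    have hyx : (fun l => dot (exv K (e l)) (exv K x)) = fun l => algebraMap k K (y l) :=
      funext fun l => dot_exv _ _
    have hdy : ∀ d ∈ Z', ∑ j, d j * algebraMap k K (y j) ≠ 0 := by
      intro d hd
      refine (hg d hd).2 y ?_
      have h1 := hZx _ (Finset.mem_image.2 ⟨d, hd, rfl⟩)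
      have h2 : ∑ j, (∑ i, g d i • e i) j * x j = ∑ i, g d i * y i := by
        simp only [Finset.sum_apply, Pi.smul_apply, smul_eq_mul, Finset.sum_mul, hy,
          Finset.mul_sum]
        rw [Finset.sum_comm]
        exact Finset.sum_congr rfl fun i _ => Finset.sum_congr rfl fun j _ => by ring
      rw [h2] at h1
      exact h1
    rcases S.eq_empty_or_nonempty with hS | ⟨v0, hv0⟩
    · subst hS
      unfold deg
      simp only [Finset.sum_empty, sub_zero]
      have h1 := logHeight_nonneg x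
      have h2 : (0 : ℝ) ≤ (finrank k U : ℝ) - finrank k U' + ε := by
        have : (finrank k U' : ℝ) ≤ finrank k U := by exact_mod_cast (by omega)
        linarith
      positivity
    · have hy0 : y ≠ 0 := by
        intro h0
        refine hdy (b v0 ⟨0, hm1⟩) (Finset.mem_union_right _ (Finset.mem_biUnion.2 ⟨v0, hv0,
          Finset.mem_image_of_mem _ (Finset.mem_univ _)⟩)) ?_
        rw [h0]
        simp
      have h1 := hmain y fun d hd => hdy d (Finset.mem_union_left _ hd)
      have h2 := hP x hy0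
      have h3 := hP' x hy0
      rw [Finset.sum_empty, add_zero] at h3
      -- the local estimates
      have h4 : deg S f L β x U - deg S f L β x U' ≤ ∑ v ∈ S, wt v * (∑ i,
          (Real.log (nrm (av v) x) - Real.log (f v (∑ j, b v i j * algebraMap k K (y j)))) +
            Cl v) := by
        unfold deg
        rw [← Finset.sum_sub_distrib]
        refine Finset.sum_le_sum fun v hv => ?_
        rw [← mul_sub, ← Finset.sum_sub_distrib]
        refine mul_le_mul_of_nonneg_left ?_ (wt_nonneg v)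
        have h5 := (hCl v hv).2.2 (exv K x) (exv_ne hx0) (fun u hu => by
          rw [dot_exv, hU' u hu, map_zero]) (hLx v hv) (hmono v hv) (fun i => by
          rw [hyx]
          exact hdy _ (Finset.mem_union_right _ (Finset.mem_biUnion.2 ⟨v, hv,
            Finset.mem_image_of_mem _ (Finset.mem_univ _)⟩)))
        rw [hyx] at h5
        have h6 : nrm (f v) (exv K x) = nrm (av v) x := (hf v hv).nrm_ext x
        rw [h6] at h5
        refine le_trans (le_of_eq ?_) h5
        exact Finset.sum_congr rfl fun s _ => by ring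
      have h5 : ∑ v ∈ S, wt v * (∑ i,
          (Real.log (nrm (av v) x) - Real.log (f v (∑ j, b v i j * algebraMap k K (y j)))) +
            Cl v) = ∑ v ∈ S, wt v * ∑ a, (Real.log (nrm (av v) y) -
            Real.log (f v (∑ j, b v a j * algebraMap k K (y j)))) +
          m * ∑ v ∈ S, wt v * (Real.log (nrm (av v) x) - Real.log (nrm (av v) y)) + W := by
        rw [hW, Finset.mul_sum, ← Finset.sum_add_distrib, ← Finset.sum_add_distrib]
        refine Finset.sum_congr rfl fun v _ => ?_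
        simp only [Finset.sum_sub_distrib, Finset.sum_const, Finset.card_univ, Fintype.card_fin,
          nsmul_eq_mul]
        ring
      rw [h5] at h4
      have hmr : (finrank k U : ℝ) - finrank k U' = m := by
        have : (finrank k U' : ℝ) + m = finrank k U := by exact_mod_cast hm
        linarith
      rw [hmr]
      have h6 : (m : ℝ) * ∑ v ∈ S, wt v * (Real.log (nrm (av v) x) - Real.log (nrm (av v) y)) ≤
          m * (logHeight x - logHeight y + C2) :=
        mul_le_mul_of_nonneg_left (by linarith) (Nat.cast_nonneg _)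
      have h7 : ε * logHeight y ≤ ε * (logHeight x + C3) := mul_le_mul_of_nonneg_left h3 hε.le
      have h8 := le_abs_self C1
      linarith

/-- the points which avoid a subspace: some subquotient satisfies the subspace inequality -/
theorem treeV [IsGalois ℚ K] (hi : ∃ z : K, z ^ 2 = -1) (hn : 1 ≤ n) (S : Finset (Pl k))
    (f : Pl k → AbsoluteValue K ℝ) (hf : ∀ v ∈ S, Good v (f v)) (L : ι → Fin n → K)
    (β : Pl k → Fin n → ι) (hβ : ∀ v ∈ S, (Matrix.of fun a => L (β v a)).det ≠ 0)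
    (U : Submodule k (Fin n → k)) (ε : ℝ) (hε : 0 < ε) (i : ℕ) :
    ∀ U' : Submodule k (Fin n → k), U' < U → finrank k U ≤ finrank k U' + i →
    ∃ C : ℝ, 0 ≤ C ∧ ∀ x : Fin n → k, Srt S f L β x → (∀ u ∈ U', ∑ j, u j * x j = 0) →
      (∃ u ∈ U, ∑ j, u j * x j ≠ 0) → ∃ U'' < U,
        deg S f L β x U - deg S f L β x U'' ≤
          ((finrank k U : ℝ) - finrank k U'' + ε) * logHeight x + C := by
  classical
  induction i with
  | zero =>
    intro U' h1 h2
    have := Submodule.finrank_lt_finrank_of_lt h1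
    omega
  | succ i ih =>
    intro U' h1 h2
    obtain ⟨Z, C0, hC0, hZ, hmain⟩ := subq hi hn S f hf L β hβ h1 ε hε
    have hstep : ∀ z : Fin n → k, ∃ C : ℝ, 0 ≤ C ∧ (z ∈ Z → ∀ x : Fin n → k, Srt S f L β x →
        (∀ u ∈ U', ∑ j, u j * x j = 0) → ∑ j, z j * x j = 0 →
        (∃ u ∈ U, ∑ j, u j * x j ≠ 0) → ∃ U'' < U,
        deg S f L β x U - deg S f L β x U'' ≤
          ((finrank k U : ℝ) - finrank k U'' + ε) * logHeight x + C) := by
      intro z
      by_cases hz : z ∈ Z
      · set V : Submodule k (Fin n → k) := U' ⊔ Submodule.span k {z} with hV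
        have hVU : V ≤ U := sup_le h1.le (Submodule.span_le.2 (by
          rw [Set.singleton_subset_iff]
          exact (hZ z hz).1))
        have hVx : ∀ x : Fin n → k, (∀ u ∈ U', ∑ j, u j * x j = 0) → ∑ j, z j * x j = 0 →
            ∀ u ∈ V, ∑ j, u j * x j = 0 := by
          intro x hU' hzx u hu
          obtain ⟨a, ha, b, hb, rfl⟩ := Submodule.mem_sup.1 hu
          obtain ⟨c, rfl⟩ := Submodule.mem_span_singleton.1 hb
          have h3 : ∑ j, (a + c • z) j * x j = ∑ j, a j * x j + c * ∑ j, z j * x j := by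
            rw [Finset.mul_sum, ← Finset.sum_add_distrib]
            exact Finset.sum_congr rfl fun j _ => by
              rw [Pi.add_apply, Pi.smul_apply, smul_eq_mul]; ring
          rw [h3, hU' a ha, hzx, mul_zero, add_zero]
        rcases hVU.lt_or_eq with hlt | heq
        · have hlt' : U' < V := by
            refine lt_of_le_of_ne le_sup_left fun h0 => (hZ z hz).2 ?_
            rw [h0]
            exact Submodule.mem_sup_right (Submodule.mem_span_singleton_self z)
          have h3 := Submodule.finrank_lt_finrank_of_lt hlt'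
          obtain ⟨C, hC, hmain'⟩ := ih V hlt (by omega)
          exact ⟨C, hC, fun _ x hx hU' hzx hUx => hmain' x hx (hVx x hU' hzx) hUx⟩
        · refine ⟨0, le_rfl, fun _ x _ hU' hzx hUx => ?_⟩
          obtain ⟨u, hu, hux⟩ := hUx
          rw [← heq] at hu
          exact absurd (hVx x hU' hzx u hu) hux
      · exact ⟨0, le_rfl, fun h => absurd h hz⟩
    choose C hC hCz using hstep
    refine ⟨C0 + ∑ z ∈ Z, C z, add_nonneg hC0 (Finset.sum_nonneg fun z _ => hC z),
      fun x hx hU' hUx => ?_⟩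
    have hsum0 : 0 ≤ ∑ z ∈ Z, C z := Finset.sum_nonneg fun z _ => hC z
    by_cases hzx : ∀ z ∈ Z, ∑ j, z j * x j ≠ 0
    · refine ⟨U', h1, ?_⟩
      have := hmain x hx hU' hzx
      linarith
    · push Not at hzx
      obtain ⟨z, hz, hzx⟩ := hzx
      obtain ⟨U'', h3, h4⟩ := hCz z hz x hx hU' hzx hUx
      refine ⟨U'', h3, ?_⟩
      have := Finset.single_le_sum (f := C) (fun z _ => hC z) hz
      linarith

theorem hl_anti {f : AbsoluteValue K ℝ} (L : ι → Fin n → K) (β : Fin n → ι) (x : Fin n → K)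
    (hL : ∀ a, dot (L (β a)) x ≠ 0)
    (hmono : ∀ a b : Fin n, a ≤ b → f (dot (L (β a)) x) ≤ f (dot (L (β b)) x)) (s : ℕ) :
    hl f L β x (s + 1) ≤ hl f L β x s := by
  unfold hl
  by_cases h : s + 1 < n
  · rw [dif_pos h, dif_pos (by omega)]
    refine max_le_max le_rfl (sub_le_sub_left ?_ _)
    exact Real.log_le_log (f.pos_iff.2 (hL _)) (hmono _ _ (by simp [Fin.le_def]))
  · rw [dif_neg h]
    by_cases h' : s < n
    · rw [dif_pos h']
      exact le_max_left _ _
    · rw [dif_neg h']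

theorem exs_top : exs K (⊤ : Submodule k (Fin n → k)) = ⊤ := by
  refine Submodule.eq_top_of_finrank_eq ?_
  rw [finrank_exs, finrank_top, finrank_fin_fun, finrank_fin_fun]

/-- the degree of the whole space -/
theorem deg_top (S : Finset (Pl k)) (f : Pl k → AbsoluteValue K ℝ) (hn : 1 ≤ n)
    (hf : ∀ v ∈ S, Good v (f v)) (L : ι → Fin n → K)
    (β : Pl k → Fin n → ι) (hβ : ∀ v ∈ S, (Matrix.of fun a => L (β v a)).det ≠ 0)
    (x : Fin n → k) (hx : Srt S f L β x) :
    ∑ v ∈ S, wt v * ∑ a, (Real.log (nrm (av v) x) - Real.log (f v (dot (L (β v a)) (exv K x)))) ≤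
      deg S f L β x ⊤ := by
  classical
  obtain ⟨N, hN⟩ : ∃ N, n = N + 1 := ⟨n - 1, by omega⟩
  unfold deg
  refine Finset.sum_le_sum fun v hv => mul_le_mul_of_nonneg_left ?_ (wt_nonneg v)
  have h1 := abel (fun a : Fin n => a.val) N (fun a => by omega) (hl (f v) L (β v) (exv K x)) (by
      unfold hl
      rw [dif_neg (by omega)])
  rw [← hN] at h1
  have h2 : ∑ a, (Real.log (nrm (av v) x) - Real.log (f v (dot (L (β v a)) (exv K x)))) ≤
      ∑ a : Fin n, hl (f v) L (β v) (exv K x) a.val := by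
    refine Finset.sum_le_sum fun a _ => ?_
    unfold hl
    rw [dif_pos a.2]
    have h3 : nrm (f v) (exv K x) = nrm (av v) x := (hf v hv).nrm_ext x
    rw [h3]
    exact le_max_right _ _
  refine h2.trans (h1.trans_le (Finset.sum_le_sum fun s hs => mul_le_mul_of_nonneg_left ?_
    (sub_nonneg.2 (hl_anti L (β v) _ (hx.2.1 v hv) (hx.2.2 v hv) s))))
  have h3 : (univ.filter fun i : Fin n => i.val ≤ s).card ≤ dm L (pre (β v) s)
      (⊤ : Submodule k (Fin n → k)) := by
    unfold dm
    rw [exs_top, inf_top_eq]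
    have h4 : LinearIndependent K (fun a => L (β v a)) :=
      Matrix.linearIndependent_rows_of_det_ne_zero (hβ v hv)
    have h5 : LinearIndependent K (fun i : {i : Fin n // i.val ≤ s} => L (β v i.1)) :=
      h4.comp _ Subtype.val_injective
    have h6 := finrank_span_eq_card h5
    rw [Fintype.card_subtype] at h6
    rw [← h6]
    refine Submodule.finrank_mono (Submodule.span_mono ?_)
    rintro _ ⟨i, rfl⟩
    exact ⟨β v i.1, Finset.mem_coe.2 (Finset.mem_image.2 ⟨i.1, Finset.mem_filter.2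
      ⟨Finset.mem_univ _, i.2⟩, rfl⟩), rfl⟩
  exact_mod_cast h3

/-- the refined theorem for one choice of the bases -/
theorem schV0 [IsGalois ℚ K] (hi : ∃ z : K, z ^ 2 = -1) (hn : 1 ≤ n) (S : Finset (Pl k))
    (f : Pl k → AbsoluteValue K ℝ) (hf : ∀ v ∈ S, Good v (f v)) (L : ι → Fin n → K)
    (β : Pl k → Fin n → ι) (hβ : ∀ v ∈ S, (Matrix.of fun a => L (β v a)).det ≠ 0)
    (ε : ℝ) (hε : 0 < ε) :
    ∃ C : ℝ, 0 ≤ C ∧ ∀ x : Fin n → k, Srt S f L β x →
      (∀ U ∈ (finite_HN (k := k) L).toFinset, ∃ u ∈ U, ∑ j, u j * x j ≠ 0) →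
      ∑ v ∈ S, wt v * ∑ a, (Real.log (nrm (av v) x) -
        Real.log (f v (dot (L (β v a)) (exv K x)))) ≤ (n + ε) * logHeight x + C := by
  classical
  have hn0 : (0 : ℝ) < n := by exact_mod_cast hn
  have htree : ∀ U : Submodule k (Fin n → k), ∃ C : ℝ, 0 ≤ C ∧ (U ≠ ⊥ → ∀ x : Fin n → k,
      Srt S f L β x → (∃ u ∈ U, ∑ j, u j * x j ≠ 0) → ∃ U'' < U,
        deg S f L β x U - deg S f L β x U'' ≤
          ((finrank k U : ℝ) - finrank k U'' + ε / n) * logHeight x + C) := by
    intro U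
    by_cases hU : U = ⊥
    · exact ⟨0, le_rfl, fun h => absurd hU h⟩
    · obtain ⟨C, hC, h⟩ := treeV hi hn S f hf L β hβ U (ε / n) (by positivity) (finrank k U) ⊥
        (bot_lt_iff_ne_bot.2 hU) (by omega)
      refine ⟨C, hC, fun _ x hx hUx => h x hx (fun u hu => ?_) hUx⟩
      rw [(Submodule.mem_bot k).1 hu]
      simp
  choose C hC hCU using htree
  refine ⟨n * ∑ U ∈ (finite_HN (k := k) L).toFinset, C U, mul_nonneg hn0.le
    (Finset.sum_nonneg fun U _ => hC U), fun x hx hZ => ?_⟩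
  refine (deg_top S f hn hf L β hβ x hx).trans ?_
  set w : Finset ι → ℝ := fun A => ∑ v ∈ S, wt v * ∑ s ∈ Finset.range n,
    (hl (f v) L (β v) (exv K x) s - hl (f v) L (β v) (exv K x) (s + 1)) *
      (if pre (β v) s = A then 1 else 0) with hw
  have hw0 : ∀ A, 0 ≤ w A := by
    intro A
    refine Finset.sum_nonneg fun v hv => mul_nonneg (wt_nonneg v) (Finset.sum_nonneg fun s _ =>
      mul_nonneg (sub_nonneg.2 (hl_anti L (β v) _ (hx.2.1 v hv) (hx.2.2 v hv) s)) ?_)
    split_ifs
    · exact zero_le_one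
    · exact le_rfl
  have hdeg : ∀ U : Submodule k (Fin n → k), dg L w U = deg S f L β x U := by
    intro U
    unfold dg deg
    simp only [hw, Finset.sum_mul]
    rw [Finset.sum_comm]
    refine Finset.sum_congr rfl fun v _ => ?_
    have h1 : ∀ A, wt v * (∑ s ∈ Finset.range n,
        (hl (f v) L (β v) (exv K x) s - hl (f v) L (β v) (exv K x) (s + 1)) *
        (if pre (β v) s = A then (1 : ℝ) else 0)) * (dm L A U : ℝ) = wt v * ∑ s ∈ Finset.range n,
        (hl (f v) L (β v) (exv K x) s - hl (f v) L (β v) (exv K x) (s + 1)) *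
        (if pre (β v) s = A then (dm L A U : ℝ) else 0) := by
      intro A
      rw [mul_assoc, Finset.sum_mul]
      congr 1
      refine Finset.sum_congr rfl fun s _ => ?_
      split_ifs <;> ring
    simp only [h1]
    rw [← Finset.mul_sum, Finset.sum_comm]
    congr 1
    refine Finset.sum_congr rfl fun s _ => ?_
    rw [← Finset.mul_sum, Finset.sum_ite_eq]
    simp
  obtain ⟨U, μ, hU⟩ := exists_HN (k := k) L hn w
  have hUmem : U ∈ (finite_HN (k := k) L).toFinset :=
    (Set.Finite.mem_toFinset _).2 ⟨w, μ, hw0, hU⟩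
  obtain ⟨h1, h2, h3, -⟩ := hU
  obtain ⟨U'', hlt, h4⟩ := hCU U h1 x hx (hZ U hUmem)
  have h5 := h3 ⊤
  have h6 := h3 U''
  rw [hdeg] at h2 h5 h6
  rw [finrank_top, finrank_fin_fun] at h5
  have hm : (finrank k U'' : ℝ) + 1 ≤ finrank k U := by
    exact_mod_cast Submodule.finrank_lt_finrank_of_lt hlt
  have hCle : C U ≤ ∑ U ∈ (finite_HN (k := k) L).toFinset, C U :=
    Finset.single_le_sum (f := C) (fun U _ => hC U) hUmem
  set D := ∑ U ∈ (finite_HN (k := k) L).toFinset, C U with hD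
  have hh := logHeight_nonneg x
  have hD0 : 0 ≤ D := (hC U).trans hCle
  set m : ℝ := (finrank k U : ℝ) - finrank k U'' with hmdef
  have hm1 : 1 ≤ m := by rw [hmdef]; linarith
  have h7 : μ * m ≤ (m + ε / n) * logHeight x + C U := by
    have : μ * m = μ * finrank k U - μ * finrank k U'' := by rw [hmdef]; ring
    rw [this]
    linarith
  have hen : 0 ≤ ε / n := by positivity
  have h8 : μ ≤ (1 + ε / n) * logHeight x + D := by
    by_contra hcon
    push Not at hcon
    have h9 : m * ((1 + ε / n) * logHeight x + D) < m * μ :=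
      mul_lt_mul_of_pos_left hcon (by linarith)
    have h10 : 0 ≤ (m - 1) * (ε / n * logHeight x) := mul_nonneg (by linarith) (mul_nonneg hen hh)
    have h11 : 0 ≤ (m - 1) * D := mul_nonneg (by linarith) hD0
    linarith
  have h9 := mul_le_mul_of_nonneg_left h8 hn0.le
  have h10 : (n : ℝ) * ((1 + ε / n) * logHeight x + D) = (n + ε) * logHeight x + n * D := by
    field_simp
  linarith

/-- **Vojta's refinement of the subspace theorem** over a number field: the exceptional hyperplanes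
depend only on the linear forms. -/
theorem schV [IsGalois ℚ K] (hi : ∃ z : K, z ^ 2 = -1) (hn : 1 ≤ n) (L : ι → Fin n → K) :
    ∃ Z : Finset (Fin n → k), (∀ z ∈ Z, z ≠ 0) ∧ ∀ (S : Finset (Pl k))
      (f : Pl k → AbsoluteValue K ℝ), (∀ v ∈ S, Good v (f v)) → ∀ ε : ℝ, 0 < ε →
      ∃ C : ℝ, 0 ≤ C ∧ ∀ x : Fin n → k, x ≠ 0 → (∀ z ∈ Z, ∑ j, z j * x j ≠ 0) →
        (∀ l, dot (L l) (exv K x) ≠ 0) → ∀ β : Pl k → Fin n → ι,
        (∀ v ∈ S, (Matrix.of fun a => L (β v a)).det ≠ 0) →
        ∑ v ∈ S, wt v * ∑ a, (Real.log (nrm (av v) x) -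
          Real.log (f v (dot (L (β v a)) (exv K x)))) ≤ (n + ε) * logHeight x + C := by
  classical
  -- one form for each subspace
  have hex : ∀ U : Submodule k (Fin n → k), ∃ u : Fin n → k, U ≠ ⊥ → u ∈ U ∧ u ≠ 0 := by
    intro U
    by_cases hU : U = ⊥
    · exact ⟨0, fun h => absurd hU h⟩
    · obtain ⟨u, hu, hu0⟩ := Submodule.exists_mem_ne_zero_of_ne_bot hU
      exact ⟨u, fun _ => ⟨hu, hu0⟩⟩
  choose u hu using hex
  refine ⟨(finite_HN (k := k) L).toFinset.image u, ?_, fun S f hf ε hε => ?_⟩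
  · intro z hz
    obtain ⟨U, hU, rfl⟩ := Finset.mem_image.1 hz
    obtain ⟨w, μ, -, h1, -⟩ := (Set.Finite.mem_toFinset _).1 hU
    exact (hu U h1).2
  by_cases hne : Nonempty (Fin n → ι)
  · obtain ⟨b0⟩ := hne
    set ex : ({v // v ∈ S} → Fin n → ι) → Pl k → Fin n → ι := fun r v =>
      if h : v ∈ S then r ⟨v, h⟩ else b0 with hex
    have hC : ∀ r : {v // v ∈ S} → Fin n → ι, ∃ C : ℝ, 0 ≤ C ∧
        ((∀ v ∈ S, (Matrix.of fun a => L (ex r v a)).det ≠ 0) → ∀ x : Fin n → k,
        Srt S f L (ex r) x →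
        (∀ U ∈ (finite_HN (k := k) L).toFinset, ∃ u ∈ U, ∑ j, u j * x j ≠ 0) →
        ∑ v ∈ S, wt v * ∑ a, (Real.log (nrm (av v) x) -
        Real.log (f v (dot (L (ex r v a)) (exv K x)))) ≤ (n + ε) * logHeight x + C) := by
      intro r
      by_cases hr : ∀ v ∈ S, (Matrix.of fun a => L (ex r v a)).det ≠ 0
      · obtain ⟨C, hC, h⟩ := schV0 hi hn S f hf L (ex r) hr ε hε
        exact ⟨C, hC, fun _ => h⟩
      · exact ⟨0, le_rfl, fun h => absurd h hr⟩
    choose C hC0 hCr using hC
    refine ⟨∑ r, C r, Finset.sum_nonneg fun r _ => hC0 r, fun x hx hZ hL β hβ => ?_⟩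
    -- sort
    set σ : Pl k → Equiv.Perm (Fin n) := fun v =>
      Tuple.sort fun a => f v (dot (L (β v a)) (exv K x)) with hσ
    set r : {v // v ∈ S} → Fin n → ι := fun v => β v.1 ∘ σ v.1 with hr
    have hexr : ∀ v ∈ S, ex r v = β v ∘ σ v := by
      intro v hv
      simp only [hex, hr, hv, dif_pos]
    have hdet : ∀ v ∈ S, (Matrix.of fun a => L (ex r v a)).det ≠ 0 := by
      intro v hv
      rw [hexr v hv]
      have h1 : (Matrix.of fun a => L ((β v ∘ σ v) a)) =
          (Matrix.of fun a => L (β v a)).submatrix (σ v) id := rfl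
      rw [h1, Matrix.det_permute]
      exact mul_ne_zero (by
        rcases Int.units_eq_one_or (Equiv.Perm.sign (σ v)) with h | h <;> simp [h]) (hβ v hv)
    have hsrt : Srt S f L (ex r) x := by
      refine ⟨hx, fun v _ a => hL _, fun v hv a b hab => ?_⟩
      rw [hexr v hv]
      exact Tuple.monotone_sort (fun a => f v (dot (L (β v a)) (exv K x))) hab
    have h1 := hCr r hdet x hsrt (fun U hU => by
      obtain ⟨w, μ, -, h1, -⟩ := (Set.Finite.mem_toFinset _).1 hU
      exact ⟨u U, (hu U h1).1, hZ _ (Finset.mem_image_of_mem _ hU)⟩)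
    have h2 : ∑ v ∈ S, wt v * ∑ a, (Real.log (nrm (av v) x) -
        Real.log (f v (dot (L (ex r v a)) (exv K x)))) = ∑ v ∈ S, wt v * ∑ a,
        (Real.log (nrm (av v) x) - Real.log (f v (dot (L (β v a)) (exv K x)))) := by
      refine Finset.sum_congr rfl fun v hv => ?_
      rw [hexr v hv]
      congr 1
      exact Equiv.sum_comp (σ v) (fun a => Real.log (nrm (av v) x) -
        Real.log (f v (dot (L (β v a)) (exv K x))))
    rw [h2] at h1
    have h3 := Finset.single_le_sum (f := C) (fun r _ => hC0 r) (Finset.mem_univ r)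
    linarith
  · refine ⟨0, le_rfl, fun x _ _ _ β _ => ?_⟩
    exact absurd ⟨β (Sum.inl (Classical.arbitrary _))⟩ hne

end Pool.Agent.R405
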